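import Mathlib
import Pool.Agent.W5h83.HG.JC

/-!
# Jointly smooth families: integrals, the Hadamard lemma, composition with a norm
-/

set_option autoImplicit false
set_option maxHeartbeats 400000

set_option linter.unusedSectionVars false

open scoped ContDiff Topology
open MeasureTheory Set

namespace Pool.Agent.V5helper82.EQ

open Pool.Agent.W5h83.HG

universe v

section integral

variable {P : Type*} [TopologicalSpace P] {E : Type v} [NormedAddCommGroup E] [NormedSpace ℝ E]
  [ProperSpace E]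

/-- differentiation under the integral -/
theorem hasFDerivAt_int {F : Type v} [NormedAddCommGroup F] [NormedSpace ℝ F]
    {f : ℝ → E → F} {f' : ℝ → E → E →L[ℝ] F}
    (hf : Continuous (Function.uncurry f)) (hf' : Continuous (Function.uncurry f'))
    (hd : ∀ t x, HasFDerivAt (f t) (f' t x) x) (x : E) :
    HasFDerivAt (fun x => ∫ t in (0:ℝ)..1, f t x) (∫ t in (0:ℝ)..1, f' t x) x := by
  obtain ⟨M, hM⟩ := ((isCompact_Icc (a := (0:ℝ)) (b := 1)).prod
    (isCompact_closedBall x 1)).exists_bound_of_continuousOn hf'.continuousOn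
  refine intervalIntegral.hasFDerivAt_integral_of_dominated_of_fderiv_le (𝕜 := ℝ) (μ := volume)
    (a := 0) (b := 1) (F := fun x t => f t x) (F' := fun x t => f' t x) (bound := fun _ => M)
    (Metric.ball_mem_nhds x one_pos) ?_ ?_ ?_ ?_ ?_ ?_
  · refine Filter.Eventually.of_forall fun y => ?_
    exact (hf.comp (continuous_id.prodMk continuous_const)).aestronglyMeasurable
  · exact (hf.comp (continuous_id.prodMk continuous_const)).intervalIntegrable _ _
  · exact (hf'.comp (continuous_id.prodMk continuous_const)).aestronglyMeasurable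
  · refine Filter.Eventually.of_forall fun t ht y hy => ?_
    rw [uIoc_of_le zero_le_one] at ht
    exact hM (t, y) ⟨⟨ht.1.le, ht.2⟩, Metric.ball_subset_closedBall hy⟩
  · exact intervalIntegrable_const
  · exact Filter.Eventually.of_forall fun t _ y _ => hd t y

/-- integrals of jointly smooth families -/
theorem JC_int01 {k : ℕ} {F : Type v} [NormedAddCommGroup F] [NormedSpace ℝ F]
    {f : ℝ × P → E → F} (hf : JC k F f) :
    JC k F (fun p x => ∫ t in (0:ℝ)..1, f (t, p) x) := by
  have hc : ∀ {F : Type v} [NormedAddCommGroup F] [NormedSpace ℝ F] {f : ℝ × P → E → F},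
      Continuous (Function.uncurry f) →
      Continuous (Function.uncurry fun p x => ∫ t in (0:ℝ)..1, f (t, p) x) := by
    intro F _ _ f hf
    refine intervalIntegral.continuous_parametric_intervalIntegral_of_continuous'
      (f := fun (z : P × E) t => f (t, z.1) z.2) ?_ 0 1
    exact hf.comp ((continuous_snd.prodMk (continuous_fst.comp continuous_fst)).prodMk
      (continuous_snd.comp continuous_fst))
  induction k generalizing F with
  | zero => exact hc hf
  | succ k ih =>
    have hd : ∀ p x, HasFDerivAt (fun x => ∫ t in (0:ℝ)..1, f (t, p) x)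
        (∫ t in (0:ℝ)..1, fderiv ℝ (f (t, p)) x) x := by
      intro p x
      refine hasFDerivAt_int (f := fun t => f (t, p)) (f' := fun t x => fderiv ℝ (f (t, p)) x)
        ?_ ?_ (fun t x => (hf.2.1 (t, p) x).hasFDerivAt) x
      · exact hf.1.comp ((continuous_fst.prodMk continuous_const).prodMk continuous_snd)
      · exact hf.2.2.cont.comp ((continuous_fst.prodMk continuous_const).prodMk continuous_snd)
    refine ⟨hc hf.1, fun p x => (hd p x).differentiableAt, ?_⟩
    have : (fun p x => fderiv ℝ (fun x => ∫ t in (0:ℝ)..1, f (t, p) x) x) =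
        fun p x => ∫ t in (0:ℝ)..1, fderiv ℝ (f (t, p)) x := by
      funext p x
      exact (hd p x).fderiv
    rw [this]
    exact ih hf.2.2

end integral

section hadamard

variable {P : Type*} [TopologicalSpace P] {W : Type v} [NormedAddCommGroup W] [NormedSpace ℝ W]

/-- post-composition with a continuous linear map -/
theorem postLin {E F G : Type v} [NormedAddCommGroup E] [NormedSpace ℝ E] [NormedAddCommGroup F]
    [NormedSpace ℝ F] [NormedAddCommGroup G] [NormedSpace ℝ G] (T : F →L[ℝ] G) {k : ℕ}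
    {f : P → E → F} (hf : JC k F f) : JC k G (fun p x => T (f p x)) :=
  JC.bilin (ContinuousLinearMap.id ℝ (F →L[ℝ] G)) (JC.constX (a := fun _ : P => T)
    continuous_const k) hf

/-- pre-composition with a continuous linear map -/
theorem preLin {E E' : Type v} [NormedAddCommGroup E] [NormedSpace ℝ E] [NormedAddCommGroup E']
    [NormedSpace ℝ E'] (l : E' →L[ℝ] E) {k : ℕ} {F : Type v} [NormedAddCommGroup F]
    [NormedSpace ℝ F] {f : P → E → F} (hf : JC k F f) : JC k F (fun p z => f p (l z)) := by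
  induction k generalizing F with
  | zero =>
    exact Continuous.comp (g := Function.uncurry f) hf
      (continuous_fst.prodMk (l.continuous.comp continuous_snd))
  | succ k ih =>
    refine ⟨hf.1.comp (continuous_fst.prodMk (l.continuous.comp continuous_snd)), fun p z =>
      (hf.2.1 p (l z)).comp z l.differentiableAt, ?_⟩
    have : (fun p z => fderiv ℝ (fun z => f p (l z)) z) =
        fun p z => ((ContinuousLinearMap.compL ℝ E' E F).flip l) (fderiv ℝ (f p) (l z)) := by
      funext p z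
      exact ((hf.2.1 p (l z)).hasFDerivAt.comp z l.hasFDerivAt).fderiv
    rw [this]
    exact postLin _ (ih hf.2.2)

end hadamard

section hadamard

variable {P : Type*} [TopologicalSpace P] {W : Type} [NormedAddCommGroup W] [NormedSpace ℝ W]
  [ProperSpace W] {V : Type} [NormedAddCommGroup V] [NormedSpace ℝ V]

/-- the derivative in the radial variable -/
noncomputable def dr (F : P → ℝ × W → V) (p : P) (x : ℝ × W) : V :=
  fderiv ℝ (F p) x ((1 : ℝ), (0 : W))

/-- the Hadamard quotient `(F (r, w) - F (0, w)) / r` -/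
noncomputable def had (F : P → ℝ × W → V) (p : P) (x : ℝ × W) : V :=
  ∫ t in (0:ℝ)..1, dr F p (t * x.1, x.2)

/-- smooth families -/
def Sm (F : P → ℝ × W → V) : Prop := ∀ k, JC k V F

theorem Sm.dr {F : P → ℝ × W → V} (hF : Sm F) : Sm (EQ.dr F) := by
  intro k
  have h1 := (hF (k + 1)).2.2
  exact postLin (ContinuousLinearMap.apply ℝ V ((1 : ℝ), (0 : W))) h1

theorem Sm.had {F : P → ℝ × W → V} (hF : Sm F) : Sm (EQ.had F) := by
  intro k
  unfold EQ.had
  refine JC_int01 (f := fun (q : ℝ × P) (x : ℝ × W) => EQ.dr F q.2 (q.1 * x.1, x.2)) ?_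
  have h1 : JC k V (fun (q : ℝ × P) x => EQ.dr F q.2 x) := (hF.dr k).param continuous_snd
  refine JC.comp (g := fun (q : ℝ × P) (x : ℝ × W) => (q.1 * x.1, x.2)) h1 ?_
  have h2 : JC k (ℝ × W) (fun (q : ℝ × P) (x : ℝ × W) =>
      q.1 • (((ContinuousLinearMap.inl ℝ ℝ W).comp (ContinuousLinearMap.fst ℝ ℝ W)) x) +
        ((ContinuousLinearMap.inr ℝ ℝ W).comp (ContinuousLinearMap.snd ℝ ℝ W)) x) :=
    (JC.smulP continuous_fst (JC.ofSmooth (ContinuousLinearMap.contDiff _) k)).add
      (JC.ofSmooth (ContinuousLinearMap.contDiff _) k)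
  have h3 : (fun (q : ℝ × P) (x : ℝ × W) => (q.1 * x.1, x.2)) = (fun (q : ℝ × P) (x : ℝ × W) =>
      q.1 • (((ContinuousLinearMap.inl ℝ ℝ W).comp (ContinuousLinearMap.fst ℝ ℝ W)) x) +
        ((ContinuousLinearMap.inr ℝ ℝ W).comp (ContinuousLinearMap.snd ℝ ℝ W)) x) := by
    funext q x
    simp
  rw [h3]
  exact h2

theorem Sm.had_eq [CompleteSpace V] {F : P → ℝ × W → V} (hF : Sm F) (p : P) (r : ℝ) (w : W) :
    F p (r, w) = F p (0, w) + r • EQ.had F p (r, w) := by
  have hd : ∀ s : ℝ, HasDerivAt (fun s : ℝ => F p (s * r, w)) (r • EQ.dr F p (s * r, w)) s := by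
    intro s
    have h1 : HasFDerivAt (F p) (fderiv ℝ (F p) (s * r, w)) (s * r, w) :=
      ((hF 1).2.1 p _).hasFDerivAt
    have h2 : HasDerivAt (fun s : ℝ => ((s * r, w) : ℝ × W)) ((r, 0) : ℝ × W) s := by
      have h3 : HasDerivAt (fun s : ℝ => s * r) r s := by
        simpa using (hasDerivAt_id s).mul_const r
      exact h3.prodMk (hasDerivAt_const s w)
    have h3 := h1.comp_hasDerivAt s h2
    have h4 : fderiv ℝ (F p) (s * r, w) (r, 0) = r • EQ.dr F p (s * r, w) := by
      unfold EQ.dr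
      rw [← map_smul]
      congr 1
      ext <;> simp
    rw [h4] at h3
    exact h3
  have hc : Continuous (fun s : ℝ => r • EQ.dr F p (s * r, w)) := by
    refine continuous_const.smul ((hF.dr 0).cont.comp (continuous_const.prodMk
      ((continuous_id.mul continuous_const).prodMk continuous_const)))
  have h5 := intervalIntegral.integral_eq_sub_of_hasDerivAt (a := 0) (b := 1)
    (fun s _ => hd s) (hc.intervalIntegrable _ _)
  rw [intervalIntegral.integral_smul] at h5
  simp only [one_mul, zero_mul] at h5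
  unfold EQ.had
  simp only
  rw [h5]
  abel

/-- even families -/
def Ev (F : P → ℝ × W → V) : Prop := ∀ p r w, F p (-r, w) = F p (r, w)

/-- odd families -/
def Od (F : P → ℝ × W → V) : Prop := ∀ p r w, F p (-r, w) = - F p (r, w)

theorem fderiv_refl {F : ℝ × W → V} (hF : Differentiable ℝ F) {c : ℝ}
    (h : ∀ r w, F (-r, w) = c • F (r, w)) (r : ℝ) (w : W) (a : ℝ) (b : W) :
    fderiv ℝ F (-r, w) (-a, b) = c • fderiv ℝ F (r, w) (a, b) := by
  let L : ℝ × W →L[ℝ] ℝ × W := ((-ContinuousLinearMap.fst ℝ ℝ W)).prod (ContinuousLinearMap.snd ℝ ℝ W)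
  have h1 : HasFDerivAt (fun x => F (L x)) ((fderiv ℝ F (L (r, w))).comp L) (r, w) :=
    (hF _).hasFDerivAt.comp (r, w) L.hasFDerivAt
  have h2 : (fun x => F (L x)) = fun x => c • F x := by
    funext x
    exact h x.1 x.2
  rw [h2] at h1
  have h3 : HasFDerivAt (fun x => c • F x) (c • fderiv ℝ F (r, w)) (r, w) :=
    (hF _).hasFDerivAt.const_smul c
  have h4 := h1.unique h3
  have h5 := DFunLike.congr_fun h4 (a, b)
  exact h5

theorem Ev.dr {F : P → ℝ × W → V} (hF : Sm F) (h : Ev F) : Od (dr F) := by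
  intro p r w
  have h1 := fderiv_refl (F := F p) (fun x => (hF 1).2.1 p x) (c := 1)
    (fun r w => by rw [one_smul]; exact h p r w) r w (-1) 0
  rw [neg_neg, one_smul] at h1
  unfold EQ.dr
  rw [h1, ← map_neg]
  congr 1
  ext <;> simp

theorem Od.dr {F : P → ℝ × W → V} (hF : Sm F) (h : Od F) : Ev (dr F) := by
  intro p r w
  have h1 := fderiv_refl (F := F p) (fun x => (hF 1).2.1 p x) (c := -1)
    (fun r w => by rw [neg_smul, one_smul]; exact h p r w) r w (-1) 0
  rw [neg_neg, neg_smul, one_smul, ← map_neg] at h1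
  unfold EQ.dr
  rw [h1]
  congr 1
  ext <;> simp

/-- the Hadamard quotient of an odd family is even -/
theorem Od.had {F : P → ℝ × W → V} (hF : Sm F) (h : Od F) : Ev (had F) := by
  intro p r w
  unfold EQ.had
  refine intervalIntegral.integral_congr fun t _ => ?_
  have h1 := Od.dr hF h p (t * r) w
  simp only [mul_neg]
  exact h1

theorem Od.zero {F : P → ℝ × W → V} (h : Od F) (p : P) (w : W) : F p (0, w) = 0 := by
  have h1 := h p 0 w
  rw [neg_zero] at h1
  have h2 : (2 : ℝ) • F p (0, w) = 0 := by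
    rw [two_smul]
    nth_rewrite 1 [h1]
    exact neg_add_cancel _
  exact (smul_eq_zero.1 h2).resolve_left two_ne_zero

theorem Od.had_eq [CompleteSpace V] {F : P → ℝ × W → V} (hF : Sm F) (h : Od F) (p : P) (r : ℝ)
    (w : W) : F p (r, w) = r • EQ.had F p (r, w) := by
  have h1 := hF.had_eq p r w
  rwa [h.zero, zero_add] at h1

/-- `(∂_r F) / r` for an even family -/
noncomputable def qu (F : P → ℝ × W → V) : P → ℝ × W → V := had (dr F)

theorem Sm.qu {F : P → ℝ × W → V} (hF : Sm F) : Sm (qu F) := hF.dr.had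

theorem Ev.qu {F : P → ℝ × W → V} (hF : Sm F) (h : Ev F) : Ev (qu F) :=
  Od.had hF.dr (Ev.dr hF h)

theorem Ev.dr_eq [CompleteSpace V] {F : P → ℝ × W → V} (hF : Sm F) (h : Ev F) (p : P) (r : ℝ)
    (w : W) : EQ.dr F p (r, w) = r • EQ.qu F p (r, w) :=
  Od.had_eq hF.dr (Ev.dr hF h) p r w

end hadamard

section norm

variable {P : Type*} [TopologicalSpace P] {W : Type} [NormedAddCommGroup W] [NormedSpace ℝ W]
  [ProperSpace W] {V : Type} [NormedAddCommGroup V] [NormedSpace ℝ V] [CompleteSpace V]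

/-- `√(|z|² + σ²)` -/
noncomputable def rho (σ : ℝ) (z : ℂ) : ℝ := Real.sqrt (Complex.normSq z + σ ^ 2)

theorem rho_cont : Continuous (fun q : ℝ × ℂ => rho q.1 q.2) := by
  unfold rho
  exact Real.continuous_sqrt.comp ((Complex.continuous_normSq.comp continuous_snd).add
    (continuous_fst.pow 2))

theorem rho_nonneg (σ : ℝ) (z : ℂ) : 0 ≤ rho σ z := Real.sqrt_nonneg _

theorem rho_zero (z : ℂ) : rho 0 z = ‖z‖ := by
  unfold rho
  rw [Complex.norm_def]
  simp

theorem rho_sq (σ : ℝ) (z : ℂ) : rho σ z ^ 2 = Complex.normSq z + σ ^ 2 :=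
  Real.sq_sqrt (add_nonneg (Complex.normSq_nonneg _) (sq_nonneg _))

/-- `Re (z̄ ·)` -/
noncomputable def ip : ℂ →L[ℝ] ℂ →L[ℝ] ℝ := innerSL ℝ

theorem ip_apply (z v : ℂ) : ip z v = z.re * v.re + z.im * v.im := by
  unfold ip
  rw [innerSL_apply_apply, Complex.inner]
  simp
  ring

theorem rho_deriv {σ : ℝ} {z : ℂ} (h : rho σ z ≠ 0) :
    HasFDerivAt (rho σ) ((rho σ z)⁻¹ • ip z) z := by
  have h1 : HasFDerivAt (fun z : ℂ => Complex.normSq z + σ ^ 2) ((2 : ℝ) • ip z) z := by
    have h2 : (fun z : ℂ => Complex.normSq z + σ ^ 2) = fun z => ‖z‖ ^ 2 + σ ^ 2 := by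
      funext z
      rw [Complex.normSq_eq_norm_sq]
    rw [h2]
    have h3 := (hasStrictFDerivAt_norm_sq (F := ℂ) z).hasFDerivAt.add_const (σ ^ 2)
    have h4 : (2 : ℝ) • ip z = (2 : ℕ) • (innerSL ℝ) z := by
      unfold ip
      rw [ofNat_smul_eq_nsmul ℝ 2]
    rw [h4]
    exact h3
  have h0 : Complex.normSq z + σ ^ 2 ≠ 0 := by
    rw [← rho_sq]
    exact pow_ne_zero 2 h
  have h2 := h1.sqrt h0
  have h3 : (1 / (2 * Real.sqrt (Complex.normSq z + σ ^ 2))) • (2 : ℝ) • ip z =
      (rho σ z)⁻¹ • ip z := by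
    rw [smul_smul]
    congr 1
    unfold rho
    field_simp
  rw [h3] at h2
  exact h2

/-- the derivative of the composition with the norm -/
theorem hasFDerivAt_rho {F : P → ℝ × W → V} (hF : Sm F) (h : Ev F) (p : P) (σ : ℝ) (x : ℂ × W) :
    HasFDerivAt (fun x : ℂ × W => F p (rho σ x.1, x.2))
      (((ip x.1).comp (ContinuousLinearMap.fst ℝ ℂ W)).smulRight (qu F p (rho σ x.1, x.2)) +
        (fderiv ℝ (F p) (rho σ x.1, x.2)).comp
          ((0 : ℂ × W →L[ℝ] ℝ).prod (ContinuousLinearMap.snd ℝ ℂ W))) x := by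
  obtain ⟨z, w⟩ := x
  have hd : HasFDerivAt (F p) (fderiv ℝ (F p) (rho σ z, w)) (rho σ z, w) :=
    ((hF 1).2.1 p _).hasFDerivAt
  have hsplit : ∀ (x : ℝ × W) (a : ℝ) (b : W), fderiv ℝ (F p) x (a, b) =
      a • dr F p x + fderiv ℝ (F p) x (0, b) := by
    intro x a b
    unfold dr
    rw [← map_smul, ← map_add]
    congr 1
    ext <;> simp
  by_cases h0 : rho σ z = 0
  · -- the singular point
    have hz : z = 0 ∧ σ = 0 := by
      have h1 := rho_sq σ z
      rw [h0] at h1
      have h2 := Complex.normSq_nonneg z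
      have h3 := sq_nonneg σ
      constructor
      · exact Complex.normSq_eq_zero.1 (by nlinarith)
      · nlinarith
    obtain ⟨rfl, rfl⟩ := hz
    have hdr : dr F p (0, w) = 0 := (Ev.dr hF h).zero p w
    rw [h0] at hd
    simp only [map_zero, ContinuousLinearMap.zero_comp, ContinuousLinearMap.zero_smulRight,
      zero_add, h0]
    rw [hasFDerivAt_iff_isLittleO_nhds_zero] at hd ⊢
    have hten : Filter.Tendsto (fun y : ℂ × W => ((‖y.1‖, y.2) : ℝ × W)) (𝓝 0) (𝓝 0) := by
      have : Continuous (fun y : ℂ × W => ((‖y.1‖, y.2) : ℝ × W)) :=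
        (continuous_norm.comp continuous_fst).prodMk continuous_snd
      have h1 := this.tendsto 0
      have h2 : ((‖(0 : ℂ × W).1‖, (0 : ℂ × W).2) : ℝ × W) = 0 := by simp
      rwa [h2] at h1
    have h1 := hd.comp_tendsto hten
    have h2 : (fun y : ℂ × W => ((‖y.1‖, y.2) : ℝ × W)) =O[𝓝 0] (fun y : ℂ × W => y) := by
      refine Asymptotics.IsBigO.of_bound 1 (Filter.Eventually.of_forall fun y => ?_)
      rw [one_mul, Prod.norm_def, Prod.norm_def, norm_norm]
    refine (h1.trans_isBigO h2).congr' (Filter.Eventually.of_forall fun y => ?_)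
      (Filter.EventuallyEq.refl _ _)
    simp only [Function.comp_apply, Prod.fst_add, Prod.snd_add, zero_add, rho_zero, norm_zero,
      ContinuousLinearMap.comp_apply, ContinuousLinearMap.prod_apply, zero_apply,
      ContinuousLinearMap.coe_snd']
    rw [hsplit (0, w) ‖y.1‖ y.2, hdr, smul_zero, zero_add]
    simp
  · have h1 : HasFDerivAt (fun x : ℂ × W => ((rho σ x.1, x.2) : ℝ × W))
        ((((rho σ z)⁻¹ • ip z).comp (ContinuousLinearMap.fst ℝ ℂ W)).prod
          (ContinuousLinearMap.snd ℝ ℂ W)) (z, w) := by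
      refine HasFDerivAt.prodMk ?_ hasFDerivAt_snd
      exact HasFDerivAt.comp (g := rho σ) (f := fun x : ℂ × W => x.1) (z, w) (rho_deriv h0)
        (hasFDerivAt_fst (p := (z, w)))
    have h2 := hd.comp (z, w) h1
    refine HasFDerivAt.congr_fderiv (f := fun x : ℂ × W => F p (rho σ x.1, x.2)) h2 ?_
    refine ContinuousLinearMap.ext fun y => ?_
    change fderiv ℝ (F p) (rho σ z, w) ((rho σ z)⁻¹ * ip z y.1, y.2) =
      (ip z y.1) • qu F p (rho σ z, w) + fderiv ℝ (F p) (rho σ z, w) (0, y.2)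
    rw [hsplit (rho σ z, w) ((rho σ z)⁻¹ * ip z y.1) y.2, Ev.dr_eq hF h, smul_smul]
    congr 2
    field_simp

/-- **composition of an even smooth family with the norm** -/
theorem JC_rho (k : ℕ) {V : Type} [NormedAddCommGroup V] [NormedSpace ℝ V] [CompleteSpace V]
    {F : P → ℝ × W → V} (hF : Sm F) (h : Ev F) :
    JC k V (fun (q : P × ℝ) (x : ℂ × W) => F q.1 (rho q.2 x.1, x.2)) := by
  have hc : ∀ {V : Type} [NormedAddCommGroup V] [NormedSpace ℝ V] {F : P → ℝ × W → V},
      Continuous (Function.uncurry F) →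
      Continuous (Function.uncurry fun (q : P × ℝ) (x : ℂ × W) => F q.1 (rho q.2 x.1, x.2)) := by
    intro V _ _ F hF
    refine hF.comp (Continuous.prodMk (continuous_fst.comp continuous_fst) (Continuous.prodMk ?_
      (continuous_snd.comp continuous_snd)))
    exact rho_cont.comp ((continuous_snd.comp continuous_fst).prodMk
      (continuous_fst.comp continuous_snd))
  induction k generalizing V with
  | zero => exact hc (hF 0)
  | succ k ih =>
    have hd := fun (q : P × ℝ) (x : ℂ × W) => hasFDerivAt_rho hF h q.1 q.2 x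
    refine ⟨hc (hF 0), fun q x => (hd q x).differentiableAt, ?_⟩
    have : (fun (q : P × ℝ) (x : ℂ × W) =>
        fderiv ℝ (fun x : ℂ × W => F q.1 (rho q.2 x.1, x.2)) x) = fun q x =>
        (((ip x.1).comp (ContinuousLinearMap.fst ℝ ℂ W)).smulRight
            (qu F q.1 (rho q.2 x.1, x.2)) +
        (fderiv ℝ (F q.1) (rho q.2 x.1, x.2)).comp
          ((0 : ℂ × W →L[ℝ] ℝ).prod (ContinuousLinearMap.snd ℝ ℂ W))) := by
      funext q x
      exact (hd q x).fderiv
    rw [this]
    refine JC.add ?_ ?_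
    · have h1 := ih hF.qu (Ev.qu hF h)
      have h2 : JC k (ℂ × W →L[ℝ] ℝ) (fun (q : P × ℝ) (x : ℂ × W) =>
          (ip x.1).comp (ContinuousLinearMap.fst ℝ ℂ W)) := by
        refine JC.ofSmooth (φ := fun x : ℂ × W =>
          (ip x.1).comp (ContinuousLinearMap.fst ℝ ℂ W)) ?_ k
        exact (((ContinuousLinearMap.compL ℝ (ℂ × W) ℂ ℝ).flip
          (ContinuousLinearMap.fst ℝ ℂ W)).comp (ip.comp
            (ContinuousLinearMap.fst ℝ ℂ W))).contDiff
      exact JC.bilin (ContinuousLinearMap.smulRightL ℝ (ℂ × W) V) h2 h1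
    · have h1 : Sm (fun (p : P) (x : ℝ × W) => (fderiv ℝ (F p) x).comp
          (ContinuousLinearMap.inr ℝ ℝ W)) := fun k =>
        postLin ((ContinuousLinearMap.compL ℝ W (ℝ × W) V).flip (ContinuousLinearMap.inr ℝ ℝ W))
          (hF (k + 1)).2.2
      have h2 : Ev (fun (p : P) (x : ℝ × W) => (fderiv ℝ (F p) x).comp
          (ContinuousLinearMap.inr ℝ ℝ W)) := by
        intro p r w
        refine ContinuousLinearMap.ext fun b => ?_
        change fderiv ℝ (F p) (-r, w) (0, b) = fderiv ℝ (F p) (r, w) (0, b)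
        have h3 := fderiv_refl (F := F p) (fun x => (hF 1).2.1 p x) (c := 1)
          (fun r w => by rw [one_smul]; exact h p r w) r w 0 b
        rwa [neg_zero, one_smul] at h3
      have h3 := ih h1 h2
      have h4 := postLin ((ContinuousLinearMap.compL ℝ (ℂ × W) W V).flip
        (ContinuousLinearMap.snd ℝ ℂ W)) h3
      have h5 : (fun (q : P × ℝ) (x : ℂ × W) => (fderiv ℝ (F q.1) (rho q.2 x.1, x.2)).comp
          ((0 : ℂ × W →L[ℝ] ℝ).prod (ContinuousLinearMap.snd ℝ ℂ W))) = fun q x =>
          ((ContinuousLinearMap.compL ℝ (ℂ × W) W V).flip (ContinuousLinearMap.snd ℝ ℂ W))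
            ((fderiv ℝ (F q.1) (rho q.2 x.1, x.2)).comp (ContinuousLinearMap.inr ℝ ℝ W)) := by
        funext q x
        refine ContinuousLinearMap.ext fun y => ?_
        rfl
      rw [h5]
      exact h4

end norm

end Pool.Agent.V5helper82.EQ
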