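import Mathlib
import Pool.Agent.W5h83.HG.Supp
import Pool.Agent.V5helper82.EQ.Hadamard

/-!
# Coordinates `ℂ × ℝ²ⁿ` and maps commuting with the rotations of the first coordinate
-/

set_option autoImplicit false
set_option maxHeartbeats 400000
set_option linter.unusedSectionVars false

open scoped ContDiff Topology

namespace Pool.Agent.V5helper82.EQ

open Pool.Agent.W71.EC Pool.Agent.W5h83.HG

/-- jointly smooth families consist of smooth maps -/
theorem JC.contDiff {P : Type*} [TopologicalSpace P] {E : Type} [NormedAddCommGroup E]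
    [NormedSpace ℝ E] {k : ℕ} {F : Type} [NormedAddCommGroup F] [NormedSpace ℝ F] {f : P → E → F}
    (h : JC k F f) (p : P) : ContDiff ℝ k (f p) := by
  induction k generalizing F with
  | zero =>
    have h1 : Continuous (f p) := h.cont.comp (continuous_const.prodMk continuous_id)
    exact contDiff_zero.2 h1
  | succ k ih =>
    rw [Nat.cast_succ, contDiff_succ_iff_fderiv]
    refine ⟨fun x => h.2.1 p x, fun h0 => ?_, ih h.2.2⟩
    exact absurd h0 (by exact_mod_cast WithTop.natCast_ne_top (α := ℕ∞) k)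

variable {n : ℕ}

/-- The coordinates: the point with `z = x₀ + i y₀` and the remaining coordinates. -/
noncomputable def co (n : ℕ) : R2 (n + 1) ≃L[ℝ] ℂ × R2 n :=
  LinearEquiv.toContinuousLinearEquiv
    { toFun := fun p => (⟨p.1 0, p.2 0⟩, (Fin.tail p.1, Fin.tail p.2))
      invFun := fun q => (Fin.cons q.1.re q.2.1, Fin.cons q.1.im q.2.2)
      map_add' := fun p q => rfl
      map_smul' := fun c p => by
        refine Prod.ext ?_ rfl
        apply Complex.ext <;> simp
      left_inv := fun p => by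
        refine Prod.ext ?_ ?_ <;> simp
      right_inv := fun q => by
        refine Prod.ext ?_ ?_
        · apply Complex.ext <;> simp
        · simp }

theorem co_apply (p : R2 (n + 1)) : co n p = (⟨p.1 0, p.2 0⟩, (Fin.tail p.1, Fin.tail p.2)) := rfl

theorem co_symm_apply (q : ℂ × R2 n) :
    (co n).symm q = (Fin.cons q.1.re q.2.1, Fin.cons q.1.im q.2.2) := rfl

/-- the area form -/
def om1 (u v : ℂ) : ℝ := u.re * v.im - u.im * v.re

/-- the symplectic form in the coordinates -/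
def om (u v : ℂ × R2 n) : ℝ := om1 u.1 v.1 + omega u.2 v.2

theorem omega_co (u v : R2 (n + 1)) : omega u v = om (co n u) (co n v) := by
  unfold omega om om1
  rw [Fin.sum_univ_succ]
  rfl

theorem om_co_symm (u v : ℂ × R2 n) : omega ((co n).symm u) ((co n).symm v) = om u v := by
  rw [omega_co, ContinuousLinearEquiv.apply_symm_apply, ContinuousLinearEquiv.apply_symm_apply]

/-- a symplectomorphism in the coordinates -/
noncomputable def E (φ : SympCt (n + 1)) (x : ℂ × R2 n) : ℂ × R2 n :=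
  co n (φ.toEquiv ((co n).symm x))

theorem E_smooth (φ : SympCt (n + 1)) : ContDiff ℝ ∞ (E φ) :=
  (co n).contDiff.comp (φ.smooth.comp (co n).symm.contDiff)

theorem E_hasFD (φ : SympCt (n + 1)) (x : ℂ × R2 n) : HasFDerivAt (E φ) (fderiv ℝ (E φ) x) x :=
  ((E_smooth φ).contDiffAt.differentiableAt (by norm_num)).hasFDerivAt

theorem E_fderiv (φ : SympCt (n + 1)) (x u : ℂ × R2 n) :
    fderiv ℝ (E φ) x u = co n (fderiv ℝ φ.toEquiv ((co n).symm x) ((co n).symm u)) := by
  have h1 : HasFDerivAt (E φ) (((co n : R2 (n + 1) →L[ℝ] ℂ × R2 n).comp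
      (fderiv ℝ φ.toEquiv ((co n).symm x))).comp ((co n).symm : ℂ × R2 n →L[ℝ] R2 (n + 1))) x :=
    ((co n).hasFDerivAt.comp _ (hasFD φ _)).comp x (co n).symm.hasFDerivAt
  rw [h1.fderiv]
  rfl

theorem E_symp (φ : SympCt (n + 1)) (x u v : ℂ × R2 n) :
    om (fderiv ℝ (E φ) x u) (fderiv ℝ (E φ) x v) = om u v := by
  rw [E_fderiv, E_fderiv, ← omega_co, φ.symplectic, om_co_symm]

theorem E_comp (φ ψ : SympCt (n + 1)) (x : ℂ × R2 n) : E (comp φ ψ) x = E φ (E ψ x) := by
  unfold E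
  rw [ContinuousLinearEquiv.symm_apply_apply]
  rfl

theorem E_one (x : ℂ × R2 n) : E (one : SympCt (n + 1)) x = x := by
  unfold E
  change co n ((co n).symm x) = x
  rw [ContinuousLinearEquiv.apply_symm_apply]

theorem comp_inv (φ : SympCt n) : comp φ (inv φ) = one := by
  refine SympCt.ext' fun p => ?_
  change φ.toEquiv (φ.toEquiv.symm p) = p
  rw [Equiv.apply_symm_apply]

theorem inv_comp (φ : SympCt n) : comp (inv φ) φ = one := by
  refine SympCt.ext' fun p => ?_
  change φ.toEquiv.symm (φ.toEquiv p) = p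
  rw [Equiv.symm_apply_apply]

/-- commuting with the rotations of the first coordinate -/
def Rot (φ : SympCt (n + 1)) : Prop :=
  ∀ u : ℂ, ‖u‖ = 1 → ∀ z w, E φ (u * z, w) = (u * (E φ (z, w)).1, (E φ (z, w)).2)

theorem Rot.comp {φ ψ : SympCt (n + 1)} (hφ : Rot φ) (hψ : Rot ψ) :
    Rot (W71.EC.comp φ ψ) := by
  intro u hu z w
  rw [E_comp, E_comp, hψ u hu]
  exact hφ u hu _ _

theorem Rot.inv {φ : SympCt (n + 1)} (hφ : Rot φ) : Rot (W71.EC.inv φ) := by
  intro u hu z w
  have h1 : ∀ x, E φ (E (W71.EC.inv φ) x) = x := fun x => by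
    rw [← E_comp, comp_inv, E_one]
  have h2 : ∀ x, E (W71.EC.inv φ) (E φ x) = x := fun x => by
    rw [← E_comp, inv_comp, E_one]
  have h3 := hφ u hu (E (W71.EC.inv φ) (z, w)).1 (E (W71.EC.inv φ) (z, w)).2
  rw [Prod.mk.eta, h1] at h3
  rw [← h3, h2]

theorem Rot.one : Rot (W71.EC.one : SympCt (n + 1)) := by
  intro u hu z w
  rw [E_one, E_one]

/-- there is a fixed point -/
theorem exists_fix (φ : SympCt (n + 1)) : ∃ x, E φ x = x := by
  obtain ⟨K, hK, h⟩ := φ.compact_support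
  have : ∃ p, p ∉ K := by
    by_contra hcon
    push Not at hcon
    have h1 : K = Set.univ := Set.eq_univ_of_forall hcon
    exact (isCompact_univ_iff.not.2 (not_compactSpace_iff.2 inferInstance)) (h1 ▸ hK)
  obtain ⟨p, hp⟩ := this
  refine ⟨co n p, ?_⟩
  unfold E
  rw [ContinuousLinearEquiv.symm_apply_apply, h p hp]

theorem om1_I (z v : ℂ) : om1 (Complex.I * z) v = - ip z v := by
  rw [ip_apply]
  unfold om1
  simp
  ring

/-- the derivative along the orbits -/
theorem Rot.orbit {φ : SympCt (n + 1)} (hφ : Rot φ) (x : ℂ × R2 n) :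
    fderiv ℝ (E φ) x (Complex.I * x.1, 0) = (Complex.I * (E φ x).1, 0) := by
  obtain ⟨z, w⟩ := x
  have hc : ∀ z : ℂ, HasDerivAt (fun t : ℝ => Complex.exp (t * Complex.I) * z)
      (Complex.I * z) 0 := by
    intro z
    have h1 : HasDerivAt (fun t : ℝ => (t : ℂ) * Complex.I) (1 * Complex.I) 0 :=
      (Complex.ofRealCLM.hasDerivAt (x := 0)).mul_const Complex.I
    have h2 := (h1.cexp).mul_const z
    simpa using h2
  have h1 : HasDerivAt (fun t : ℝ => ((Complex.exp (t * Complex.I) * z, w) : ℂ × R2 n))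
      (Complex.I * z, 0) 0 := (hc z).prodMk (hasDerivAt_const 0 w)
  have h2 : HasFDerivAt (E φ) (fderiv ℝ (E φ) (z, w))
      ((fun t : ℝ => ((Complex.exp (t * Complex.I) * z, w) : ℂ × R2 n)) 0) := by
    simpa using E_hasFD φ (z, w)
  have h3 := h2.comp_hasDerivAt (0 : ℝ) h1
  have h4 : HasDerivAt (fun t : ℝ => ((Complex.exp (t * Complex.I) * (E φ (z, w)).1,
      (E φ (z, w)).2) : ℂ × R2 n)) (Complex.I * (E φ (z, w)).1, 0) 0 :=
    (hc _).prodMk (hasDerivAt_const 0 _)
  have h5 : (E φ ∘ fun t : ℝ => ((Complex.exp (t * Complex.I) * z, w) : ℂ × R2 n)) =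
      fun t : ℝ => ((Complex.exp (t * Complex.I) * (E φ (z, w)).1,
      (E φ (z, w)).2) : ℂ × R2 n) := by
    funext t
    exact hφ _ (Complex.norm_exp_ofReal_mul_I t) z w
  rw [h5] at h3
  exact h3.unique h4

/-- **The moment map is preserved.** -/
theorem Rot.norm_eq {φ : SympCt (n + 1)} (hφ : Rot φ) (x : ℂ × R2 n) :
    ‖(E φ x).1‖ = ‖x.1‖ := by
  let f : ℂ × R2 n → ℝ := fun x => ‖(E φ x).1‖ ^ 2 - ‖x.1‖ ^ 2
  have hsq : ∀ z : ℂ, HasFDerivAt (fun z : ℂ => ‖z‖ ^ 2) ((2 : ℝ) • ip z) z := by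
    intro z
    have h3 := (hasStrictFDerivAt_norm_sq (F := ℂ) z).hasFDerivAt
    have h4 : (2 : ℝ) • ip z = (2 : ℕ) • (innerSL ℝ) z := by
      unfold ip
      rw [ofNat_smul_eq_nsmul ℝ 2]
    rw [h4]
    exact h3
  have hf : ∀ x, HasFDerivAt f (0 : ℂ × R2 n →L[ℝ] ℝ) x := by
    intro x
    have h1 : HasFDerivAt (fun x => (E φ x).1)
        ((ContinuousLinearMap.fst ℝ ℂ (R2 n)).comp (fderiv ℝ (E φ) x)) x :=
      (ContinuousLinearMap.fst ℝ ℂ (R2 n)).hasFDerivAt.comp x (E_hasFD φ x)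
    have h2 := (hsq (E φ x).1).comp x h1
    have h3 := (hsq x.1).comp x (ContinuousLinearMap.fst ℝ ℂ (R2 n)).hasFDerivAt
    have h4 := h2.sub h3
    refine HasFDerivAt.congr_fderiv (f := f) (g' := (0 : ℂ × R2 n →L[ℝ] ℝ)) h4 ?_
    refine ContinuousLinearMap.ext fun v => ?_
    change (2 : ℝ) * ip (E φ x).1 (fderiv ℝ (E φ) x v).1 - 2 * ip x.1 v.1 = 0
    have h5 := E_symp φ x (Complex.I * x.1, 0) v
    rw [hφ.orbit x] at h5
    unfold om at h5
    rw [om1_I, om1_I] at h5
    have h6 : ∀ y : R2 n, omega (0 : R2 n) y = 0 := by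
      intro y
      unfold omega
      simp
    rw [h6, h6] at h5
    linarith
  have hdiff : Differentiable ℝ f := fun x => (hf x).differentiableAt
  have hconst := is_const_of_fderiv_eq_zero hdiff (fun x => (hf x).fderiv)
  obtain ⟨y, hy⟩ := exists_fix φ
  have h1 := hconst x y
  change ‖(E φ x).1‖ ^ 2 - ‖x.1‖ ^ 2 = ‖(E φ y).1‖ ^ 2 - ‖y.1‖ ^ 2 at h1
  rw [hy, sub_self, sub_eq_zero] at h1
  exact (pow_left_inj₀ (norm_nonneg _) (norm_nonneg _) two_ne_zero).1 h1

end Pool.Agent.V5helper82.EQ
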