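import Mathlib
import Pool.Agent.W5h49.EC.Lin
import Pool.Agent.V5helper82.EQ.Coord

/-!
# Compactly supported potentials of compactly supported symplectic vector fields
-/

set_option autoImplicit false
set_option maxHeartbeats 400000
set_option linter.unusedSectionVars false

open scoped ContDiff Topology

namespace Pool.Agent.V5helper82.EQ

open Pool.Agent.W71.EC Pool.Agent.W5h83.HG Pool.Agent.W5h49.EC

variable {n : ℕ}

/-- the primitive -/
noncomputable def F0 (X : R2 n → R2 n) (w : R2 n) : ℝ :=
  ∫ t in (0:ℝ)..1, W n (X (t • w)) w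

theorem F0_JC {X : R2 n → R2 n} (hs : ContDiff ℝ ∞ X) (k : ℕ) :
    JC k ℝ (fun (_ : Unit) w => F0 X w) := by
  unfold F0
  refine JC_int01 (f := fun (q : ℝ × Unit) (w : R2 n) => W n (X (q.1 • w)) w) ?_
  have h1 : JC k (R2 n) (fun (q : ℝ × Unit) w => X w) := JC.ofSmooth hs k
  have h2 : JC k (R2 n) (fun (q : ℝ × Unit) (w : R2 n) => w) :=
    JC.ofSmooth (φ := fun w : R2 n => w) contDiff_id k
  have h3 : JC k (R2 n) (fun (q : ℝ × Unit) (w : R2 n) => q.1 • w) :=
    JC.smulP continuous_fst h2
  exact JC.bilin (W n) (h1.comp h3) h2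

theorem F0_smooth {X : R2 n → R2 n} (hs : ContDiff ℝ ∞ X) : ContDiff ℝ ∞ (F0 X) := by
  rw [contDiff_infty]
  intro k
  exact JC.contDiff (F0_JC hs k) ()

/-- the differential of the primitive -/
theorem F0_fderiv {X : R2 n → R2 n} (hs : ContDiff ℝ ∞ X) (hsp : IsSp X) (w v : R2 n) :
    fderiv ℝ (F0 X) w v = omega (X w) v := by
  have hX : ∀ y, HasFDerivAt X (fderiv ℝ X y) y := fun y =>
    (hs.contDiffAt.differentiableAt (by norm_num)).hasFDerivAt
  have hXc : Continuous X := hs.continuous
  have hXc' : Continuous (fderiv ℝ X) := hs.continuous_fderiv (by norm_num)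
  let f' : ℝ → R2 n → (R2 n →L[ℝ] ℝ) := fun t w =>
    (W n).precompR (R2 n) (X (t • w)) (ContinuousLinearMap.id ℝ (R2 n)) +
      (W n).precompL (R2 n) ((fderiv ℝ X (t • w)).comp (t • ContinuousLinearMap.id ℝ (R2 n))) w
  have hf' : ∀ t w, HasFDerivAt (fun w => W n (X (t • w)) w) (f' t w) w := by
    intro t w
    have h1 : HasFDerivAt (fun w : R2 n => t • w) (t • ContinuousLinearMap.id ℝ (R2 n)) w :=
      (hasFDerivAt_id w).const_smul t
    have h2 : HasFDerivAt (fun w : R2 n => X (t • w))
      ((fderiv ℝ X (t • w)).comp (t • ContinuousLinearMap.id ℝ (R2 n))) w := (hX _).comp w h1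
    exact (W n).hasFDerivAt_of_bilinear h2 (hasFDerivAt_id w)
  have hc1 : Continuous (Function.uncurry fun (t : ℝ) (w : R2 n) => W n (X (t • w)) w) := by
    have e1 : Continuous (fun z : ℝ × R2 n => X (z.1 • z.2)) := hXc.comp continuous_smul
    exact ((W n).continuous.comp e1).clm_apply continuous_snd
  have hc2 : Continuous (Function.uncurry f') := by
    have e1 : Continuous (fun z : ℝ × R2 n => X (z.1 • z.2)) := hXc.comp continuous_smul
    have e2 : Continuous (fun z : ℝ × R2 n => fderiv ℝ X (z.1 • z.2)) := hXc'.comp continuous_smul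
    have e3 : Continuous (fun z : ℝ × R2 n => (fderiv ℝ X (z.1 • z.2)).comp
      (z.1 • ContinuousLinearMap.id ℝ (R2 n))) :=
      e2.clm_comp (continuous_fst.smul continuous_const)
    refine Continuous.add ?_ ?_
    · exact ((((W n).precompR (R2 n)).continuous.comp e1).clm_apply continuous_const)
    · exact ((((W n).precompL (R2 n)).continuous.comp e3).clm_apply continuous_snd)
  have h1 := hasFDerivAt_int hc1 hc2 hf' w
  have h2 : F0 X = fun w => ∫ t in (0:ℝ)..1, W n (X (t • w)) w := rfl
  rw [h2, h1.fderiv]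
  have h3 : (∫ t in (0:ℝ)..1, f' t w) v = ∫ t in (0:ℝ)..1, f' t w v := by
    refine ContinuousLinearMap.intervalIntegral_apply ?_ v
    exact (hc2.comp (continuous_id.prodMk continuous_const)).intervalIntegrable _ _
  rw [h3]
  -- the derivative of `t ω(X(tw), v)`
  have h4 : ∀ t : ℝ, HasDerivAt (fun t : ℝ => t * W n (X (t • w)) v) (f' t w v) t := by
    intro t
    have e1 : HasDerivAt (fun t : ℝ => t • w) w t := by
      simpa using (hasDerivAt_id t).smul_const w
    have e2 : HasDerivAt (fun t : ℝ => X (t • w)) (fderiv ℝ X (t • w) w) t :=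
      (hX _).comp_hasDerivAt t e1
    have e3 : HasDerivAt (fun t : ℝ => W n (X (t • w)) v) (W n (fderiv ℝ X (t • w) w) v) t := by
      have := ((W n).flip v).hasFDerivAt.comp_hasDerivAt t e2
      exact this
    have e4 := (hasDerivAt_id t).mul e3
    have e5 : f' t w v = 1 * W n (X (t • w)) v + id t * W n (fderiv ℝ X (t • w) w) v := by
      change W n (X (t • w)) v + W n (fderiv ℝ X (t • w) (t • v)) w = _
      rw [map_smul, map_smul, one_mul]
      congr 1
      have e6 := hsp (t • w) v w
      rw [← W_apply, ← W_apply] at e6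
      have e7 : ∀ a b : R2 n, W n a b = - W n b a := by
        intro a b
        rw [W_apply, W_apply]
        unfold omega
        rw [← Finset.sum_neg_distrib]
        refine Finset.sum_congr rfl fun i _ => ?_
        ring
      change t * W n (fderiv ℝ X (t • w) v) w = t * _
      rw [e7 (fderiv ℝ X (t • w) w) v]
      linear_combination t * e6
    rw [e5]
    exact e4
  have h5 : Continuous (fun t : ℝ => f' t w v) :=
    (hc2.comp (continuous_id.prodMk continuous_const)).clm_apply continuous_const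
  rw [intervalIntegral.integral_eq_sub_of_hasDerivAt (fun t _ => h4 t)
    (h5.intervalIntegrable _ _)]
  rw [one_smul, one_mul, zero_mul, sub_zero, W_apply]

/-- the complement of a ball is connected -/
theorem preconn {E : Type} [NormedAddCommGroup E] [NormedSpace ℝ E] (h : 1 < Module.rank ℝ E)
    (R : ℝ) (hR : 0 ≤ R) : IsPreconnected {x : E | R < ‖x‖} := by
  have h1 : IsPreconnected ({(0 : E)}ᶜ : Set E) :=
    (isConnected_compl_singleton_of_one_lt_rank h 0).isPreconnected
  have h2 : {x : E | R < ‖x‖} = (fun x : E => ((R + ‖x‖) / ‖x‖) • x) '' ({(0 : E)}ᶜ : Set E) := by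
    ext x
    constructor
    · intro hx
      have hx' : R < ‖x‖ := hx
      have hx0 : 0 < ‖x‖ := lt_of_le_of_lt hR hx'
      refine ⟨((‖x‖ - R) / ‖x‖) • x, ?_, ?_⟩
      · rw [Set.mem_compl_iff, Set.mem_singleton_iff, smul_eq_zero, not_or]
        exact ⟨(div_pos (by linarith) hx0).ne', norm_pos_iff.1 hx0⟩
      · have h3 : ‖((‖x‖ - R) / ‖x‖) • x‖ = ‖x‖ - R := by
          rw [norm_smul, Real.norm_of_nonneg (div_nonneg (by linarith) hx0.le)]
          field_simp
        change ((R + ‖((‖x‖ - R) / ‖x‖) • x‖) / ‖((‖x‖ - R) / ‖x‖) • x‖) •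
          ((‖x‖ - R) / ‖x‖) • x = x
        rw [h3, smul_smul]
        have h4 : (R + (‖x‖ - R)) / (‖x‖ - R) * ((‖x‖ - R) / ‖x‖) = 1 := by
          have : ‖x‖ - R ≠ 0 := by linarith
          field_simp
          ring
        rw [h4, one_smul]
    · rintro ⟨y, hy, rfl⟩
      have hy0 : 0 < ‖y‖ := norm_pos_iff.2 hy
      change R < ‖((R + ‖y‖) / ‖y‖) • y‖
      rw [norm_smul, Real.norm_of_nonneg (by positivity)]
      field_simp
      linarith
  rw [h2]
  refine h1.image _ (ContinuousOn.smul (ContinuousOn.div (by fun_prop) (by fun_prop) ?_)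
    continuousOn_id)
  intro x hx
  exact norm_ne_zero_iff.2 hx

theorem rank_R2 (n : ℕ) : Module.rank ℝ (R2 n) = (n + n : ℕ) := by
  rw [← Module.finrank_eq_rank, Module.finrank_prod, Module.finrank_fin_fun]

/-- **Compactly supported potentials** -/
theorem exists_potential {X : R2 n → R2 n} (hs : ContDiff ℝ ∞ X) (hsp : IsSp X) {K : Set (R2 n)}
    (hK : IsCompact K) (h0 : ∀ q, q ∉ K → X q = 0) :
    ∃ F : R2 n → ℝ, ContDiff ℝ ∞ F ∧ (∃ L : Set (R2 n), IsCompact L ∧ ∀ q, q ∉ L → F q = 0) ∧
      ∀ q v, fderiv ℝ F q v = omega (X q) v := by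
  rcases Nat.eq_zero_or_pos n with hn | hn
  · subst hn
    refine ⟨fun _ => 0, contDiff_const, ⟨∅, isCompact_empty, fun _ _ => rfl⟩, fun q v => ?_⟩
    rw [fderiv_fun_const]
    simp [omega]
  · obtain ⟨r, hr⟩ := hK.isBounded.subset_closedBall (0 : R2 n)
    set R := max r 0 with hRdef
    have hXR : ∀ q : R2 n, R < ‖q‖ → X q = 0 := by
      intro q hq
      refine h0 q fun hqK => ?_
      have := hr hqK
      rw [Metric.mem_closedBall, dist_zero_right] at this
      exact absurd (this.trans (le_max_left r 0)) (not_le.2 hq)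
    have hpre : IsPreconnected {x : R2 n | R < ‖x‖} := by
      refine preconn ?_ R (le_max_right _ _)
      rw [rank_R2]
      exact_mod_cast (by omega : 1 < n + n)
    have hop : IsOpen {x : R2 n | R < ‖x‖} := isOpen_lt continuous_const continuous_norm
    have hd : Differentiable ℝ (F0 X) := (F0_smooth hs).differentiable (by norm_num)
    have hconst : ∀ x y : R2 n, R < ‖x‖ → R < ‖y‖ → F0 X x = F0 X y := by
      intro x y hx hy
      refine hop.is_const_of_fderiv_eq_zero hpre hd.differentiableOn (fun z hz => ?_) hx hy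
      refine ContinuousLinearMap.ext fun v => ?_
      rw [F0_fderiv hs hsp, hXR z hz]
      simp [omega]
    obtain ⟨x0, hx0⟩ : ∃ x : R2 n, R < ‖x‖ := by
      have : Nontrivial (R2 n) := by
        have : Nonempty (Fin n) := ⟨⟨0, hn⟩⟩
        infer_instance
      exact NormedSpace.exists_lt_norm ℝ (R2 n) R
    refine ⟨fun w => F0 X w - F0 X x0, (F0_smooth hs).sub contDiff_const,
      ⟨Metric.closedBall 0 R, isCompact_closedBall _ _, fun q hq => ?_⟩, fun q v => ?_⟩
    · rw [Metric.mem_closedBall, dist_zero_right, not_le] at hq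
      change F0 X q - F0 X x0 = 0
      rw [hconst q x0 hq hx0, sub_self]
    · have : fderiv ℝ (fun w => F0 X w - F0 X x0) q = fderiv ℝ (F0 X) q := by
        rw [fderiv_sub_const]
      rw [this, F0_fderiv hs hsp]

end Pool.Agent.V5helper82.EQ
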