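import Mathlib
import Pool.Agent.V5helper82.EQ.Coord

/-!
# The deformation of a rotation invariant symplectomorphism
-/

set_option autoImplicit false
set_option maxHeartbeats 400000
set_option linter.unusedSectionVars false

open scoped ContDiff Topology

namespace Pool.Agent.V5helper82.EQ

open Pool.Agent.W71.EC Pool.Agent.W5h83.HG

variable {n : ℕ}

/-- the first component on the real points -/
noncomputable def Am (φ : SympCt (n + 1)) (x : ℝ × R2 n) : ℂ := (E φ ((x.1 : ℂ), x.2)).1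

/-- the second component on the real points -/
noncomputable def Bm (φ : SympCt (n + 1)) (x : ℝ × R2 n) : R2 n := (E φ ((x.1 : ℂ), x.2)).2

/-- the quotient of the first component by the coordinate -/
noncomputable def Qm (φ : SympCt (n + 1)) (x : ℝ × R2 n) : ℂ :=
  had (fun (_ : Unit) x => Am φ x) () x

/-- the inclusion of the real points -/
noncomputable def li (n : ℕ) : ℝ × R2 n →L[ℝ] ℂ × R2 n :=
  (Complex.ofRealCLM.comp (ContinuousLinearMap.fst ℝ ℝ (R2 n))).prod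
    (ContinuousLinearMap.snd ℝ ℝ (R2 n))

theorem li_apply (x : ℝ × R2 n) : li n x = ((x.1 : ℂ), x.2) := rfl

section fam

variable {P : Type*} [TopologicalSpace P]

theorem JS.E {f : P → SympCt (n + 1)} (hf : JS f) (k : ℕ) :
    JC k (ℂ × R2 n) (fun p x => EQ.E (f p) x) := by
  have h1 := preLin ((co n).symm : ℂ × R2 n →L[ℝ] R2 (n + 1)) (hf k)
  exact postLin (co n : R2 (n + 1) →L[ℝ] ℂ × R2 n) h1

theorem JS.ofE {f : P → SympCt (n + 1)} (hf : ∀ k, JC k (ℂ × R2 n) (fun p x => EQ.E (f p) x)) :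
    JS f := by
  intro k
  have h1 := preLin (co n : R2 (n + 1) →L[ℝ] ℂ × R2 n) (hf k)
  have h2 := postLin ((co n).symm : ℂ × R2 n →L[ℝ] R2 (n + 1)) h1
  have h3 : (fun p x => (f p).toEquiv x) = fun p x =>
      ((co n).symm : ℂ × R2 n →L[ℝ] R2 (n + 1)) (EQ.E (f p)
        ((co n : R2 (n + 1) →L[ℝ] ℂ × R2 n) x)) := by
    funext p x
    change _ = (co n).symm (co n ((f p).toEquiv ((co n).symm (co n x))))
    rw [ContinuousLinearEquiv.symm_apply_apply, ContinuousLinearEquiv.symm_apply_apply]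
  rw [h3]
  exact h2

theorem JS.Am {f : P → SympCt (n + 1)} (hf : JS f) : Sm (fun p x => Am (f p) x) := by
  intro k
  exact postLin (ContinuousLinearMap.fst ℝ ℂ (R2 n)) (preLin (li n) (JS.E hf k))

theorem JS.Bm {f : P → SympCt (n + 1)} (hf : JS f) : Sm (fun p x => Bm (f p) x) := by
  intro k
  exact postLin (ContinuousLinearMap.snd ℝ ℂ (R2 n)) (preLin (li n) (JS.E hf k))

theorem JS.Qm {f : P → SympCt (n + 1)} (hf : JS f) : Sm (fun p x => Qm (f p) x) :=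
  Sm.had (JS.Am hf)

theorem JS.const (φ : SympCt (n + 1)) : JS (fun _ : P => φ) := fun k => JC.ofSmooth φ.smooth k

end fam

/-- the real points -/
theorem Rot.real {φ : SympCt (n + 1)} (hφ : Rot φ) (z : ℂ) (w : R2 n) (u : ℂ) (hu : ‖u‖ = 1)
    (r : ℝ) (hz : z = u * r) : E φ (z, w) = (u * Am φ (r, w), Bm φ (r, w)) := by
  rw [hz, hφ u hu]
  rfl

theorem Rot.Am_odd {φ : SympCt (n + 1)} (hφ : Rot φ) (r : ℝ) (w : R2 n) :
    Am φ (-r, w) = - Am φ (r, w) := by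
  have h1 := hφ (-1) (by simp) r w
  unfold Am
  simp only [neg_mul, one_mul] at h1
  rw [Complex.ofReal_neg, h1]

theorem Rot.Bm_even {φ : SympCt (n + 1)} (hφ : Rot φ) (r : ℝ) (w : R2 n) :
    Bm φ (-r, w) = Bm φ (r, w) := by
  have h1 := hφ (-1) (by simp) r w
  unfold Bm
  simp only [neg_mul, one_mul] at h1
  rw [Complex.ofReal_neg, h1]

theorem smAm (φ : SympCt (n + 1)) : Sm (fun (_ : Unit) x => Am φ x) :=
  JS.Am (JS.const (P := Unit) φ)

theorem smBm (φ : SympCt (n + 1)) : Sm (fun (_ : Unit) x => Bm φ x) :=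
  JS.Bm (JS.const (P := Unit) φ)

theorem smQm (φ : SympCt (n + 1)) : Sm (fun (_ : Unit) x => Qm φ x) :=
  JS.Qm (JS.const (P := Unit) φ)

theorem Qm_cont (φ : SympCt (n + 1)) : Continuous (Qm φ) :=
  (smQm φ 0).cont.comp ((continuous_const (y := ())).prodMk continuous_id)

theorem Bm_cont (φ : SympCt (n + 1)) : Continuous (Bm φ) :=
  (smBm φ 0).cont.comp ((continuous_const (y := ())).prodMk continuous_id)

theorem Rot.Qm_even {φ : SympCt (n + 1)} (hφ : Rot φ) (r : ℝ) (w : R2 n) :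
    Qm φ (-r, w) = Qm φ (r, w) :=
  Od.had (smAm φ) (fun _ r w => hφ.Am_odd r w) () r w

theorem Rot.Am_eq {φ : SympCt (n + 1)} (hφ : Rot φ) (r : ℝ) (w : R2 n) :
    Am φ (r, w) = r * Qm φ (r, w) := by
  have h1 := Od.had_eq (smAm φ) (fun _ r w => hφ.Am_odd r w) () r w
  rw [Complex.real_smul] at h1
  exact h1

theorem Rot.norm_Qm {φ : SympCt (n + 1)} (hφ : Rot φ) (r : ℝ) (w : R2 n) :
    ‖Qm φ (r, w)‖ = 1 := by
  have h1 : ∀ r : ℝ, r ≠ 0 → ‖Qm φ (r, w)‖ = 1 := by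
    intro r hr
    have h2 := hφ.norm_eq ((r : ℂ), w)
    change ‖Am φ (r, w)‖ = _ at h2
    rw [hφ.Am_eq, norm_mul] at h2
    have h3 : ‖(r : ℂ)‖ ≠ 0 := by simpa using hr
    exact mul_left_cancel₀ h3 (by rw [h2, mul_one])
  have hc : Continuous (fun r : ℝ => ‖Qm φ (r, w)‖) :=
    ((Qm_cont φ).comp (continuous_id.prodMk continuous_const)).norm
  have hcl : IsClosed {r : ℝ | ‖Qm φ (r, w)‖ = 1} := isClosed_eq hc continuous_const
  have hd : Dense {r : ℝ | ‖Qm φ (r, w)‖ = 1} := by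
    refine (dense_compl_singleton (0 : ℝ)).mono fun r hr => h1 r hr
  have := hd.closure_eq
  rw [hcl.closure_eq] at this
  have h4 : r ∈ {r : ℝ | ‖Qm φ (r, w)‖ = 1} := this ▸ Set.mem_univ r
  exact h4

/-- the polar form -/
theorem Rot.E_eq {φ : SympCt (n + 1)} (hφ : Rot φ) (z : ℂ) (w : R2 n) :
    E φ (z, w) = (z * Qm φ (‖z‖, w), Bm φ (‖z‖, w)) := by
  by_cases hz : z = 0
  · subst hz
    have h1 := hφ.real 0 w 1 (by simp) 0 (by simp)
    rw [h1, hφ.Am_eq]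
    simp
  · have hn : (‖z‖ : ℂ) ≠ 0 := by simpa using hz
    have h1 := hφ.real z w (z / ‖z‖) (by
      rw [norm_div, Complex.norm_real, norm_norm, div_self (by simpa using hz)]) ‖z‖
      (by field_simp)
    rw [h1, hφ.Am_eq]
    congr 1
    field_simp

/-- the deformed map -/
noncomputable def Sx (φ : SympCt (n + 1)) (σ : ℝ) (x : ℂ × R2 n) : ℂ × R2 n :=
  (x.1 * Qm φ (rho σ x.1, x.2), Bm φ (rho σ x.1, x.2))

theorem rho_congr (σ : ℝ) {z z' : ℂ} (h : ‖z‖ = ‖z'‖) : rho σ z = rho σ z' := by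
  unfold rho
  rw [Complex.normSq_eq_norm_sq, Complex.normSq_eq_norm_sq, h]

theorem Rot.rho_Sx {φ : SympCt (n + 1)} (hφ : Rot φ) (σ : ℝ) (x : ℂ × R2 n) :
    rho σ (Sx φ σ x).1 = rho σ x.1 := by
  refine rho_congr σ ?_
  change ‖x.1 * Qm φ (rho σ x.1, x.2)‖ = _
  rw [norm_mul, hφ.norm_Qm, mul_one]

theorem rho_pos_or (σ : ℝ) (z : ℂ) : 0 < rho σ z ∨ z = 0 := by
  rcases (rho_nonneg σ z).lt_or_eq with h | h
  · exact Or.inl h
  · right
    have h1 := rho_sq σ z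
    rw [← h] at h1
    have h2 := Complex.normSq_nonneg z
    have h3 := sq_nonneg σ
    exact Complex.normSq_eq_zero.1 (by nlinarith)

/-- the components of a composition -/
theorem Rot.comp_eq {φ ψ : SympCt (n + 1)} (hφ : Rot φ) (hψ : Rot ψ) (r : ℝ) (w : R2 n) :
    Bm (W71.EC.comp φ ψ) (r, w) = Bm φ (r, Bm ψ (r, w)) ∧
    (r ≠ 0 → Qm (W71.EC.comp φ ψ) (r, w) = Qm ψ (r, w) * Qm φ (r, Bm ψ (r, w))) := by
  have h1 : ∀ r : ℝ, 0 ≤ r → E (W71.EC.comp φ ψ) ((r : ℂ), w) =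
      (r * Qm ψ (r, w) * Qm φ (r, Bm ψ (r, w)), Bm φ (r, Bm ψ (r, w))) := by
    intro r hr
    have hr' : ‖(r : ℂ)‖ = r := by rw [Complex.norm_real, Real.norm_of_nonneg hr]
    rw [E_comp, hψ.E_eq, hφ.E_eq, hr']
    have h2 : ‖(r : ℂ) * Qm ψ (r, w)‖ = r := by rw [norm_mul, hψ.norm_Qm, mul_one, hr']
    rw [h2]
  have h2 : ∀ r : ℝ, 0 ≤ r → Bm (W71.EC.comp φ ψ) (r, w) = Bm φ (r, Bm ψ (r, w)) ∧
      (r ≠ 0 → Qm (W71.EC.comp φ ψ) (r, w) = Qm ψ (r, w) * Qm φ (r, Bm ψ (r, w))) := by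
    intro r hr
    have h3 := h1 r hr
    have hr' : ‖(r : ℂ)‖ = r := by rw [Complex.norm_real, Real.norm_of_nonneg hr]
    rw [(hφ.comp hψ).E_eq, hr'] at h3
    have h4 := congrArg Prod.fst h3
    have h5 := congrArg Prod.snd h3
    refine ⟨h5, fun h0 => ?_⟩
    have h6 : (r : ℂ) ≠ 0 := by exact_mod_cast h0
    simp only at h4
    rw [mul_assoc] at h4
    exact mul_left_cancel₀ h6 h4
  rcases le_total 0 r with hr | hr
  · exact h2 r hr
  · have h3 := h2 (-r) (by linarith)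
    rw [(hφ.comp hψ).Bm_even, (hφ.comp hψ).Qm_even, hφ.Bm_even, hψ.Bm_even, hψ.Qm_even,
      hφ.Qm_even] at h3
    exact ⟨h3.1, fun h0 => h3.2 (neg_ne_zero.2 h0)⟩

theorem Sx_comp {φ ψ : SympCt (n + 1)} (hφ : Rot φ) (hψ : Rot ψ) (σ : ℝ) (x : ℂ × R2 n) :
    Sx φ σ (Sx ψ σ x) = Sx (W71.EC.comp φ ψ) σ x := by
  have h1 := hφ.comp_eq hψ (rho σ x.1) x.2
  have h2 := hψ.rho_Sx σ x
  refine Prod.ext ?_ ?_
  · change (Sx ψ σ x).1 * Qm φ (rho σ (Sx ψ σ x).1, (Sx ψ σ x).2) =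
      x.1 * Qm (W71.EC.comp φ ψ) (rho σ x.1, x.2)
    rw [h2]
    rcases rho_pos_or σ x.1 with h3 | h3
    · rw [h1.2 h3.ne']
      change x.1 * Qm ψ (rho σ x.1, x.2) * _ = _
      rw [mul_assoc]
      rfl
    · have h4 : (Sx ψ σ x).1 = 0 := by
        change x.1 * _ = 0
        rw [h3, zero_mul]
      rw [h3, h4, zero_mul, zero_mul]
  · change Bm φ (rho σ (Sx ψ σ x).1, (Sx ψ σ x).2) = Bm (W71.EC.comp φ ψ) (rho σ x.1, x.2)
    rw [h2, h1.1]
    rfl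

theorem Sx_one (σ : ℝ) (x : ℂ × R2 n) : Sx (one : SympCt (n + 1)) σ x = x := by
  have hB : ∀ r w, Bm (one : SympCt (n + 1)) (r, w) = w := by
    intro r w
    unfold Bm
    rw [E_one]
  have hQ : ∀ r : ℝ, r ≠ 0 → ∀ w, Qm (one : SympCt (n + 1)) (r, w) = 1 := by
    intro r hr w
    have h1 := Rot.one.Am_eq r w
    have h2 : Am (one : SympCt (n + 1)) (r, w) = r := by
      unfold Am
      rw [E_one]
    rw [h2] at h1
    have h3 : (r : ℂ) ≠ 0 := by exact_mod_cast hr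
    exact mul_left_cancel₀ h3 (by rw [← h1, mul_one])
  refine Prod.ext ?_ ?_
  · change x.1 * Qm _ _ = x.1
    rcases rho_pos_or σ x.1 with h3 | h3
    · rw [hQ _ h3.ne', mul_one]
    · rw [h3, zero_mul]
  · exact hB _ _

theorem Sx_zero {φ : SympCt (n + 1)} (hφ : Rot φ) (x : ℂ × R2 n) : Sx φ 0 x = E φ x := by
  obtain ⟨z, w⟩ := x
  rw [hφ.E_eq]
  unfold Sx
  rw [rho_zero]

/-- joint smoothness of the deformation -/
theorem Sx_JC {P : Type*} [TopologicalSpace P] {f : P → SympCt (n + 1)} (hf : JS f)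
    (hR : ∀ p, Rot (f p)) (k : ℕ) :
    JC k (ℂ × R2 n) (fun (q : P × ℝ) x => Sx (f q.1) q.2 x) := by
  have h1 := JC_rho k (JS.Qm hf) (fun p r w => (hR p).Qm_even r w)
  have h2 := JC_rho k (JS.Bm hf) (fun p r w => (hR p).Bm_even r w)
  have h3 : JC k ℂ (fun (q : P × ℝ) (x : ℂ × R2 n) => x.1) :=
    JC.ofSmooth (φ := fun x : ℂ × R2 n => x.1) contDiff_fst k
  have h4 : JC k ℂ (fun (q : P × ℝ) (x : ℂ × R2 n) => x.1 * Qm (f q.1) (rho q.2 x.1, x.2)) :=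
    JC.bilin (ContinuousLinearMap.mul ℝ ℂ) h3 h1
  have h5 := postLin (ContinuousLinearMap.inl ℝ ℂ (R2 n)) h4
  have h6 := postLin (ContinuousLinearMap.inr ℝ ℂ (R2 n)) h2
  have h7 := h5.add h6
  have h8 : (fun (q : P × ℝ) x => Sx (f q.1) q.2 x) = fun (q : P × ℝ) (x : ℂ × R2 n) =>
      ContinuousLinearMap.inl ℝ ℂ (R2 n) (x.1 * Qm (f q.1) (rho q.2 x.1, x.2)) +
      ContinuousLinearMap.inr ℝ ℂ (R2 n) (Bm (f q.1) (rho q.2 x.1, x.2)) := by
    funext q x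
    simp [Sx]
  rw [h8]
  exact h7

theorem Sx_smooth {φ : SympCt (n + 1)} (hφ : Rot φ) (σ : ℝ) : ContDiff ℝ ∞ (Sx φ σ) := by
  rw [contDiff_infty]
  intro k
  exact JC.contDiff (Sx_JC (JS.const (P := Unit) φ) (fun _ => hφ) k) ((), σ)

/-- fixed points -/
theorem Sx_fix {φ : SympCt (n + 1)} (hφ : Rot φ) (σ : ℝ) (x : ℂ × R2 n)
    (hx : E φ ((rho σ x.1 : ℂ), x.2) = ((rho σ x.1 : ℂ), x.2)) : Sx φ σ x = x := by
  have hr' : ‖(rho σ x.1 : ℂ)‖ = rho σ x.1 := by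
    rw [Complex.norm_real, Real.norm_of_nonneg (rho_nonneg _ _)]
  rw [hφ.E_eq, hr'] at hx
  have h3 := congrArg Prod.fst hx
  have h4 := congrArg Prod.snd hx
  refine Prod.ext ?_ h4
  change x.1 * Qm φ (rho σ x.1, x.2) = x.1
  rcases rho_pos_or σ x.1 with h5 | h5
  · have h6 : (rho σ x.1 : ℂ) ≠ 0 := by exact_mod_cast h5.ne'
    have h7 : Qm φ (rho σ x.1, x.2) = 1 := mul_left_cancel₀ h6 (by rw [mul_one]; exact h3)
    rw [h7, mul_one]
  · rw [h5, zero_mul]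

/-- the norm of the first coordinate -/
theorem norm_co_symm (r : ℝ) (w : R2 n) : |r| ≤ ‖(co n).symm ((r : ℂ), w)‖ := by
  rw [co_symm_apply]
  have h2 : ‖(Fin.cons (r : ℂ).re w.1 : Fin (n + 1) → ℝ) 0‖ ≤
      ‖(Fin.cons (r : ℂ).re w.1 : Fin (n + 1) → ℝ)‖ := norm_le_pi_norm _ 0
  simp only [Fin.cons_zero, Complex.ofReal_re, Real.norm_eq_abs] at h2
  exact h2.trans (le_max_left _ _)

theorem le_rho (σ : ℝ) (z : ℂ) : ‖z‖ ≤ rho σ z := by
  rw [← rho_zero]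
  unfold rho
  refine Real.sqrt_le_sqrt ?_
  have := sq_nonneg σ
  linarith [sq_nonneg (0 : ℝ), show (0 : ℝ) ^ 2 = 0 by norm_num]

theorem abs_le_rho (σ : ℝ) (z : ℂ) : |σ| ≤ rho σ z := by
  unfold rho
  refine Real.abs_le_sqrt ?_
  have := Complex.normSq_nonneg z
  linarith

/-- the shift -/
noncomputable def gs (σ : ℝ) (z : ℂ) : ℝ := rho σ z / ‖z‖

theorem gs_deriv (σ : ℝ) {z : ℂ} (hz : z ≠ 0) : ∃ g' : ℂ →L[ℝ] ℝ, HasFDerivAt (gs σ) g' z ∧
    ∀ v, gs σ z * g' v = -(σ ^ 2 / ‖z‖ ^ 4) * ip z v := by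
  have hn : 0 < ‖z‖ := norm_pos_iff.2 hz
  have hr : rho σ z ≠ 0 := by
    rcases rho_pos_or σ z with h | h
    · exact h.ne'
    · exact absurd h hz
  have h1 := rho_deriv hr
  have h0 : rho 0 z ≠ 0 := by rw [rho_zero]; exact hn.ne'
  have h2 := rho_deriv h0
  have h2' : HasFDerivAt (fun z => (rho 0 z)⁻¹) (-(rho 0 z ^ 2)⁻¹ • ((rho 0 z)⁻¹ • ip z)) z :=
    (hasDerivAt_inv h0).comp_hasFDerivAt z h2
  have h3 : HasFDerivAt (fun z => rho σ z * (rho 0 z)⁻¹)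
      (rho σ z • (-(rho 0 z ^ 2)⁻¹ • ((rho 0 z)⁻¹ • ip z)) + (rho 0 z)⁻¹ • ((rho σ z)⁻¹ • ip z)) z :=
    h1.mul h2'
  have h4 : (fun z => rho σ z * (rho 0 z)⁻¹) = gs σ := by
    funext z
    unfold gs
    rw [rho_zero, div_eq_mul_inv]
  rw [h4] at h3
  refine ⟨_, h3, fun v => ?_⟩
  change gs σ z * (rho σ z * (-(rho 0 z ^ 2)⁻¹ * ((rho 0 z)⁻¹ * ip z v)) +
    (rho 0 z)⁻¹ * ((rho σ z)⁻¹ * ip z v)) = _
  unfold gs
  rw [rho_zero]
  have h5 := rho_sq σ z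
  rw [Complex.normSq_eq_norm_sq] at h5
  field_simp
  rw [h5]
  ring

theorem om1_id (z u v : ℂ) : ip z v * om1 u z + ip z u * om1 z v = ‖z‖ ^ 2 * om1 u v := by
  rw [ip_apply, ip_apply, ← Complex.normSq_eq_norm_sq, Complex.normSq_apply]
  unfold om1
  ring

/-- the shift in the first coordinate is area preserving -/
theorem shift_symp (σ : ℝ) (x : ℂ × R2 n) (hx : x.1 ≠ 0) :
    ∃ T' : ℂ × R2 n →L[ℝ] ℂ × R2 n,
      HasFDerivAt (fun x : ℂ × R2 n => ((gs σ x.1 : ℂ) * x.1, x.2)) T' x ∧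
      ∀ u v, om (T' u) (T' v) = om u v := by
  obtain ⟨g', hg, hg'⟩ := gs_deriv σ hx
  have hn : 0 < ‖x.1‖ := norm_pos_iff.2 hx
  have h1 : HasFDerivAt (fun z : ℂ => (gs σ z : ℂ) * z)
      ((gs σ x.1) • ContinuousLinearMap.id ℝ ℂ + g'.smulRight x.1) x.1 := by
    have h2 := hg.smul (hasFDerivAt_id x.1)
    have h3 : (fun z : ℂ => (gs σ z : ℂ) * z) = fun z => gs σ z • id z := by
      funext z
      rw [Complex.real_smul]
      rfl
    rw [h3]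
    exact h2
  have h2 : HasFDerivAt (fun x : ℂ × R2 n => ((gs σ x.1 : ℂ) * x.1, x.2))
      ((((gs σ x.1) • ContinuousLinearMap.id ℝ ℂ + g'.smulRight x.1).comp
        (ContinuousLinearMap.fst ℝ ℂ (R2 n))).prod (ContinuousLinearMap.snd ℝ ℂ (R2 n))) x :=
    (HasFDerivAt.comp (g := fun z : ℂ => (gs σ z : ℂ) * z) x h1
      (hasFDerivAt_fst (p := x))).prodMk hasFDerivAt_snd
  refine ⟨_, h2, fun u v => ?_⟩
  have h3 : ∀ u : ℂ × R2 n, ((((gs σ x.1) • ContinuousLinearMap.id ℝ ℂ + g'.smulRight x.1).comp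
        (ContinuousLinearMap.fst ℝ ℂ (R2 n))).prod (ContinuousLinearMap.snd ℝ ℂ (R2 n))) u =
        (gs σ x.1 • u.1 + g' u.1 • x.1, u.2) := fun u => rfl
  rw [h3, h3]
  unfold om
  congr 1
  have h4 : om1 (gs σ x.1 • u.1 + g' u.1 • x.1) (gs σ x.1 • v.1 + g' v.1 • x.1) =
      gs σ x.1 ^ 2 * om1 u.1 v.1 + (gs σ x.1 * g' v.1) * om1 u.1 x.1 +
        (gs σ x.1 * g' u.1) * om1 x.1 v.1 := by
    unfold om1
    simp only [Complex.add_re, Complex.add_im, Complex.smul_re, Complex.smul_im, smul_eq_mul]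
    ring
  rw [h4, hg', hg']
  have h5 := om1_id x.1 u.1 v.1
  have h6 : gs σ x.1 ^ 2 = 1 + σ ^ 2 / ‖x.1‖ ^ 2 := by
    unfold gs
    rw [div_pow, rho_sq, Complex.normSq_eq_norm_sq]
    field_simp
  rw [h6]
  have h7 : σ ^ 2 / ‖x.1‖ ^ 4 * (ip x.1 v.1 * om1 u.1 x.1 + ip x.1 u.1 * om1 x.1 v.1) =
      σ ^ 2 / ‖x.1‖ ^ 2 * om1 u.1 v.1 := by
    rw [h5]
    field_simp
  linear_combination -h7

/-- the deformed map is symplectic -/
theorem Sx_symp {φ : SympCt (n + 1)} (hφ : Rot φ) (σ : ℝ) (x u v : ℂ × R2 n) :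
    om (fderiv ℝ (Sx φ σ) x u) (fderiv ℝ (Sx φ σ) x v) = om u v := by
  have hS : ∀ x, HasFDerivAt (Sx φ σ) (fderiv ℝ (Sx φ σ) x) x := fun x =>
    ((Sx_smooth hφ σ).contDiffAt.differentiableAt (by norm_num)).hasFDerivAt
  -- outside the fixed points
  have h1 : ∀ x : ℂ × R2 n, x.1 ≠ 0 →
      om (fderiv ℝ (Sx φ σ) x u) (fderiv ℝ (Sx φ σ) x v) = om u v := by
    intro x hx
    have hx' : (Sx φ σ x).1 ≠ 0 := by
      intro h
      have h2 : ‖(Sx φ σ x).1‖ = ‖x.1‖ := by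
        change ‖x.1 * Qm φ (rho σ x.1, x.2)‖ = _
        rw [norm_mul, hφ.norm_Qm, mul_one]
      rw [h, norm_zero] at h2
      exact hx (norm_eq_zero.1 h2.symm)
    obtain ⟨T', hT, hT'⟩ := shift_symp σ x hx
    obtain ⟨U', hU, hU'⟩ := shift_symp σ (Sx φ σ x) hx'
    have h3 := hU.comp x (hS x)
    have h4 := (E_hasFD φ ((gs σ x.1 : ℂ) * x.1, x.2)).comp x hT
    have h5 : (fun y : ℂ × R2 n => ((gs σ y.1 : ℂ) * y.1, y.2)) ∘ Sx φ σ =ᶠ[𝓝 x]
        E φ ∘ (fun y : ℂ × R2 n => ((gs σ y.1 : ℂ) * y.1, y.2)) := by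
      have hop : IsOpen {y : ℂ × R2 n | y.1 ≠ 0} := isOpen_ne_fun continuous_fst continuous_const
      filter_upwards [hop.mem_nhds hx] with y hy
      rw [Function.comp_apply, Function.comp_apply, hφ.E_eq]
      have e1 : gs σ (Sx φ σ y).1 = gs σ y.1 := by
        unfold gs
        rw [hφ.rho_Sx]
        congr 1
        change ‖y.1 * Qm φ (rho σ y.1, y.2)‖ = _
        rw [norm_mul, hφ.norm_Qm, mul_one]
      rw [e1]
      have hn : ‖y.1‖ ≠ 0 := norm_ne_zero_iff.2 hy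
      have e2 : ‖(gs σ y.1 : ℂ) * y.1‖ = rho σ y.1 := by
        have e3 : 0 ≤ gs σ y.1 := div_nonneg (rho_nonneg _ _) (norm_nonneg _)
        rw [norm_mul, Complex.norm_real, Real.norm_of_nonneg e3]
        unfold gs
        field_simp
      rw [e2]
      change ((gs σ y.1 : ℂ) * (y.1 * _), _) = _
      rw [mul_assoc]
      rfl
    have h6 := h3.unique (h4.congr_of_eventuallyEq h5)
    have h7 : ∀ a, U' (fderiv ℝ (Sx φ σ) x a) = fderiv ℝ (E φ) ((gs σ x.1 : ℂ) * x.1, x.2) (T' a) :=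
      fun a => DFunLike.congr_fun h6 a
    rw [← hU', h7, h7, E_symp, hT']
  have hc : Continuous (fderiv ℝ (Sx φ σ)) :=
    (Sx_smooth hφ σ).continuous_fderiv (by norm_num)
  have hom : Continuous (fun p : (ℂ × R2 n) × (ℂ × R2 n) => om p.1 p.2) := by
    unfold om om1 omega
    fun_prop
  have hcl : IsClosed {x : ℂ × R2 n |
      om (fderiv ℝ (Sx φ σ) x u) (fderiv ℝ (Sx φ σ) x v) = om u v} :=
    isClosed_eq (hom.comp ((hc.clm_apply continuous_const).prodMk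
      (hc.clm_apply continuous_const))) continuous_const
  have hd : Dense {x : ℂ × R2 n |
      om (fderiv ℝ (Sx φ σ) x u) (fderiv ℝ (Sx φ σ) x v) = om u v} := by
    have h2 : Dense {x : ℂ × R2 n | x.1 ≠ 0} := by
      have h3 : Dense ({(0 : ℂ)}ᶜ : Set ℂ) := dense_compl_singleton 0
      exact h3.preimage isOpenMap_fst
    exact h2.mono fun x hx => h1 x hx
  have h2 := hd.closure_eq
  rw [hcl.closure_eq] at h2
  have h4 : x ∈ {x : ℂ × R2 n |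
      om (fderiv ℝ (Sx φ σ) x u) (fderiv ℝ (Sx φ σ) x v) = om u v} := h2 ▸ Set.mem_univ x
  exact h4

end Pool.Agent.V5helper82.EQ
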