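import Mathlib
import Pool.Agent.V5helper82.EQ.Shift

/-!
# The contraction of the group of the rotation invariant symplectomorphisms
-/

set_option autoImplicit false
set_option maxHeartbeats 400000
set_option linter.unusedSectionVars false

open scoped ContDiff Topology

namespace Pool.Agent.V5helper82.EQ

open Pool.Agent.W71.EC Pool.Agent.W5h83.HG

variable {n : ℕ}

theorem Sx_inv_left {φ : SympCt (n + 1)} (hφ : Rot φ) (σ : ℝ) (x : ℂ × R2 n) :
    Sx (inv φ) σ (Sx φ σ x) = x := by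
  rw [Sx_comp hφ.inv hφ, inv_comp, Sx_one]

theorem Sx_inv_right {φ : SympCt (n + 1)} (hφ : Rot φ) (σ : ℝ) (x : ℂ × R2 n) :
    Sx φ σ (Sx (inv φ) σ x) = x := by
  rw [Sx_comp hφ hφ.inv, comp_inv, Sx_one]

theorem exists_ball' (φ : SympCt n) :
    ∃ m : ℕ, φ ∈ supportedIn (Metric.closedBall (0 : R2 n) m) := Pool.Agent.W5h83.HG.exists_ball φ

/-- points moved by the deformed map -/
theorem Sx_fix_of {φ : SympCt (n + 1)} (hφ : Rot φ) {U : Set (R2 (n + 1))}
    (hs : φ ∈ supportedIn U) (hU : ∀ (z z' : ℂ) (w : R2 n), (co n).symm (z, w) ∈ U →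
      ‖z'‖ ≤ ‖z‖ → (co n).symm (z', w) ∈ U) (σ : ℝ) (x : ℂ × R2 n)
    (hx : (co n).symm x ∉ U) : Sx φ σ x = x := by
  refine Sx_fix hφ σ x ?_
  unfold E
  rw [hs, ContinuousLinearEquiv.apply_symm_apply]
  intro hcon
  refine hx (hU _ x.1 x.2 hcon ?_)
  rw [Complex.norm_real, Real.norm_of_nonneg (rho_nonneg _ _)]
  exact le_rho σ x.1

theorem ball_disc (m : ℝ) (z z' : ℂ) (w : R2 n)
    (h : (co n).symm (z, w) ∈ {p : R2 (n + 1) | ‖(co n p).1‖ ≤ m ∧ ‖(co n p).2‖ ≤ m})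
    (hz : ‖z'‖ ≤ ‖z‖) :
    (co n).symm (z', w) ∈ {p : R2 (n + 1) | ‖(co n p).1‖ ≤ m ∧ ‖(co n p).2‖ ≤ m} := by
  simp only [Set.mem_ofPred_eq, ContinuousLinearEquiv.apply_symm_apply] at h ⊢
  exact ⟨hz.trans h.1, h.2⟩

/-- the deformed map as a symplectomorphism -/
noncomputable def sh (φ : SympCt (n + 1)) (hφ : Rot φ) (σ : ℝ) : SympCt (n + 1) where
  toEquiv := ((co n).toEquiv.trans ⟨Sx φ σ, Sx (inv φ) σ, Sx_inv_left hφ σ,
    Sx_inv_right hφ σ⟩).trans (co n).symm.toEquiv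
  smooth := (co n).symm.contDiff.comp ((Sx_smooth hφ σ).comp (co n).contDiff)
  smooth_symm := (co n).symm.contDiff.comp ((Sx_smooth hφ.inv σ).comp (co n).contDiff)
  symplectic p u v := by
    have h0 : HasFDerivAt (Sx φ σ) (fderiv ℝ (Sx φ σ) (co n p)) (co n p) :=
      ((Sx_smooth hφ σ).contDiffAt.differentiableAt (by norm_num)).hasFDerivAt
    have h1 : HasFDerivAt (fun p => (co n).symm (Sx φ σ (co n p)))
        ((((co n).symm : ℂ × R2 n →L[ℝ] R2 (n + 1)).comp (fderiv ℝ (Sx φ σ) (co n p))).comp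
          (co n : R2 (n + 1) →L[ℝ] ℂ × R2 n)) p :=
      ((co n).symm.hasFDerivAt.comp _ h0).comp p (co n).hasFDerivAt
    have h2 : (((co n).toEquiv.trans ⟨Sx φ σ, Sx (inv φ) σ, Sx_inv_left hφ σ,
      Sx_inv_right hφ σ⟩).trans (co n).symm.toEquiv : R2 (n + 1) → R2 (n + 1)) =
        fun p => (co n).symm (Sx φ σ (co n p)) := rfl
    rw [h2, h1.fderiv]
    change omega ((co n).symm (fderiv ℝ (Sx φ σ) (co n p) (co n u)))
      ((co n).symm (fderiv ℝ (Sx φ σ) (co n p) (co n v))) = _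
    rw [om_co_symm, Sx_symp hφ, ← omega_co]
  compact_support := by
    obtain ⟨m, hm⟩ := exists_ball' φ
    refine ⟨(co n).symm '' (Metric.closedBall (0 : ℂ × R2 n) m),
      (isCompact_closedBall _ _).image (co n).symm.continuous, fun p hp => ?_⟩
    change (co n).symm (Sx φ σ (co n p)) = p
    rw [ContinuousLinearEquiv.symm_apply_eq]
    refine Sx_fix hφ σ _ ?_
    unfold E
    rw [hm, ContinuousLinearEquiv.apply_symm_apply]
    rw [Metric.mem_closedBall, dist_zero_right]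
    intro hcon
    refine hp ⟨co n p, ?_, ContinuousLinearEquiv.symm_apply_apply _ _⟩
    rw [Metric.mem_closedBall, dist_zero_right, Prod.norm_def]
    refine max_le ?_ ?_
    · refine (le_rho σ _).trans ((le_abs_self _).trans ((norm_co_symm _ _).trans hcon))
    · refine le_trans ?_ hcon
      rw [co_symm_apply, Prod.norm_def, Prod.norm_def]
      have hc : ∀ (a : ℝ) (v : Fin n → ℝ), ‖v‖ ≤ ‖(Fin.cons a v : Fin (n + 1) → ℝ)‖ := by
        intro a v
        refine (pi_norm_le_iff_of_nonneg (norm_nonneg _)).2 fun i => ?_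
        have h3 : ‖(Fin.cons a v : Fin (n + 1) → ℝ) i.succ‖ ≤ _ :=
          norm_le_pi_norm (Fin.cons a v : Fin (n + 1) → ℝ) i.succ
        simpa using h3
      exact max_le_max (hc _ _) (hc _ _)

theorem E_sh {φ : SympCt (n + 1)} (hφ : Rot φ) (σ : ℝ) (x : ℂ × R2 n) :
    E (sh φ hφ σ) x = Sx φ σ x := by
  change co n ((co n).symm (Sx φ σ (co n ((co n).symm x)))) = _
  rw [ContinuousLinearEquiv.apply_symm_apply, ContinuousLinearEquiv.apply_symm_apply]

theorem ext_E {φ ψ : SympCt (n + 1)} (h : ∀ x, E φ x = E ψ x) : φ = ψ := by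
  refine SympCt.ext' fun p => ?_
  have h1 := h (co n p)
  unfold E at h1
  rw [ContinuousLinearEquiv.symm_apply_apply] at h1
  exact (co n).injective h1

theorem sh_zero {φ : SympCt (n + 1)} (hφ : Rot φ) : sh φ hφ 0 = φ :=
  ext_E fun x => by rw [E_sh, Sx_zero hφ]

theorem sh_one (σ : ℝ) (h : Rot (one : SympCt (n + 1))) : sh one h σ = one :=
  ext_E fun x => by rw [E_sh, Sx_one, E_one]

theorem sh_comp {φ ψ : SympCt (n + 1)} (hφ : Rot φ) (hψ : Rot ψ) (h : Rot (comp φ ψ)) (σ : ℝ) :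
    sh (comp φ ψ) h σ = comp (sh φ hφ σ) (sh ψ hψ σ) :=
  ext_E fun x => by rw [E_sh, E_comp, E_sh, E_sh, Sx_comp hφ hψ]

theorem sh_far {φ : SympCt (n + 1)} (hφ : Rot φ) {m : ℝ}
    (hs : φ ∈ supportedIn (Metric.closedBall (0 : R2 (n + 1)) m)) {σ : ℝ} (hσ : m < |σ|) :
    sh φ hφ σ = one := by
  refine ext_E fun x => ?_
  rw [E_sh, E_one]
  refine Sx_fix hφ σ x ?_
  unfold E
  rw [hs, ContinuousLinearEquiv.apply_symm_apply]
  rw [Metric.mem_closedBall, dist_zero_right]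
  intro hcon
  have h1 := (norm_co_symm (rho σ x.1) x.2).trans hcon
  have h2 := (abs_le_rho σ x.1).trans (le_abs_self _)
  linarith

theorem sh_supp {φ : SympCt (n + 1)} (hφ : Rot φ) {U : Set (R2 (n + 1))}
    (hs : φ ∈ supportedIn U) (hU : ∀ (z z' : ℂ) (w : R2 n), (co n).symm (z, w) ∈ U →
      ‖z'‖ ≤ ‖z‖ → (co n).symm (z', w) ∈ U) (σ : ℝ) : sh φ hφ σ ∈ supportedIn U := by
  intro p hp
  change (co n).symm (Sx φ σ (co n p)) = p
  rw [ContinuousLinearEquiv.symm_apply_eq]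
  exact Sx_fix_of hφ hs hU σ _ (by rwa [ContinuousLinearEquiv.symm_apply_apply])

theorem sh_JS {P : Type*} [TopologicalSpace P] {f : P → SympCt (n + 1)} (hf : JS f)
    (hR : ∀ p, Rot (f p)) : JS (fun q : P × ℝ => sh (f q.1) (hR q.1) q.2) := by
  refine JS.ofE fun k => ?_
  have h1 := Sx_JC hf hR k
  have h2 : (fun (q : P × ℝ) x => E (sh (f q.1) (hR q.1) q.2) x) =
      fun (q : P × ℝ) x => Sx (f q.1) q.2 x := by
    funext q x
    rw [E_sh]
  rw [h2]
  exact h1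

/-- maps which respect the splitting and are orthogonal in the first factor -/
def Split (h : R2 (n + 1) → R2 (n + 1)) : Prop :=
  ∃ (A : ℂ ≃ₗᵢ[ℝ] ℂ) (g : R2 n → R2 n), ∀ z w,
    h ((co n).symm (z, w)) = (co n).symm (A z, g w)

/-- commuting with a map -/
def Com (φ : SympCt (n + 1)) (h : R2 (n + 1) → R2 (n + 1)) : Prop :=
  ∀ p, φ.toEquiv (h p) = h (φ.toEquiv p)

theorem Com.E {φ : SympCt (n + 1)} {h : R2 (n + 1) → R2 (n + 1)} (hc : Com φ h)
    {A : ℂ ≃ₗᵢ[ℝ] ℂ} {g : R2 n → R2 n}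
    (hh : ∀ z w, h ((co n).symm (z, w)) = (co n).symm (A z, g w)) (z : ℂ) (w : R2 n) :
    EQ.E φ (A z, g w) = (A (EQ.E φ (z, w)).1, g (EQ.E φ (z, w)).2) := by
  have h1 := hc ((co n).symm (z, w))
  rw [hh] at h1
  have h2 : φ.toEquiv ((co n).symm (z, w)) = (co n).symm ((EQ.E φ (z, w)).1, (EQ.E φ (z, w)).2) := by
    unfold EQ.E
    rw [Prod.mk.eta, ContinuousLinearEquiv.symm_apply_apply]
  rw [h2, hh] at h1
  have h3 := congrArg (co n) h1
  rw [ContinuousLinearEquiv.apply_symm_apply] at h3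
  exact h3

theorem Com.ofE {φ : SympCt (n + 1)} {h : R2 (n + 1) → R2 (n + 1)}
    {A : ℂ ≃ₗᵢ[ℝ] ℂ} {g : R2 n → R2 n}
    (hh : ∀ z w, h ((co n).symm (z, w)) = (co n).symm (A z, g w))
    (h1 : ∀ z w, EQ.E φ (A z, g w) = (A (EQ.E φ (z, w)).1, g (EQ.E φ (z, w)).2)) : Com φ h := by
  intro p
  obtain ⟨⟨z, w⟩, rfl⟩ := (co n).symm.surjective p
  rw [hh]
  have h2 : φ.toEquiv ((co n).symm (z, w)) = (co n).symm ((EQ.E φ (z, w)).1, (EQ.E φ (z, w)).2) := by
    unfold EQ.E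
    rw [Prod.mk.eta, ContinuousLinearEquiv.symm_apply_apply]
  rw [h2, hh, ← h1]
  unfold EQ.E
  rw [ContinuousLinearEquiv.symm_apply_apply]

/-- isometries are complex linear or antilinear -/
theorem isom_mul (A : ℂ ≃ₗᵢ[ℝ] ℂ) : ∃ s : ℂ → ℂ, ∀ x y, A (x * y) = A x * s y := by
  obtain ⟨a, ha⟩ := linear_isometry_complex A
  rcases ha with rfl | rfl
  · exact ⟨id, fun x y => by simp [mul_assoc]⟩
  · exact ⟨starRingEnd ℂ, fun x y => by simp [mul_assoc]⟩

/-- the deformation respects the symmetries -/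
theorem sh_com {φ : SympCt (n + 1)} (hφ : Rot φ) {h : R2 (n + 1) → R2 (n + 1)} (hs : Split h)
    (hc : Com φ h) (σ : ℝ) : Com (sh φ hφ σ) h := by
  obtain ⟨A, g, hh⟩ := hs
  obtain ⟨s, hsA⟩ := isom_mul A
  refine Com.ofE hh fun z w => ?_
  rw [E_sh, E_sh]
  have h1 : ∀ r : ℝ, 0 ≤ r → Bm φ (r, g w) = g (Bm φ (r, w)) ∧
      (r ≠ 0 → Qm φ (r, g w) = s (Qm φ (r, w))) := by
    intro r hr
    have hr' : ‖(r : ℂ)‖ = r := by rw [Complex.norm_real, Real.norm_of_nonneg hr]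
    have h2 := hc.E hh (r : ℂ) w
    rw [hφ.E_eq, hφ.E_eq, LinearIsometryEquiv.norm_map, hr'] at h2
    refine ⟨congrArg Prod.snd h2, fun h0 => ?_⟩
    have h3 := congrArg Prod.fst h2
    simp only at h3
    rw [hsA] at h3
    have h4 : A (r : ℂ) ≠ 0 := by
      rw [Ne, LinearIsometryEquiv.map_eq_zero_iff]
      exact_mod_cast h0
    exact mul_left_cancel₀ h4 h3
  have h2 : rho σ (A z) = rho σ z := rho_congr σ (LinearIsometryEquiv.norm_map A z)
  have h3 := h1 (rho σ z) (rho_nonneg _ _)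
  refine Prod.ext ?_ ?_
  · change A z * Qm φ (rho σ (A z), g w) = A (z * Qm φ (rho σ z, w))
    rw [h2]
    rcases rho_pos_or σ z with h5 | h5
    · rw [h3.2 h5.ne', hsA]
    · rw [h5, map_zero, zero_mul, zero_mul, map_zero]
  · change Bm φ (rho σ (A z), g w) = g (Bm φ (rho σ z, w))
    rw [h2, h3.1]

/-- the rotations of the first coordinate -/
noncomputable def rt (n : ℕ) (u : ℂ) (p : R2 (n + 1)) : R2 (n + 1) :=
  (co n).symm (u * (co n p).1, (co n p).2)

theorem rot_of_com {φ : SympCt (n + 1)} (h : ∀ u : ℂ, ‖u‖ = 1 → Com φ (rt n u)) : Rot φ := by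
  intro u hu z w
  have h1 := h u hu ((co n).symm (z, w))
  unfold E
  unfold rt at h1
  rw [ContinuousLinearEquiv.apply_symm_apply] at h1
  rw [h1, ContinuousLinearEquiv.apply_symm_apply]

/-- maps commuting with all elements of a set commute with the elements of the closure for the
pointwise convergence -/
theorem com_closure {φ : SympCt (n + 1)} {S : Set (R2 (n + 1) → R2 (n + 1))}
    (h : ∀ g ∈ S, Com φ g) {g : R2 (n + 1) → R2 (n + 1)} (hg : g ∈ closure S) : Com φ g := by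
  have hcl : IsClosed {g : R2 (n + 1) → R2 (n + 1) | Com φ g} := by
    have : {g : R2 (n + 1) → R2 (n + 1) | Com φ g} =
        ⋂ p, {g | φ.toEquiv (g p) = g (φ.toEquiv p)} := by
      ext g
      simp [Com]
    rw [this]
    refine isClosed_iInter fun p => ?_
    exact isClosed_eq (φ.smooth.continuous.comp (continuous_apply p)) (continuous_apply _)
  exact closure_minimal (fun g hg => h g hg) hcl hg

end Pool.Agent.V5helper82.EQ
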