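import Mathlib
import Pool.Agent.V5helper82.EQ.Group

/-!
# The restriction of a rotation invariant symplectomorphism to the fixed points
-/

set_option autoImplicit false
set_option maxHeartbeats 400000
set_option linter.unusedSectionVars false

open scoped ContDiff Topology

namespace Pool.Agent.V5helper82.EQ

open Pool.Agent.W71.EC Pool.Agent.W5h83.HG

variable {n : ℕ}

theorem E_zero {φ : SympCt (n + 1)} (hφ : Rot φ) (w : R2 n) : E φ (0, w) = (0, (E φ (0, w)).2) := by
  refine Prod.ext ?_ rfl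
  have h1 := hφ.norm_eq (0, w)
  simpa using h1

/-- the restriction as a bijection -/
noncomputable def resE (φ : SympCt (n + 1)) (hφ : Rot φ) : R2 n ≃ R2 n where
  toFun w := (E φ (0, w)).2
  invFun w := (E (inv φ) (0, w)).2
  left_inv w := by
    have h1 := E_zero hφ w
    have h2 : E (inv φ) (E φ (0, w)) = (0, w) := by rw [← E_comp, inv_comp, E_one]
    rw [h1] at h2
    exact congrArg Prod.snd h2
  right_inv w := by
    have h1 := E_zero hφ.inv w
    have h2 : E φ (E (inv φ) (0, w)) = (0, w) := by rw [← E_comp, comp_inv, E_one]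
    rw [h1] at h2
    exact congrArg Prod.snd h2

theorem slice_smooth (φ : SympCt (n + 1)) : ContDiff ℝ ∞ (fun w : R2 n => (E φ (0, w)).2) :=
  contDiff_snd.comp ((E_smooth φ).comp (contDiff_const.prodMk contDiff_id))

theorem om_zero (u v : R2 n) : om ((0 : ℂ), u) ((0 : ℂ), v) = omega u v := by
  unfold om om1
  simp

/-- the restriction -/
noncomputable def res (φ : SympCt (n + 1)) (hφ : Rot φ) : SympCt n where
  toEquiv := resE φ hφ
  smooth := slice_smooth φ
  smooth_symm := slice_smooth (inv φ)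
  symplectic w u v := by
    have h1 : HasFDerivAt (fun w : R2 n => E φ (0, w))
        ((fderiv ℝ (E φ) (0, w)).comp (ContinuousLinearMap.inr ℝ ℂ (R2 n))) w :=
      (E_hasFD φ (0, w)).comp w (ContinuousLinearMap.inr ℝ ℂ (R2 n)).hasFDerivAt
    have h2 : (fun w : R2 n => E φ (0, w)) = fun w => ((0 : ℂ), (E φ (0, w)).2) := by
      funext w
      exact E_zero hφ w
    have h3 : HasFDerivAt (fun w : R2 n => (E φ (0, w)).2)
        ((ContinuousLinearMap.snd ℝ ℂ (R2 n)).comp
          ((fderiv ℝ (E φ) (0, w)).comp (ContinuousLinearMap.inr ℝ ℂ (R2 n)))) w :=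
      (ContinuousLinearMap.snd ℝ ℂ (R2 n)).hasFDerivAt.comp w h1
    have h4 : HasFDerivAt (fun w : R2 n => (E φ (0, w)).1)
        ((ContinuousLinearMap.fst ℝ ℂ (R2 n)).comp
          ((fderiv ℝ (E φ) (0, w)).comp (ContinuousLinearMap.inr ℝ ℂ (R2 n)))) w :=
      (ContinuousLinearMap.fst ℝ ℂ (R2 n)).hasFDerivAt.comp w h1
    have h5 : (fun w : R2 n => (E φ (0, w)).1) = fun _ => 0 := by
      funext w
      exact congrArg Prod.fst (E_zero hφ w)
    rw [h5] at h4
    have h6 := h4.unique (hasFDerivAt_const (0 : ℂ) w)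
    have h7 : ∀ a, fderiv ℝ (E φ) (0, w) (0, a) = (0, (fderiv ℝ (E φ) (0, w) (0, a)).2) := by
      intro a
      refine Prod.ext ?_ rfl
      exact DFunLike.congr_fun h6 a
    have h8 : ((resE φ hφ : R2 n ≃ R2 n) : R2 n → R2 n) = fun w : R2 n => (E φ (0, w)).2 := rfl
    rw [h8, h3.fderiv]
    change omega (fderiv ℝ (E φ) (0, w) (0, u)).2 (fderiv ℝ (E φ) (0, w) (0, v)).2 = _
    rw [← om_zero, ← h7, ← h7, E_symp, om_zero]
  compact_support := by
    obtain ⟨K, hK, h⟩ := φ.compact_support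
    refine ⟨(fun p => (co n p).2) '' K, hK.image (continuous_snd.comp (co n).continuous),
      fun w hw => ?_⟩
    change (E φ (0, w)).2 = w
    unfold E
    rw [h, ContinuousLinearEquiv.apply_symm_apply]
    intro hK'
    refine hw ⟨_, hK', ?_⟩
    simp only [ContinuousLinearEquiv.apply_symm_apply]

theorem res_apply (φ : SympCt (n + 1)) (hφ : Rot φ) (w : R2 n) :
    (res φ hφ).toEquiv w = (E φ (0, w)).2 := rfl

theorem res_JS {P : Type*} [TopologicalSpace P] {f : P → SympCt (n + 1)} (hf : JS f)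
    (hR : ∀ p, Rot (f p)) : JS (fun p => res (f p) (hR p)) := by
  intro k
  exact postLin (ContinuousLinearMap.snd ℝ ℂ (R2 n))
    (preLin (ContinuousLinearMap.inr ℝ ℂ (R2 n)) (JS.E hf k))

theorem res_supp {φ : SympCt (n + 1)} (hφ : Rot φ) {m : ℝ}
    (hs : φ ∈ supportedIn (Metric.closedBall (0 : R2 (n + 1)) m)) :
    res φ hφ ∈ supportedIn (Metric.closedBall (0 : R2 n) m) := by
  intro w hw
  rw [res_apply]
  unfold E
  rw [hs, ContinuousLinearEquiv.apply_symm_apply]
  intro h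
  refine hw ?_
  rw [Metric.mem_closedBall, dist_zero_right] at h ⊢
  refine le_trans ?_ h
  rw [co_symm_apply, Prod.norm_def, Prod.norm_def]
  have hc : ∀ (a : ℝ) (v : Fin n → ℝ), ‖v‖ ≤ ‖(Fin.cons a v : Fin (n + 1) → ℝ)‖ := by
    intro a v
    refine (pi_norm_le_iff_of_nonneg (norm_nonneg _)).2 fun i => ?_
    have h3 : ‖(Fin.cons a v : Fin (n + 1) → ℝ) i.succ‖ ≤ _ :=
      norm_le_pi_norm (Fin.cons a v : Fin (n + 1) → ℝ) i.succ
    simpa using h3
  exact max_le_max (hc _ _) (hc _ _)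

theorem sh_rot {φ : SympCt (n + 1)} (hφ : Rot φ) (σ : ℝ) : Rot (sh φ hφ σ) := by
  intro u hu z w
  rw [E_sh, E_sh]
  have h1 : rho σ (u * z) = rho σ z := rho_congr σ (by rw [norm_mul, hu, one_mul])
  refine Prod.ext ?_ ?_
  · change u * z * Qm φ (rho σ (u * z), w) = u * (z * Qm φ (rho σ z, w))
    rw [h1, mul_assoc]
  · change Bm φ (rho σ (u * z), w) = Bm φ (rho σ z, w)
    rw [h1]

/-- a bounded set which is a union of discs -/
def Bx (n : ℕ) (m : ℝ) : Set (R2 (n + 1)) := {p | ‖(co n p).1‖ ≤ m ∧ ‖(co n p).2‖ ≤ m}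

theorem supp_Bx {φ : SympCt (n + 1)} {m : ℝ} (hm : 0 ≤ m)
    (hs : φ ∈ supportedIn (Metric.closedBall (0 : R2 (n + 1)) m)) :
    φ ∈ supportedIn (Bx n (2 * m)) := by
  refine fun p hp => hs p fun hpm => hp ?_
  rw [Metric.mem_closedBall, dist_zero_right] at hpm
  have e1 : ‖p.1‖ ≤ m := (le_max_left _ _).trans hpm
  have e2 : ‖p.2‖ ≤ m := (le_max_right _ _).trans hpm
  have e3 : ∀ (v : Fin (n + 1) → ℝ), ‖Fin.tail v‖ ≤ ‖v‖ := fun v =>
    (pi_norm_le_iff_of_nonneg (norm_nonneg _)).2 fun i => norm_le_pi_norm v i.succ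
  constructor
  · change ‖(⟨p.1 0, p.2 0⟩ : ℂ)‖ ≤ 2 * m
    refine (Complex.norm_le_abs_re_add_abs_im _).trans ?_
    have f1 : |p.1 0| ≤ ‖p.1‖ := norm_le_pi_norm p.1 0
    have f2 : |p.2 0| ≤ ‖p.2‖ := norm_le_pi_norm p.2 0
    simp only
    linarith
  · change ‖(Fin.tail p.1, Fin.tail p.2)‖ ≤ 2 * m
    rw [Prod.norm_def]
    exact max_le (by linarith [e3 p.1]) (by linarith [e3 p.2])

theorem Bx_ball {m : ℝ} : Bx n m ⊆ Metric.closedBall (0 : R2 (n + 1)) m := by
  intro p hp
  rw [Metric.mem_closedBall, dist_zero_right]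
  obtain ⟨h1, h2⟩ := hp
  have hc : ∀ v : Fin (n + 1) → ℝ, |v 0| ≤ m → ‖Fin.tail v‖ ≤ m → ‖v‖ ≤ m := by
    intro v h3 h4
    have hm : 0 ≤ m := (norm_nonneg _).trans h1
    refine (pi_norm_le_iff_of_nonneg hm).2 fun i => ?_
    refine Fin.cases ?_ (fun j => ?_) i
    · exact h3
    · exact (norm_le_pi_norm (Fin.tail v) j).trans h4
  have e1 : |p.1 0| ≤ m := (Complex.abs_re_le_norm (co n p).1).trans h1
  have e2 : |p.2 0| ≤ m := (Complex.abs_im_le_norm (co n p).1).trans h1
  have e3 : ‖Fin.tail p.1‖ ≤ m := (le_max_left _ _).trans h2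
  have e4 : ‖Fin.tail p.2‖ ≤ m := (le_max_right _ _).trans h2
  exact max_le (hc _ e1 e3) (hc _ e2 e4)

/-- **The restriction is isotopic to the identity.** -/
theorem res_joined {φ : SympCt (n + 1)} (hφ : Rot φ) : Joined one (res φ hφ) := by
  obtain ⟨m, hm⟩ := exists_ball' φ
  have hm0 : (0 : ℝ) ≤ m := m.cast_nonneg
  let γ : ℝ → SympCt n := fun t => res (sh φ hφ ((m + 1) * t)) (sh_rot hφ _)
  have hJ : JS γ := by
    have h1 := sh_JS (P := Unit) (JS.const φ) (fun _ => hφ)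
    have h2 : JS (fun t : ℝ => sh φ hφ ((m + 1) * t)) := by
      intro k
      exact (h1 k).param (a := fun t : ℝ => ((), ((m : ℝ) + 1) * t))
        (continuous_const.prodMk (continuous_const.mul continuous_id))
    exact res_JS h2 _
  have hc : Continuous γ := by
    refine hJ.continuous (Metric.closedBall (0 : R2 n) (2 * m)) (isCompact_closedBall _ _) ?_
    intro t
    refine res_supp _ (Pool.Agent.W5h83.HG.supp_mono Bx_ball ?_)
    refine sh_supp hφ (supp_Bx hm0 hm) ?_ _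
    intro z z' w h hz
    simp only [Bx, Set.mem_ofPred_eq, ContinuousLinearEquiv.apply_symm_apply] at h ⊢
    exact ⟨hz.trans h.1, h.2⟩
  have h0 : γ 0 = res φ hφ := by
    refine SympCt.ext' fun w => ?_
    change (E (sh φ hφ ((m + 1) * 0)) (0, w)).2 = (E φ (0, w)).2
    rw [mul_zero, sh_zero]
  have h1 : γ 1 = one := by
    refine SympCt.ext' fun w => ?_
    change (E (sh φ hφ ((m + 1) * 1)) (0, w)).2 = w
    rw [mul_one, sh_far hφ hm (by rw [abs_of_nonneg (by linarith)]; linarith), E_one]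
  have h2 := joined_of_path γ hc
  rw [h0, h1] at h2
  exact h2.symm

end Pool.Agent.V5helper82.EQ
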