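import Mathlib
import Pool.Agent.V5helper82.EQ.Res
import Pool.Agent.V5helper82.EQ.Pot

/-!
# Rotation invariant extensions
-/

set_option autoImplicit false
set_option maxHeartbeats 400000
set_option linter.unusedSectionVars false

open scoped ContDiff Topology

namespace Pool.Agent.V5helper82.EQ

open Pool.Agent.W71.EC Pool.Agent.W5h83.HG

variable {n : ℕ}

/-- the cut-off: `1` at `0` and `0` on `[1, ∞)` -/
noncomputable def cu (s : ℝ) : ℝ := ta (1 - s)

theorem cu_smooth : ContDiff ℝ ∞ cu := ta_smooth.comp (contDiff_const.sub contDiff_id)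

theorem cu'_smooth : ContDiff ℝ ∞ (_root_.deriv cu) := by
  have h := cu_smooth
  rw [contDiff_infty_iff_deriv] at h
  exact h.2

theorem cu_far {s : ℝ} (h : 1 ≤ s) : cu s = 0 := by
  unfold cu ta
  exact Real.smoothTransition.zero_of_nonpos (by linarith)

theorem cu'_far {s : ℝ} (h : 1 < s) : _root_.deriv cu s = 0 := by
  have h1 : cu =ᶠ[𝓝 s] fun _ => 0 := by
    filter_upwards [lt_mem_nhds h] with t ht
    exact cu_far ht.le
  rw [h1.deriv_eq, deriv_const]

/-- half of the squared norm -/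
noncomputable def hs (z : ℂ) : ℝ := Complex.normSq z / 2

theorem hs_deriv (z : ℂ) : HasFDerivAt hs (ip z) z := by
  have h2 : hs = fun z => (1 / 2 : ℝ) * ‖z‖ ^ 2 := by
    funext z
    unfold hs
    rw [Complex.normSq_eq_norm_sq]
    ring
  have h3 := ((hasStrictFDerivAt_norm_sq (F := ℂ) z).hasFDerivAt).const_mul (1 / 2 : ℝ)
  rw [h2]
  refine HasFDerivAt.congr_fderiv (f := fun z : ℂ => (1 / 2 : ℝ) * ‖z‖ ^ 2) h3 ?_
  refine ContinuousLinearMap.ext fun v => ?_
  change (1 / 2 : ℝ) * ((2 : ℕ) • (innerSL ℝ z v : ℝ)) = ip z v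
  unfold ip
  rw [nsmul_eq_mul]
  push_cast
  ring

theorem hs_smooth : ContDiff ℝ ∞ hs := by
  have h2 : hs = fun z => (1 / 2 : ℝ) * ‖z‖ ^ 2 := by
    funext z
    unfold hs
    rw [Complex.normSq_eq_norm_sq]
    ring
  rw [h2]
  exact contDiff_const.mul (contDiff_norm_sq ℝ)

theorem comp_hs_deriv {f : ℝ → ℝ} (hf : ContDiff ℝ ∞ f) (z : ℂ) :
    HasFDerivAt (fun z => f (hs z)) ((_root_.deriv f (hs z)) • ip z) z := by
  have h1 : HasDerivAt f (_root_.deriv f (hs z)) (hs z) :=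
    (hf.contDiffAt.differentiableAt (by norm_num)).hasDerivAt
  exact h1.comp_hasFDerivAt z (hs_deriv z)

section

variable {X : R2 n → R2 n} {K : Set (R2 n)} (h : CD (0 : R2 n →L[ℝ] R2 n) X K) (F : R2 n → ℝ)

/-- the first family -/
noncomputable def Pt (s : ℝ) : R2 n ≃ R2 n := per h.good (ta (1 - s)) (ta_mem _)

/-- the second family -/
noncomputable def Qt (s : ℝ) : R2 n ≃ R2 n := per h.goodQ (ta (1 - s)) (ta_mem _)

theorem Pt_apply (s : ℝ) (q : R2 n) : Pt h s q = q - cu s • ((1 / 2 : ℝ) • X q) := by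
  unfold Pt
  rw [per_apply, RR_apply]
  simp [cu]

theorem Qt_apply (s : ℝ) (q : R2 n) : Qt h s q = q + cu s • ((1 / 2 : ℝ) • X q) := by
  unfold Qt
  rw [per_apply, RQ_apply, RR_apply]
  simp only [zero_apply, add_zero, cu]
  module

/-- the phase -/
noncomputable def ph (c : ℝ) (z : ℂ) (q : R2 n) : ℂ :=
  Complex.exp ((c * (_root_.deriv cu (hs z) * F q) : ℝ) * Complex.I)

theorem norm_ph (c : ℝ) (z : ℂ) (q : R2 n) : ‖ph F c z q‖ = 1 :=
  Complex.norm_exp_ofReal_mul_I _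

theorem hs_mul {u : ℂ} (hu : ‖u‖ = 1) (z : ℂ) : hs (z * u) = hs z := by
  unfold hs
  rw [Complex.normSq_mul, Complex.normSq_eq_norm_sq u, hu]
  ring

/-- the extension in the coordinates -/
noncomputable def ex (x : ℂ × R2 n) : ℂ × R2 n :=
  (x.1 * ph F (-1) x.1 ((Pt h (hs x.1)).symm x.2), Qt h (hs x.1) ((Pt h (hs x.1)).symm x.2))

/-- its inverse -/
noncomputable def ei (x : ℂ × R2 n) : ℂ × R2 n :=
  (x.1 * ph F 1 x.1 ((Qt h (hs x.1)).symm x.2), Pt h (hs x.1) ((Qt h (hs x.1)).symm x.2))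

theorem ph_mul (z : ℂ) (q : R2 n) : ph F (-1) z q * ph F 1 z q = 1 := by
  unfold ph
  rw [← Complex.exp_add, ← add_mul, ← Complex.ofReal_add]
  simp

theorem ph_congr (c : ℝ) {z z' : ℂ} (hz : hs z = hs z') (q : R2 n) : ph F c z q = ph F c z' q := by
  unfold ph
  rw [hz]

theorem ei_ex (x : ℂ × R2 n) : ei h F (ex h F x) = x := by
  obtain ⟨z, w⟩ := x
  have h1 : hs (ex h F (z, w)).1 = hs z := hs_mul (norm_ph F _ _ _) z
  have h2 : (Qt h (hs z)).symm (ex h F (z, w)).2 = (Pt h (hs z)).symm w := by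
    rw [Equiv.symm_apply_eq]
    rfl
  unfold ei
  rw [h1, h2, ph_congr F 1 h1, Equiv.apply_symm_apply]
  refine Prod.ext ?_ rfl
  change z * ph F (-1) z ((Pt h (hs z)).symm w) * ph F 1 z ((Pt h (hs z)).symm w) = z
  rw [mul_assoc, ph_mul, mul_one]

theorem ex_ei (x : ℂ × R2 n) : ex h F (ei h F x) = x := by
  obtain ⟨z, w⟩ := x
  have h1 : hs (ei h F (z, w)).1 = hs z := hs_mul (norm_ph F _ _ _) z
  have h2 : (Pt h (hs z)).symm (ei h F (z, w)).2 = (Qt h (hs z)).symm w := by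
    rw [Equiv.symm_apply_eq]
    rfl
  unfold ex
  rw [h1, h2, ph_congr F (-1) h1, Equiv.apply_symm_apply]
  refine Prod.ext ?_ rfl
  change z * ph F 1 z ((Qt h (hs z)).symm w) * ph F (-1) z ((Qt h (hs z)).symm w) = z
  rw [mul_assoc, mul_comm (ph F 1 _ _), ph_mul, mul_one]

theorem Pt_symm_smooth : ContDiff ℝ ∞ (fun x : ℂ × R2 n => (Pt h (hs x.1)).symm x.2) := by
  have h1 : (fun x : ℂ × R2 n => (Pt h (hs x.1)).symm x.2) =
      fun x => ((bigPer h.good).symm (1 - hs x.1, x.2)).2 := rfl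
  rw [h1]
  exact contDiff_snd.comp ((bigPer_symm_smooth h.good).comp
    ((contDiff_const.sub (hs_smooth.comp contDiff_fst)).prodMk contDiff_snd))

theorem Qt_symm_smooth : ContDiff ℝ ∞ (fun x : ℂ × R2 n => (Qt h (hs x.1)).symm x.2) := by
  have h1 : (fun x : ℂ × R2 n => (Qt h (hs x.1)).symm x.2) =
      fun x => ((bigPer h.goodQ).symm (1 - hs x.1, x.2)).2 := rfl
  rw [h1]
  exact contDiff_snd.comp ((bigPer_symm_smooth h.goodQ).comp
    ((contDiff_const.sub (hs_smooth.comp contDiff_fst)).prodMk contDiff_snd))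

variable {F} (hF : ContDiff ℝ ∞ F)

include hF in
theorem ph_smooth (c : ℝ) : ContDiff ℝ ∞ (fun x : ℂ × R2 n => ph F c x.1 x.2) := by
  unfold ph
  refine Complex.contDiff_exp.comp (ContDiff.mul ?_ contDiff_const)
  refine Complex.ofRealCLM.contDiff.comp (contDiff_const.mul (ContDiff.mul ?_ ?_))
  · exact cu'_smooth.comp (hs_smooth.comp contDiff_fst)
  · exact hF.comp contDiff_snd

/-- the first map -/
noncomputable def mP (X : R2 n → R2 n) (x : ℂ × R2 n) : ℂ × R2 n :=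
  (x.1, x.2 - cu (hs x.1) • ((1 / 2 : ℝ) • X x.2))

/-- the second map -/
noncomputable def mQ (X : R2 n → R2 n) (F : R2 n → ℝ) (x : ℂ × R2 n) : ℂ × R2 n :=
  (x.1 * ph F (-1) x.1 x.2, x.2 + cu (hs x.1) • ((1 / 2 : ℝ) • X x.2))

theorem mP_smooth (hX : ContDiff ℝ ∞ X) : ContDiff ℝ ∞ (mP X) := by
  have hX' : ContDiff ℝ ∞ (fun x : ℂ × R2 n => (1 / 2 : ℝ) • X x.2) :=
    ContDiff.const_smul (1 / 2 : ℝ) (hX.comp contDiff_snd)
  exact contDiff_fst.prodMk (contDiff_snd.sub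
    ((cu_smooth.comp (hs_smooth.comp contDiff_fst)).smul hX'))

include hF in
theorem mQ_smooth (hX : ContDiff ℝ ∞ X) : ContDiff ℝ ∞ (mQ X F) := by
  have hX' : ContDiff ℝ ∞ (fun x : ℂ × R2 n => (1 / 2 : ℝ) • X x.2) :=
    ContDiff.const_smul (1 / 2 : ℝ) (hX.comp contDiff_snd)
  exact (contDiff_fst.mul (ph_smooth hF (-1))).prodMk
    (contDiff_snd.add ((cu_smooth.comp (hs_smooth.comp contDiff_fst)).smul hX'))

theorem ex_eq (x : ℂ × R2 n) : ex h F x = mQ X F (x.1, (Pt h (hs x.1)).symm x.2) := by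
  unfold ex mQ
  rw [Qt_apply]

include hF in
theorem ex_smooth : ContDiff ℝ ∞ (ex h F) := by
  have : ex h F = fun x => mQ X F (x.1, (Pt h (hs x.1)).symm x.2) := by
    funext x
    exact ex_eq h x
  rw [this]
  exact (mQ_smooth hF h.smooth).comp (contDiff_fst.prodMk (Pt_symm_smooth h))

include hF in
theorem ei_smooth : ContDiff ℝ ∞ (ei h F) := by
  have : ei h F = fun x => ((x.1 * ph F 1 x.1 ((Qt h (hs x.1)).symm x.2),
      (mP X (x.1, (Qt h (hs x.1)).symm x.2)).2) : ℂ × R2 n) := by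
    funext x
    unfold ei mP
    rw [Pt_apply]
  rw [this]
  have h1 : ContDiff ℝ ∞ (fun x : ℂ × R2 n => ((x.1, (Qt h (hs x.1)).symm x.2) : ℂ × R2 n)) :=
    contDiff_fst.prodMk (Qt_symm_smooth h)
  exact (contDiff_fst.mul ((ph_smooth hF 1).comp h1)).prodMk
    (contDiff_snd.comp ((mP_smooth h.smooth).comp h1))

/-- the derivative of the first map -/
theorem mP_deriv (hX : ContDiff ℝ ∞ X) (x a : ℂ × R2 n) : fderiv ℝ (mP X) x a =
    (a.1, a.2 - (1 / 2 : ℝ) • ((_root_.deriv cu (hs x.1) * ip x.1 a.1) • X x.2 +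
      cu (hs x.1) • fderiv ℝ X x.2 a.2)) := by
  have h1 : HasFDerivAt (fun x : ℂ × R2 n => cu (hs x.1))
      (((_root_.deriv cu (hs x.1)) • ip x.1).comp (ContinuousLinearMap.fst ℝ ℂ (R2 n))) x :=
    HasFDerivAt.comp (g := fun z => cu (hs z)) x (comp_hs_deriv cu_smooth x.1)
      (hasFDerivAt_fst (p := x))
  have h2 : HasFDerivAt (fun x : ℂ × R2 n => X x.2)
      ((fderiv ℝ X x.2).comp (ContinuousLinearMap.snd ℝ ℂ (R2 n))) x :=
    HasFDerivAt.comp (g := X) x (hX.contDiffAt.differentiableAt (by norm_num)).hasFDerivAt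
      (hasFDerivAt_snd (p := x))
  have h3 := (hasFDerivAt_fst (𝕜 := ℝ) (p := x)).prodMk ((hasFDerivAt_snd (𝕜 := ℝ) (p := x)).sub
    (h1.smul (h2.const_smul (1 / 2 : ℝ))))
  have h4 : mP X = fun x : ℂ × R2 n => (x.1, x.2 - cu (hs x.1) • ((1 / 2 : ℝ) • X x.2)) := rfl
  rw [h4, HasFDerivAt.fderiv (f := fun x : ℂ × R2 n =>
    (x.1, x.2 - cu (hs x.1) • ((1 / 2 : ℝ) • X x.2))) h3]
  refine Prod.ext rfl ?_
  change a.2 - (cu (hs x.1) • ((1 / 2 : ℝ) • fderiv ℝ X x.2 a.2) +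
    (_root_.deriv cu (hs x.1) * ip x.1 a.1) • ((1 / 2 : ℝ) • X x.2)) = _
  simp only
  module

include hF in
/-- the derivative of the second map -/
theorem mQ_deriv (hX : ContDiff ℝ ∞ X) (x a : ℂ × R2 n) : fderiv ℝ (mQ X F) x a =
    (ph F (-1) x.1 x.2 * (a.1 - (_root_.deriv cu (hs x.1) * fderiv ℝ F x.2 a.2 +
        F x.2 * (_root_.deriv (_root_.deriv cu) (hs x.1) * ip x.1 a.1)) • (Complex.I * x.1)),
      a.2 + (1 / 2 : ℝ) • ((_root_.deriv cu (hs x.1) * ip x.1 a.1) • X x.2 +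
      cu (hs x.1) • fderiv ℝ X x.2 a.2)) := by
  have h1 : HasFDerivAt (fun x : ℂ × R2 n => cu (hs x.1))
      (((_root_.deriv cu (hs x.1)) • ip x.1).comp (ContinuousLinearMap.fst ℝ ℂ (R2 n))) x :=
    HasFDerivAt.comp (g := fun z => cu (hs z)) x (comp_hs_deriv cu_smooth x.1)
      (hasFDerivAt_fst (p := x))
  have h1' : HasFDerivAt (fun x : ℂ × R2 n => _root_.deriv cu (hs x.1))
      (((_root_.deriv (_root_.deriv cu) (hs x.1)) • ip x.1).comp
        (ContinuousLinearMap.fst ℝ ℂ (R2 n))) x :=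
    HasFDerivAt.comp (g := fun z => _root_.deriv cu (hs z)) x (comp_hs_deriv cu'_smooth x.1)
      (hasFDerivAt_fst (p := x))
  have h2 : HasFDerivAt (fun x : ℂ × R2 n => X x.2)
      ((fderiv ℝ X x.2).comp (ContinuousLinearMap.snd ℝ ℂ (R2 n))) x :=
    HasFDerivAt.comp (g := X) x (hX.contDiffAt.differentiableAt (by norm_num)).hasFDerivAt
      (hasFDerivAt_snd (p := x))
  have h2' : HasFDerivAt (fun x : ℂ × R2 n => F x.2)
      ((fderiv ℝ F x.2).comp (ContinuousLinearMap.snd ℝ ℂ (R2 n))) x :=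
    HasFDerivAt.comp (g := F) x (hF.contDiffAt.differentiableAt (by norm_num)).hasFDerivAt
      (hasFDerivAt_snd (p := x))
  have h5 := (h1'.mul h2').const_mul (-1 : ℝ)
  have h6 := (Complex.ofRealCLM.hasFDerivAt.comp x h5).mul_const Complex.I
  have h7 := h6.cexp
  have h8 : HasFDerivAt (fun x : ℂ × R2 n => ph F (-1) x.1 x.2) _ x := h7
  have h9 := (hasFDerivAt_fst (𝕜 := ℝ) (p := x)).mul h8
  have h10 := h9.prodMk ((hasFDerivAt_snd (𝕜 := ℝ) (p := x)).add
    (h1.smul (h2.const_smul (1 / 2 : ℝ))))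
  have h4 : mQ X F = fun x : ℂ × R2 n =>
    (x.1 * ph F (-1) x.1 x.2, x.2 + cu (hs x.1) • ((1 / 2 : ℝ) • X x.2)) := rfl
  rw [h4, HasFDerivAt.fderiv (f := fun x : ℂ × R2 n =>
    (x.1 * ph F (-1) x.1 x.2, x.2 + cu (hs x.1) • ((1 / 2 : ℝ) • X x.2))) h10]
  refine Prod.ext ?_ ?_
  · change x.1 * (ph F (-1) x.1 x.2 * (Complex.I * (((-1 : ℝ) * (_root_.deriv cu (hs x.1) *
      fderiv ℝ F x.2 a.2 + F x.2 * (_root_.deriv (_root_.deriv cu) (hs x.1) *
        ip x.1 a.1)) : ℝ) : ℂ))) + ph F (-1) x.1 x.2 * a.1 = _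
    simp only [Complex.real_smul]
    push_cast
    ring
  · change a.2 + (cu (hs x.1) • ((1 / 2 : ℝ) • fderiv ℝ X x.2 a.2) +
      (_root_.deriv cu (hs x.1) * ip x.1 a.1) • ((1 / 2 : ℝ) • X x.2)) = _
    simp only
    module

theorem om1_unit {u : ℂ} (hu : ‖u‖ = 1) (a b : ℂ) : om1 (u * a) (u * b) = om1 a b := by
  have h1 : u.re * u.re + u.im * u.im = 1 := by
    rw [← Complex.normSq_apply, Complex.normSq_eq_norm_sq, hu]
    norm_num
  unfold om1
  simp only [Complex.mul_re, Complex.mul_im]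
  linear_combination (a.re * b.im - a.im * b.re) * h1

theorem om1_twist (z a b : ℂ) (s t : ℝ) :
    om1 (a - s • (Complex.I * z)) (b - t • (Complex.I * z)) =
      om1 a b - t * ip z a + s * ip z b := by
  rw [ip_apply, ip_apply]
  unfold om1
  simp only [Complex.sub_re, Complex.sub_im, Complex.smul_re, Complex.smul_im, Complex.mul_re,
    Complex.mul_im, Complex.I_re, Complex.I_im, smul_eq_mul]
  ring

include hF in
/-- **the two maps pull back the same form** -/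
theorem pull_eq (hX : ContDiff ℝ ∞ X) (hsp : IsSp X)
    (hdF : ∀ q v, fderiv ℝ F q v = omega (X q) v) (x a b : ℂ × R2 n) :
    om (fderiv ℝ (mQ X F) x a) (fderiv ℝ (mQ X F) x b) =
      om (fderiv ℝ (mP X) x a) (fderiv ℝ (mP X) x b) := by
  rw [mQ_deriv hF hX, mQ_deriv hF hX, mP_deriv hX, mP_deriv hX]
  unfold om
  simp only
  rw [om1_unit (norm_ph F _ _ _), om1_twist, hdF, hdF]
  have e1 := hsp x.2 a.2 b.2
  have e2 : omega a.2 (X x.2) = - omega (X x.2) a.2 := by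
    unfold omega
    rw [← Finset.sum_neg_distrib]
    refine Finset.sum_congr rfl fun i _ => ?_
    ring
  simp only [omega_add_left, omega_add_right, omega_sub_left, omega_sub_right, omega_smul_left,
    omega_smul_right]
  linear_combination cu (hs x.1) * e1 + (_root_.deriv cu (hs x.1) * ip x.1 b.1) * e2

include hF in
theorem ex_symp (hX : ContDiff ℝ ∞ X) (hsp : IsSp X)
    (hdF : ∀ q v, fderiv ℝ F q v = omega (X q) v) (x u v : ℂ × R2 n) :
    om (fderiv ℝ (ex h F) x u) (fderiv ℝ (ex h F) x v) = om u v := by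
  let R : ℂ × R2 n → ℂ × R2 n := fun x => (x.1, (Pt h (hs x.1)).symm x.2)
  have hR : ContDiff ℝ ∞ R := contDiff_fst.prodMk (Pt_symm_smooth h)
  have hRd : HasFDerivAt R (fderiv ℝ R x) x :=
    (hR.contDiffAt.differentiableAt (by norm_num)).hasFDerivAt
  have hPd : HasFDerivAt (mP X) (fderiv ℝ (mP X) (R x)) (R x) :=
    ((mP_smooth hX).contDiffAt.differentiableAt (by norm_num)).hasFDerivAt
  have hQd : HasFDerivAt (mQ X F) (fderiv ℝ (mQ X F) (R x)) (R x) :=
    ((mQ_smooth hF hX).contDiffAt.differentiableAt (by norm_num)).hasFDerivAt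
  have h1 : mP X ∘ R = id := by
    funext y
    refine Prod.ext rfl ?_
    change (Pt h (hs y.1)).symm y.2 - cu (hs y.1) • ((1 / 2 : ℝ) •
      X ((Pt h (hs y.1)).symm y.2)) = y.2
    rw [← Pt_apply h, Equiv.apply_symm_apply]
  have h2 : mQ X F ∘ R = ex h F := by
    funext y
    exact (ex_eq h y).symm
  have h3 := hPd.comp x hRd
  rw [h1] at h3
  have h4 := h3.unique (hasFDerivAt_id x)
  have h5 := hQd.comp x hRd
  rw [h2] at h5
  rw [h5.fderiv]
  change om (fderiv ℝ (mQ X F) (R x) (fderiv ℝ R x u)) (fderiv ℝ (mQ X F) (R x)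
    (fderiv ℝ R x v)) = _
  rw [pull_eq hF hX hsp hdF]
  have h6 : ∀ a, fderiv ℝ (mP X) (R x) (fderiv ℝ R x a) = a := fun a => DFunLike.congr_fun h4 a
  rw [h6, h6]

theorem ex_fix {L : Set (R2 n)} (hL : ∀ q, q ∉ L → F q = 0) (x : ℂ × R2 n)
    (hx : 1 < hs x.1 ∨ (x.2 ∉ K ∧ x.2 ∉ L)) : ex h F x = x := by
  obtain ⟨z, w⟩ := x
  rcases hx with hx | ⟨hx1, hx2⟩
  · have h1 : cu (hs z) = 0 := cu_far (le_of_lt hx)
    have h2 : (Pt h (hs z)).symm w = w := by
      rw [Equiv.symm_apply_eq, Pt_apply, h1, zero_smul, sub_zero]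
    have h3 : ph F (-1) z w = 1 := by
      unfold ph
      rw [cu'_far hx]
      simp
    unfold ex
    simp only
    rw [h2, h3, Qt_apply, h1, zero_smul, add_zero, mul_one]
  · have h2 : (Pt h (hs z)).symm w = w := by
      rw [Equiv.symm_apply_eq, Pt_apply, h.out w hx1, smul_zero, smul_zero, sub_zero]
    have h3 : ph F (-1) z w = 1 := by
      unfold ph
      rw [hL w hx2]
      simp
    unfold ex
    simp only
    rw [h2, h3, Qt_apply, h.out w hx1, smul_zero, smul_zero, add_zero, mul_one]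

/-- the extension as a symplectomorphism -/
noncomputable def exS (hF : ContDiff ℝ ∞ F) (hdF : ∀ q v, fderiv ℝ F q v = omega (X q) v)
    {L : Set (R2 n)} (hLc : IsCompact L) (hL : ∀ q, q ∉ L → F q = 0) : SympCt (n + 1) where
  toEquiv := ((co n).toEquiv.trans ⟨ex h F, ei h F, ei_ex h F, ex_ei h F⟩).trans
    (co n).symm.toEquiv
  smooth := (co n).symm.contDiff.comp ((ex_smooth h hF).comp (co n).contDiff)
  smooth_symm := (co n).symm.contDiff.comp ((ei_smooth h hF).comp (co n).contDiff)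
  symplectic p u v := by
    have h0 : HasFDerivAt (ex h F) (fderiv ℝ (ex h F) (co n p)) (co n p) :=
      ((ex_smooth h hF).contDiffAt.differentiableAt (by norm_num)).hasFDerivAt
    have h1 : HasFDerivAt (fun p => (co n).symm (ex h F (co n p)))
        ((((co n).symm : ℂ × R2 n →L[ℝ] R2 (n + 1)).comp (fderiv ℝ (ex h F) (co n p))).comp
          (co n : R2 (n + 1) →L[ℝ] ℂ × R2 n)) p :=
      ((co n).symm.hasFDerivAt.comp _ h0).comp p (co n).hasFDerivAt
    have h2 : (((co n).toEquiv.trans ⟨ex h F, ei h F, ei_ex h F, ex_ei h F⟩).trans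
      (co n).symm.toEquiv : R2 (n + 1) → R2 (n + 1)) =
        fun p => (co n).symm (ex h F (co n p)) := rfl
    rw [h2, h1.fderiv]
    change omega ((co n).symm (fderiv ℝ (ex h F) (co n p) (co n u)))
      ((co n).symm (fderiv ℝ (ex h F) (co n p) (co n v))) = _
    rw [om_co_symm, ex_symp h hF h.smooth h.isSp hdF, ← omega_co]
  compact_support := by
    refine ⟨(co n).symm '' (Metric.closedBall (0 : ℂ) 2 ×ˢ (K ∪ L)),
      ((isCompact_closedBall _ _).prod (h.compact.union hLc)).image (co n).symm.continuous,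
      fun p hp => ?_⟩
    change (co n).symm (ex h F (co n p)) = p
    rw [ContinuousLinearEquiv.symm_apply_eq]
    refine ex_fix h hL _ ?_
    by_contra hcon
    rw [not_or, not_lt, not_and_or, not_not, not_not] at hcon
    refine hp ⟨co n p, ⟨?_, hcon.2⟩, ContinuousLinearEquiv.symm_apply_apply _ _⟩
    rw [Metric.mem_closedBall, dist_zero_right]
    have h1 := hcon.1
    unfold hs at h1
    rw [Complex.normSq_eq_norm_sq] at h1
    nlinarith [norm_nonneg (co n p).1]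

theorem E_exS (hdF : ∀ q v, fderiv ℝ F q v = omega (X q) v)
    {L : Set (R2 n)} (hLc : IsCompact L) (hL : ∀ q, q ∉ L → F q = 0) (x : ℂ × R2 n) :
    E (exS h hF hdF hLc hL) x = ex h F x := by
  change co n ((co n).symm (ex h F (co n ((co n).symm x)))) = _
  rw [ContinuousLinearEquiv.apply_symm_apply, ContinuousLinearEquiv.apply_symm_apply]

theorem exS_rot (hdF : ∀ q v, fderiv ℝ F q v = omega (X q) v)
    {L : Set (R2 n)} (hLc : IsCompact L) (hL : ∀ q, q ∉ L → F q = 0) :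
    Rot (exS h hF hdF hLc hL) := by
  intro u hu z w
  rw [E_exS, E_exS]
  have h1 : hs (u * z) = hs z := by rw [mul_comm, hs_mul hu]
  unfold ex
  simp only
  rw [h1, ph_congr F (-1) h1, mul_assoc]

theorem ex_zero (w : R2 n) : ex h F (0, w) = (0, (cay h 1).toEquiv w) := by
  unfold ex
  simp only
  refine Prod.ext (by simp) ?_
  have h0 : hs 0 = 0 := by simp [hs]
  change Qt h (hs 0) ((Pt h (hs 0)).symm w) = (per h.goodQ (ta 1) (ta_mem 1))
    ((per h.good (ta 1) (ta_mem 1)).symm w)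
  have h2 : ∀ q, Pt h (hs 0) q = per h.good (ta 1) (ta_mem 1) q := by
    intro q
    rw [Pt_apply, per_apply, RR_apply, h0]
    simp [cu]
  have h3 : ∀ q, Qt h (hs 0) q = per h.goodQ (ta 1) (ta_mem 1) q := by
    intro q
    rw [Qt_apply, per_apply, RQ_apply, RR_apply, h0]
    simp only [zero_apply, add_zero, cu, sub_zero]
    module
  have h4 : (Pt h (hs 0)).symm w = (per h.good (ta 1) (ta_mem 1)).symm w := by
    rw [Equiv.symm_apply_eq, h2, Equiv.apply_symm_apply]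
  rw [h4, h3]

end

/-- symplectomorphisms without negative eigenvalues extend -/
theorem noNeg_ext {θ : SympCt n} (hθ : NoNeg θ) :
    ∃ (φ : SympCt (n + 1)) (hφ : Rot φ), res φ hφ = θ := by
  obtain ⟨K, hK, hθK⟩ := θ.compact_support
  have hc : ∀ p, ∀ s ∈ Set.Icc (0 : ℝ) 1, ∀ v,
      v + s • RR (0 : R2 n →L[ℝ] R2 n) (fderiv ℝ θ.toEquiv p v - v) = 0 → v = 0 := by
    intro p s hs v hv
    by_contra hv0
    have hs0 : s ≠ 0 := by
      rintro rfl
      rw [zero_smul, add_zero] at hv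
      exact hv0 hv
    have hs1 : 0 < s := lt_of_le_of_ne hs.1 (Ne.symm hs0)
    refine hθ p v hv0 ((2 - s) / s) (div_pos (by linarith [hs.2]) hs1) ?_
    rw [RR_apply] at hv
    simp only [zero_apply, add_zero] at hv
    have h1 : fderiv ℝ θ.toEquiv p v = (2 / s) • (v + s • (1 / 2 : ℝ) •
        (fderiv ℝ θ.toEquiv p v - v)) - ((2 - s) / s) • v := by
      rw [smul_add, smul_smul, smul_smul]
      have e1 : 2 / s * s * (1 / 2) = 1 := by field_simp
      have e2 : (2 - s) / s = 2 / s - 1 := by field_simp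
      rw [e1, e2]
      module
    rw [h1, hv, smul_zero, zero_sub]
  obtain ⟨X, hCD, m, hm, hmi, hXm, hXd⟩ := exists_X K hK θ hθK hc
  obtain ⟨F, hF, ⟨L, hLc, hL⟩, hdF⟩ := exists_potential hCD.smooth hCD.isSp hCD.compact hCD.out
  refine ⟨exS hCD hF hdF hLc hL, exS_rot hCD hF hdF hLc hL, SympCt.ext' fun w => ?_⟩
  rw [res_apply, E_exS, ex_zero]
  -- the Cayley transform at time `1`
  obtain ⟨p, rfl⟩ : ∃ p, per hCD.good (ta 1) (ta_mem 1) (m p) = w := by
    obtain ⟨q, hq⟩ := (per hCD.good (ta 1) (ta_mem 1)).surjective w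
    obtain ⟨p, hp⟩ := m.surjective q
    exact ⟨p, by rw [hp, hq]⟩
  change (per hCD.goodQ (ta 1) (ta_mem 1)) ((per hCD.good (ta 1) (ta_mem 1)).symm
    (per hCD.good (ta 1) (ta_mem 1) (m p))) = _
  rw [Equiv.symm_apply_apply, per_apply, per_apply, RQ_apply, RR_apply, hXm, hm, ta_one]
  simp only [zero_apply, add_zero]
  have e1 : (1 / 2 : ℝ) • (p + θ.toEquiv p) - (1 : ℝ) • (1 / 2 : ℝ) • (θ.toEquiv p - p) = p := by
    module
  rw [e1]
  module

theorem res_comp {φ ψ : SympCt (n + 1)} (hφ : Rot φ) (hψ : Rot ψ) (h : Rot (comp φ ψ)) :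
    res (comp φ ψ) h = comp (res φ hφ) (res ψ hψ) := by
  refine SympCt.ext' fun w => ?_
  rw [res_apply, E_comp, E_zero hψ]
  rfl

/-- **The elements isotopic to the identity extend.** -/
theorem joined_ext {θ : SympCt n} (hθ : Joined one θ) :
    ∃ (φ : SympCt (n + 1)) (hφ : Rot φ), res φ hφ = θ := by
  obtain ⟨l, hl, rfl⟩ := (joined_one_iff θ).1 hθ
  clear hθ
  induction l with
  | nil =>
    refine ⟨one, Rot.one, SympCt.ext' fun w => ?_⟩
    rw [res_apply, E_one]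
    rfl
  | cons θ l ih =>
    obtain ⟨φ, hφ, h1⟩ := noNeg_ext (hl θ List.mem_cons_self)
    obtain ⟨ψ, hψ, h2⟩ := ih (fun χ hχ => hl χ (List.mem_cons_of_mem _ hχ))
    refine ⟨comp φ ψ, hφ.comp hψ, ?_⟩
    rw [res_comp hφ hψ, h1, h2]
    rfl

end Pool.Agent.V5helper82.EQ
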