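import Mathlib
import Pool.Agent.W5h83.HG.Prod
import Pool.Agent.W5h49.EC.XJC
import Pool.Agent.V5helper82.EQ.Ext

/-!
# Rotation invariant extensions of families
-/

set_option autoImplicit false
set_option maxHeartbeats 400000
set_option linter.unusedSectionVars false

open scoped ContDiff Topology

namespace Pool.Agent.V5helper82.EQ

open Pool.Agent.W71.EC Pool.Agent.W5h83.HG Pool.Agent.W5h49.EC

variable {n : ℕ}

/-- the normalized potentials -/
theorem exists_base (n : ℕ) {K : Set (R2 n)} (hK : IsCompact K) : ∃ (x0 : R2 n) (R : ℝ),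
    ∀ X : R2 n → R2 n, ContDiff ℝ ∞ X → IsSp X → (∀ q, q ∉ K → X q = 0) →
      ∀ q, q ∉ Metric.closedBall (0 : R2 n) R → F0 X q - F0 X x0 = 0 := by
  rcases Nat.eq_zero_or_pos n with hn | hn
  · subst hn
    refine ⟨0, 0, fun X _ _ _ q hq => ?_⟩
    have : q = 0 := Subsingleton.elim _ _
    rw [this, sub_self]
  · obtain ⟨r, hr⟩ := hK.isBounded.subset_closedBall (0 : R2 n)
    set R := max r 0 with hRdef
    have hpre : IsPreconnected {x : R2 n | R < ‖x‖} := by
      refine preconn ?_ R (le_max_right _ _)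
      rw [rank_R2]
      exact_mod_cast (by omega : 1 < n + n)
    have hop : IsOpen {x : R2 n | R < ‖x‖} := isOpen_lt continuous_const continuous_norm
    obtain ⟨x0, hx0⟩ : ∃ x : R2 n, R < ‖x‖ := by
      have : Nontrivial (R2 n) := by
        have : Nonempty (Fin n) := ⟨⟨0, hn⟩⟩
        infer_instance
      exact NormedSpace.exists_lt_norm ℝ (R2 n) R
    refine ⟨x0, R, fun X hs hsp h0 q hq => ?_⟩
    have hXR : ∀ q : R2 n, R < ‖q‖ → X q = 0 := by
      intro q hq
      refine h0 q fun hqK => ?_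
      have := hr hqK
      rw [Metric.mem_closedBall, dist_zero_right] at this
      exact absurd (this.trans (le_max_left r 0)) (not_le.2 hq)
    have hd : Differentiable ℝ (F0 X) := (F0_smooth hs).differentiable (by norm_num)
    rw [Metric.mem_closedBall, dist_zero_right, not_le] at hq
    rw [sub_eq_zero]
    refine hop.is_const_of_fderiv_eq_zero hpre hd.differentiableOn (fun z hz => ?_) hq hx0
    refine ContinuousLinearMap.ext fun v => ?_
    rw [F0_fderiv hs hsp, hXR z hz]
    simp [omega]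

section

variable {P : Type*} [TopologicalSpace P]

theorem F0_fam {X : P → R2 n → R2 n} (hX : ∀ k, JC k (R2 n) X) (k : ℕ) :
    JC k ℝ (fun p w => F0 (X p) w) := by
  unfold F0
  refine JC_int01 (f := fun (q : ℝ × P) (w : R2 n) => W n (X q.2 (q.1 • w)) w) ?_
  have h1 : JC k (R2 n) (fun (q : ℝ × P) w => X q.2 w) := (hX k).param continuous_snd
  have h2 : JC k (R2 n) (fun (q : ℝ × P) (w : R2 n) => w) :=
    JC.ofSmooth (φ := fun w : R2 n => w) contDiff_id k
  have h3 : JC k (R2 n) (fun (q : ℝ × P) (w : R2 n) => q.1 • w) :=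
    JC.smulP continuous_fst h2
  exact JC.bilin (W n) (h1.comp h3) h2

/-- composition with a smooth map on the left -/
theorem JC.postSmooth {E F G : Type} [NormedAddCommGroup E] [NormedSpace ℝ E]
    [NormedAddCommGroup F] [NormedSpace ℝ F] [NormedAddCommGroup G] [NormedSpace ℝ G] {k : ℕ}
    {φ : F → G} (hφ : ContDiff ℝ ∞ φ) {f : P → E → F} (hf : JC k F f) :
    JC k G (fun p x => φ (f p x)) :=
  XJ.compSmooth isOpen_univ hφ.contDiffOn hf fun _ _ => Set.mem_univ _

theorem mP_fam {X : P → R2 n → R2 n} (hX : ∀ k, JC k (R2 n) X) (k : ℕ) :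
    JC k (ℂ × R2 n) (fun p x => mP (X p) x) := by
  have h1 : JC k ℝ (fun (_ : P) (x : ℂ × R2 n) => cu (hs x.1) * (1 / 2)) :=
    JC.ofSmooth (φ := fun x : ℂ × R2 n => cu (hs x.1) * (1 / 2))
      ((cu_smooth.comp (hs_smooth.comp contDiff_fst)).mul contDiff_const) k
  have h2 : JC k (R2 n) (fun (p : P) (x : ℂ × R2 n) => X p x.2) :=
    preLin (ContinuousLinearMap.snd ℝ ℂ (R2 n)) (hX k)
  have h3 := JC.neg (postLin (ContinuousLinearMap.inr ℝ ℂ (R2 n)) (XJ.smulJC h1 h2))
  have h4 := (JC.ofSmooth (P := P) (φ := fun x : ℂ × R2 n => x) contDiff_id k).add h3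
  have h5 : (fun (p : P) (x : ℂ × R2 n) => mP (X p) x) = fun p x => x +
      -(ContinuousLinearMap.inr ℝ ℂ (R2 n)) ((cu (hs x.1) * (1 / 2)) • X p x.2) := by
    funext p x
    unfold mP
    refine Prod.ext ?_ ?_
    · simp
    · simp [mul_smul, sub_eq_add_neg]
  rw [h5]
  exact h4

theorem mQ_fam {X : P → R2 n → R2 n} (hX : ∀ k, JC k (R2 n) X) {F : P → R2 n → ℝ}
    (hF : ∀ k, JC k ℝ F) (k : ℕ) :
    JC k (ℂ × R2 n) (fun p x => mQ (X p) (F p) x) := by
  have h1 : JC k ℝ (fun (_ : P) (x : ℂ × R2 n) => cu (hs x.1) * (1 / 2)) :=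
    JC.ofSmooth (φ := fun x : ℂ × R2 n => cu (hs x.1) * (1 / 2))
      ((cu_smooth.comp (hs_smooth.comp contDiff_fst)).mul contDiff_const) k
  have h2 : JC k (R2 n) (fun (p : P) (x : ℂ × R2 n) => X p x.2) :=
    preLin (ContinuousLinearMap.snd ℝ ℂ (R2 n)) (hX k)
  have h3 := postLin (ContinuousLinearMap.inr ℝ ℂ (R2 n)) (XJ.smulJC h1 h2)
  have h4 := postLin (ContinuousLinearMap.inr ℝ ℂ (R2 n))
    (JC.ofSmooth (P := P) (φ := fun x : ℂ × R2 n => x.2) contDiff_snd k)
  have h6 : JC k ℝ (fun (p : P) (x : ℂ × R2 n) => (-1 * _root_.deriv cu (hs x.1)) • F p x.2) := by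
    refine XJ.smulJC ?_ (preLin (ContinuousLinearMap.snd ℝ ℂ (R2 n)) (hF k))
    exact JC.ofSmooth (φ := fun x : ℂ × R2 n => -1 * _root_.deriv cu (hs x.1))
      (contDiff_const.mul (cu'_smooth.comp (hs_smooth.comp contDiff_fst))) k
  have h7 : JC k ℂ (fun (p : P) (x : ℂ × R2 n) => ph (F p) (-1) x.1 x.2) := by
    have h8 : ContDiff ℝ ∞ (fun r : ℝ => Complex.exp (r * Complex.I)) :=
      Complex.contDiff_exp.comp (Complex.ofRealCLM.contDiff.mul contDiff_const)
    have h9 := JC.postSmooth h8 h6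
    have h10 : (fun (p : P) (x : ℂ × R2 n) => ph (F p) (-1) x.1 x.2) = fun p x =>
        Complex.exp (((-1 * _root_.deriv cu (hs x.1)) • F p x.2 : ℝ) * Complex.I) := by
      funext p x
      unfold ph
      rw [smul_eq_mul, mul_assoc]
    rw [h10]
    exact h9
  have h11 := postLin (ContinuousLinearMap.inl ℝ ℂ (R2 n)) (JC.bilin
    (ContinuousLinearMap.mul ℝ ℂ) (JC.ofSmooth (P := P) (φ := fun x : ℂ × R2 n => x.1)
      contDiff_fst k) h7)
  have h12 := h11.add (h4.add h3)
  have h5 : (fun (p : P) (x : ℂ × R2 n) => mQ (X p) (F p) x) = fun p x =>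
      (ContinuousLinearMap.inl ℝ ℂ (R2 n)) (ContinuousLinearMap.mul ℝ ℂ x.1
        (ph (F p) (-1) x.1 x.2)) + ((ContinuousLinearMap.inr ℝ ℂ (R2 n)) x.2 +
        (ContinuousLinearMap.inr ℝ ℂ (R2 n)) ((cu (hs x.1) * (1 / 2)) • X p x.2)) := by
    funext p x
    unfold mQ
    refine Prod.ext ?_ ?_
    · simp
    · simp [mul_smul]
  rw [h5]
  exact h12

/-- the inverse of the first map -/
noncomputable def eP {X : R2 n → R2 n} {K : Set (R2 n)} (h : CD (0 : R2 n →L[ℝ] R2 n) X K) :
    ℂ × R2 n ≃ ℂ × R2 n where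
  toFun := mP X
  invFun x := (x.1, (Pt h (hs x.1)).symm x.2)
  left_inv x := by
    refine Prod.ext rfl ?_
    change (Pt h (hs x.1)).symm (x.2 - cu (hs x.1) • ((1 / 2 : ℝ) • X x.2)) = x.2
    rw [← Pt_apply h, Equiv.symm_apply_apply]
  right_inv x := by
    refine Prod.ext rfl ?_
    change (Pt h (hs x.1)).symm x.2 - cu (hs x.1) • ((1 / 2 : ℝ) •
      X ((Pt h (hs x.1)).symm x.2)) = x.2
    rw [← Pt_apply h, Equiv.apply_symm_apply]

theorem ex_fam {X : P → R2 n → R2 n} {K : Set (R2 n)} (hK : IsCompact K)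
    (h : ∀ p, CD (0 : R2 n →L[ℝ] R2 n) (X p) K) (hX : ∀ k, JC k (R2 n) X) {F : P → R2 n → ℝ}
    (hF : ∀ k, JC k ℝ F) (k : ℕ) : JC k (ℂ × R2 n) (fun p x => ex (h p) (F p) x) := by
  have h1 : ∀ k, JC k (ℂ × R2 n) (fun p x => eP (h p) x) := fun k => mP_fam hX k
  have h2 : ∀ k, JC k (ℂ × R2 n) (fun p x => (eP (h p)).symm x) := by
    refine JC.symm h1 (fun p => ?_) ?_
    · exact (contDiff_fst.prodMk (Pt_symm_smooth (h p))).differentiable (by norm_num)
    · refine cont_symm (K := Metric.closedBall (0 : ℂ) 2 ×ˢ K)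
        ((isCompact_closedBall _ _).prod hK) ?_ (h1 0)
      intro p x hx
      change mP (X p) x = x
      refine Prod.ext rfl ?_
      change x.2 - cu (hs x.1) • ((1 / 2 : ℝ) • X p x.2) = x.2
      rw [Set.mem_prod, not_and_or] at hx
      rcases hx with hx | hx
      · have h3 : 1 ≤ hs x.1 := by
          rw [Metric.mem_closedBall, dist_zero_right, not_le] at hx
          unfold hs
          rw [Complex.normSq_eq_norm_sq]
          nlinarith
        rw [cu_far h3, zero_smul, sub_zero]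
      · rw [(h p).out _ hx, smul_zero, smul_zero, sub_zero]
  have h3 : (fun p x => ex (h p) (F p) x) = fun p x => mQ (X p) (F p) ((eP (h p)).symm x) := by
    funext p x
    exact ex_eq (h p) x
  rw [h3]
  exact (mQ_fam hX hF k).comp (h2 k)

theorem crit_of_noNeg {θ : SympCt n} (hθ : NoNeg θ) : ∀ p, ∀ s ∈ Set.Icc (0 : ℝ) 1, ∀ v,
    v + s • RR (0 : R2 n →L[ℝ] R2 n) (fderiv ℝ θ.toEquiv p v - v) = 0 → v = 0 := by
  intro p s hs v hv
  by_contra hv0
  have hs0 : s ≠ 0 := by
    rintro rfl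
    rw [zero_smul, add_zero] at hv
    exact hv0 hv
  have hs1 : 0 < s := lt_of_le_of_ne hs.1 (Ne.symm hs0)
  refine hθ p v hv0 ((2 - s) / s) (div_pos (by linarith [hs.2]) hs1) ?_
  rw [RR_apply] at hv
  simp only [zero_apply, add_zero] at hv
  have h1 : fderiv ℝ θ.toEquiv p v = (2 / s) • (v + s • (1 / 2 : ℝ) •
      (fderiv ℝ θ.toEquiv p v - v)) - ((2 - s) / s) • v := by
    rw [smul_add, smul_smul, smul_smul]
    have e1 : 2 / s * s * (1 / 2) = 1 := by field_simp
    have e2 : (2 - s) / s = 2 / s - 1 := by field_simp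
    rw [e1, e2]
    module
  rw [h1, hv, smul_zero, zero_sub]

/-- **Families without negative eigenvalues extend.** -/
theorem noNeg_fam {θ : P → SympCt n} (hJ : JS θ) {K : Set (R2 n)} (hK : IsCompact K)
    (hs : ∀ p, θ p ∈ supportedIn K) (hN : ∀ p, NoNeg (θ p)) :
    ∃ Φ : P → SympCt (n + 1), JS Φ ∧ (∃ K' : Set (R2 (n + 1)), IsCompact K' ∧
      ∀ p, Φ p ∈ supportedIn K') ∧ (∀ p, ∃ h : Rot (Φ p), res (Φ p) h = θ p) ∧
      ∀ p, θ p = one → Φ p = one := by
  choose X hCD m hm hmi hXm hXd using fun p : P => exists_X K hK (θ p) (hs p) (crit_of_noNeg (hN p))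
  -- the midpoint map
  have hmJ : ∀ k, JC k (R2 n) (fun p x => m p x) := by
    intro k
    have h1 : (fun p x => m p x) = fun p x => (1 / 2 : ℝ) • (x + (θ p).toEquiv x) := by
      funext p x
      exact hm p x
    rw [h1]
    exact JC.smulP (a := fun _ : P => (1 / 2 : ℝ)) continuous_const
      ((JC.ofSmooth (P := P) (φ := fun x : R2 n => x) contDiff_id k).add (hJ k))
  have hmiJ : ∀ k, JC k (R2 n) (fun p x => (m p).symm x) := by
    refine JC.symm hmJ (fun p => (hmi p).differentiable (by norm_num)) (cont_symm hK ?_ (hmJ 0))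
    intro p x hx
    rw [hm, hs p x hx]
    module
  have hXJ : ∀ k, JC k (R2 n) X := by
    intro k
    have h1 : X = fun p x => (θ p).toEquiv ((m p).symm x) + -((m p).symm x) := by
      funext p x
      have h2 := hXm p ((m p).symm x)
      rw [Equiv.apply_symm_apply] at h2
      rw [h2, sub_eq_add_neg]
    rw [h1]
    exact ((hJ k).comp (hmiJ k)).add (JC.neg (hmiJ k))
  -- the potential
  obtain ⟨x0, R, hR⟩ := exists_base n hK
  set F : P → R2 n → ℝ := fun p w => F0 (X p) w - F0 (X p) x0 with hFdef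
  have hFJ : ∀ k, JC k ℝ F := by
    intro k
    have h1 := F0_fam hXJ k
    have h2 : Continuous (fun p => F0 (X p) x0) :=
      (F0_fam hXJ 0).cont.comp (continuous_id.prodMk continuous_const)
    have h3 := h1.add (JC.neg (JC.constX (E := R2 n) h2 k))
    have h4 : F = fun p w => F0 (X p) w + -F0 (X p) x0 := by
      funext p w
      rw [hFdef]
      exact sub_eq_add_neg _ _
    rw [h4]
    exact h3
  have hFs : ∀ p, ContDiff ℝ ∞ (F p) := fun p =>
    (F0_smooth (hCD p).smooth).sub contDiff_const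
  have hFL : ∀ p q, q ∉ Metric.closedBall (0 : R2 n) R → F p q = 0 := fun p q hq =>
    hR (X p) (hCD p).smooth (hCD p).isSp (hCD p).out q hq
  have hdF : ∀ p q v, fderiv ℝ (F p) q v = omega (X p q) v := by
    intro p q v
    have : fderiv ℝ (F p) q = fderiv ℝ (F0 (X p)) q := by
      rw [hFdef]
      exact fderiv_sub_const _
    rw [this, F0_fderiv (hCD p).smooth (hCD p).isSp]
  have hLc : IsCompact (Metric.closedBall (0 : R2 n) R) := isCompact_closedBall _ _
  set Φ : P → SympCt (n + 1) := fun p => exS (hCD p) (hFs p) (hdF p) hLc (hFL p) with hΦ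
  have hE : ∀ p x, E (Φ p) x = ex (hCD p) (F p) x := fun p x => E_exS (hCD p) (hFs p) _ _ _ x
  refine ⟨Φ, ?_, ?_, ?_, ?_⟩
  · refine JS.ofE fun k => ?_
    have h1 : (fun p x => E (Φ p) x) = fun p x => ex (hCD p) (F p) x := by
      funext p x
      exact hE p x
    rw [h1]
    exact ex_fam hK hCD hXJ hFJ k
  · refine ⟨(co n).symm '' (Metric.closedBall (0 : ℂ) 2 ×ˢ (K ∪ Metric.closedBall (0 : R2 n) R)),
      ((isCompact_closedBall _ _).prod (hK.union hLc)).image (co n).symm.continuous,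
      fun p y hy => ?_⟩
    change (co n).symm (ex (hCD p) (F p) (co n y)) = y
    rw [ContinuousLinearEquiv.symm_apply_eq]
    refine ex_fix (hCD p) (hFL p) _ ?_
    by_contra hcon
    rw [not_or, not_lt, not_and_or, not_not, not_not] at hcon
    refine hy ⟨co n y, ⟨?_, hcon.2⟩, ContinuousLinearEquiv.symm_apply_apply _ _⟩
    rw [Metric.mem_closedBall, dist_zero_right]
    have h1 := hcon.1
    unfold EQ.hs at h1
    rw [Complex.normSq_eq_norm_sq] at h1
    nlinarith [norm_nonneg (co n y).1]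
  · intro p
    refine ⟨exS_rot (hCD p) (hFs p) _ _ _, SympCt.ext' fun w => ?_⟩
    rw [res_apply, E_exS, ex_zero]
    obtain ⟨y, rfl⟩ : ∃ y, per (hCD p).good (ta 1) (ta_mem 1) (m p y) = w := by
      obtain ⟨q, hq⟩ := (per (hCD p).good (ta 1) (ta_mem 1)).surjective w
      obtain ⟨y, hy⟩ := (m p).surjective q
      exact ⟨y, by rw [hy, hq]⟩
    change (per (hCD p).goodQ (ta 1) (ta_mem 1)) ((per (hCD p).good (ta 1) (ta_mem 1)).symm
      (per (hCD p).good (ta 1) (ta_mem 1) (m p y))) = _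
    rw [Equiv.symm_apply_apply, per_apply, per_apply, RQ_apply, RR_apply, hXm, hm, ta_one]
    simp only [zero_apply, add_zero]
    have e1 : (1 / 2 : ℝ) • (y + (θ p).toEquiv y) - (1 : ℝ) • (1 / 2 : ℝ) •
        ((θ p).toEquiv y - y) = y := by
      module
    rw [e1]
    module
  · intro p hp
    have hX0 : ∀ y, X p y = 0 := by
      intro y
      obtain ⟨x, rfl⟩ := (m p).surjective y
      rw [hXm, hp]
      exact sub_self _
    have hF0 : ∀ y, F p y = 0 := by
      intro y
      have h1 : ∀ w, F0 (X p) w = 0 := by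
        intro w
        unfold F0
        simp [hX0]
      rw [hFdef]
      simp only
      rw [h1, h1, sub_zero]
    refine ext_E fun x => ?_
    rw [hE, E_one]
    have h2 : (Pt (hCD p) (EQ.hs x.1)).symm x.2 = x.2 := by
      rw [Equiv.symm_apply_eq, Pt_apply, hX0, smul_zero, smul_zero, sub_zero]
    have h3 : ph (F p) (-1) x.1 x.2 = 1 := by
      unfold ph
      rw [hF0]
      simp
    unfold ex
    rw [h2, h3, Qt_apply, hX0, smul_zero, smul_zero, add_zero, mul_one]

end

/-- **A compact family is null homotopic if and only if it extends to a family of rotation invariant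
symplectomorphisms.** -/
theorem null_iff_ext {C : Type*} [TopologicalSpace C] [CompactSpace C] (f : C(C, SympCt n))
    (A : Set C) (hA : ∀ c ∈ A, f c = one) :
    f.HomotopicRel (ContinuousMap.const C one) A ↔
      ∃ Φ : C(C, SympCt (n + 1)), (∀ c, ∃ h : Rot (Φ c), res (Φ c) h = f c) ∧
        ∀ c ∈ A, Φ c = one := by
  constructor
  · intro h
    obtain ⟨l, hl, hf⟩ := (homotopicRel_iff_prod A f (ContinuousMap.const C one)).1 h
    clear h hA
    induction l generalizing f with
    | nil =>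
      refine ⟨ContinuousMap.const C one, fun c => ⟨Rot.one, ?_⟩, fun c _ => rfl⟩
      rw [hf c]
      refine SympCt.ext' fun w => ?_
      change (E one (0, w)).2 = w
      rw [E_one]
    | cons θ l ih =>
      obtain ⟨h1, h2⟩ := hl θ List.mem_cons_self
      obtain ⟨m, hm⟩ := supp_unif (isCompact_range θ.continuous)
      obtain ⟨Θ, hΘ, ⟨K', hK', hs⟩, hr, h0⟩ := noNeg_fam (JS.of_continuous θ.continuous)
        (isCompact_closedBall (0 : R2 n) m) (fun c => hm _ ⟨c, rfl⟩) h2
      have hΘc : Continuous Θ := hΘ.continuous K' hK' hs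
      let g : C(C, SympCt n) := l.foldr mulC (ContinuousMap.const C one)
      have hg : ∀ c, g c = (l.map fun θ => θ c).foldr comp ((ContinuousMap.const C one) c) :=
        fun c => foldr_apply l (ContinuousMap.const C one) c
      obtain ⟨Ψ, hΨ, hΨA⟩ := ih g (fun χ hχ => hl χ (List.mem_cons_of_mem _ hχ)) hg
      refine ⟨mulC ⟨Θ, hΘc⟩ Ψ, fun c => ?_, fun c hc => ?_⟩
      · obtain ⟨r1, e1⟩ := hr c
        obtain ⟨r2, e2⟩ := hΨ c
        refine ⟨r1.comp r2, ?_⟩
        rw [hf c, List.map_cons, List.foldr_cons, ← hg c, ← e1, ← e2]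
        exact res_comp r1 r2 _
      · rw [mulC_apply, hΨA c hc]
        change comp (Θ c) one = one
        rw [h0 c (h1 c hc)]
        exact SympCt.ext' fun _ => rfl
  · rintro ⟨Φ, hΦ, hΦA⟩
    choose hR hres using hΦ
    obtain ⟨m, hm⟩ := supp_unif (isCompact_range Φ.continuous)
    have hm0 : (0 : ℝ) ≤ m := m.cast_nonneg
    have hm' : ∀ c, Φ c ∈ supportedIn (Metric.closedBall (0 : R2 (n + 1)) m) := fun c =>
      hm _ ⟨c, rfl⟩
    let γ : C × ℝ → SympCt n := fun q => res (sh (Φ q.1) (hR q.1) q.2) (sh_rot (hR q.1) _)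
    have hJ : JS γ := res_JS (sh_JS (JS.of_continuous Φ.continuous) hR) _
    have hc : Continuous γ := by
      refine hJ.continuous (Metric.closedBall (0 : R2 n) (2 * m)) (isCompact_closedBall _ _) ?_
      intro q
      refine res_supp _ (Pool.Agent.W5h83.HG.supp_mono Bx_ball ?_)
      refine sh_supp (hR q.1) (supp_Bx hm0 (hm' q.1)) ?_ _
      intro z z' w h hz
      simp only [Bx, Set.mem_ofPred_eq, ContinuousLinearEquiv.apply_symm_apply] at h ⊢
      exact ⟨hz.trans h.1, h.2⟩
    have hc' : Continuous (fun z : unitInterval × C => γ (z.2, (m + 1) * (z.1 : ℝ))) :=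
      hc.comp (continuous_snd.prodMk (continuous_const.mul
        (continuous_subtype_val.comp continuous_fst)))
    refine ⟨⟨⟨⟨_, hc'⟩, fun c => ?_, fun c => ?_⟩, fun t c hcA => ?_⟩⟩
    · change γ (c, (m + 1) * ((0 : unitInterval) : ℝ)) = f c
      rw [Set.Icc.coe_zero, mul_zero, ← hres c]
      refine SympCt.ext' fun w => ?_
      change (E (sh (Φ c) (hR c) 0) (0, w)).2 = (E (Φ c) (0, w)).2
      rw [sh_zero]
    · change γ (c, (m + 1) * ((1 : unitInterval) : ℝ)) = one
      rw [Set.Icc.coe_one, mul_one]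
      refine SympCt.ext' fun w => ?_
      change (E (sh (Φ c) (hR c) (m + 1)) (0, w)).2 = w
      rw [sh_far (hR c) (hm' c) (by rw [abs_of_nonneg (by linarith)]; linarith), E_one]
    · change γ (c, (m + 1) * (t : ℝ)) = f c
      rw [hA c hcA]
      refine SympCt.ext' fun w => ?_
      change (E (sh (Φ c) (hR c) ((m + 1) * t)) (0, w)).2 = w
      have e1 : Φ c = one := hΦA c hcA
      have e2 : ∀ (φ : SympCt (n + 1)) (hφ : Rot φ), φ = one → ∀ σ, sh φ hφ σ = one := by
        rintro _ hφ rfl σ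
        exact sh_one σ hφ
      rw [e2 _ _ e1, E_one]

end Pool.Agent.V5helper82.EQ
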