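import Mathlib
import Pool.Agent.V5helper82.EQ.FamExt
import Pool.Agent.W5h49.EC.KerND

/-!
# Averages over arcs of rotations
-/

set_option autoImplicit false
set_option maxHeartbeats 400000
set_option linter.unusedSectionVars false

open scoped ContDiff Topology
open MeasureTheory Set

namespace Pool.Agent.V5helper82.EQ

open Pool.Agent.W71.EC Pool.Agent.W5h83.HG Pool.Agent.W5h49.EC

variable {n : ℕ}

/-- `e^{2πis}` -/
noncomputable def cs (s : ℝ) : ℂ := Complex.exp ((2 * Real.pi * s : ℝ) * Complex.I)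

theorem cs_smooth : ContDiff ℝ ∞ cs := by
  unfold cs
  have h1 : ContDiff ℝ ∞ (fun s : ℝ => ((2 * Real.pi * s : ℝ) : ℂ)) :=
    Complex.ofRealCLM.contDiff.comp (contDiff_const.mul contDiff_id)
  exact (h1.mul contDiff_const).cexp

theorem cs_add (s t : ℝ) : cs (s + t) = cs s * cs t := by
  unfold cs
  rw [← Complex.exp_add]
  congr 1
  push_cast
  ring

theorem cs_zero : cs 0 = 1 := by
  unfold cs
  simp

theorem cs_norm (s : ℝ) : ‖cs s‖ = 1 := Complex.norm_exp_ofReal_mul_I _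

theorem cs_surj (u : ℂ) (hu : ‖u‖ = 1) : ∃ s, cs s = u := by
  refine ⟨Complex.arg u / (2 * Real.pi), ?_⟩
  unfold cs
  have h1 : 2 * Real.pi * (Complex.arg u / (2 * Real.pi)) = Complex.arg u := by
    field_simp
  rw [h1]
  have h2 := Complex.norm_mul_exp_arg_mul_I u
  rw [hu] at h2
  simpa using h2

/-- the rotation of the first coordinate plane by the angle `2πs` -/
noncomputable def rl (n : ℕ) (s : ℝ) : R2 (n + 1) →L[ℝ] R2 (n + 1) :=
  ((co n).symm : ℂ × R2 n →L[ℝ] R2 (n + 1)).comp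
    (((ContinuousLinearMap.mul ℝ ℂ (cs s)).prodMap (ContinuousLinearMap.id ℝ (R2 n))).comp
      (co n : R2 (n + 1) →L[ℝ] ℂ × R2 n))

theorem rl_apply (s : ℝ) (x : R2 (n + 1)) :
    rl n s x = (co n).symm (cs s * (co n x).1, (co n x).2) := rfl

theorem rl_rt (s : ℝ) (x : R2 (n + 1)) : rl n s x = rt n (cs s) x := rfl

theorem co_rl (s : ℝ) (x : R2 (n + 1)) : co n (rl n s x) = (cs s * (co n x).1, (co n x).2) := by
  rw [rl_apply, ContinuousLinearEquiv.apply_symm_apply]

theorem rl_add (s t : ℝ) (x : R2 (n + 1)) : rl n (s + t) x = rl n s (rl n t x) := by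
  rw [rl_apply, rl_apply s, co_rl, cs_add, mul_assoc]

theorem rl_zero (x : R2 (n + 1)) : rl n 0 x = x := by
  rw [rl_apply, cs_zero, one_mul, Prod.mk.eta, ContinuousLinearEquiv.symm_apply_apply]

theorem rl_neg (s : ℝ) (x : R2 (n + 1)) : rl n (-s) (rl n s x) = x := by
  rw [← rl_add, neg_add_cancel, rl_zero]

theorem rl_neg' (s : ℝ) (x : R2 (n + 1)) : rl n s (rl n (-s) x) = x := by
  rw [← rl_add, add_neg_cancel, rl_zero]

theorem rl_omega (s : ℝ) (u v : R2 (n + 1)) : omega (rl n s u) (rl n s v) = omega u v := by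
  rw [omega_co, omega_co, co_rl, co_rl]
  unfold om
  simp only
  congr 1
  unfold om1
  have h1 : (cs s).re ^ 2 + (cs s).im ^ 2 = 1 := by
    have h2 := cs_norm s
    have h3 : ‖cs s‖ ^ 2 = 1 := by rw [h2]; norm_num
    rw [← Complex.normSq_eq_norm_sq, Complex.normSq_apply] at h3
    nlinarith
  simp only [Complex.mul_re, Complex.mul_im]
  linear_combination ((co n u).1.re * (co n v).1.im - (co n u).1.im * (co n v).1.re) * h1

theorem rl_Bx {m : ℝ} (s : ℝ) (x : R2 (n + 1)) (h : rl n s x ∈ Bx n m) : x ∈ Bx n m := by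
  simp only [Bx, Set.mem_ofPred_eq, co_rl, norm_mul, cs_norm, one_mul] at h ⊢
  exact h

theorem rl_cont : Continuous (fun s : ℝ => rl n s) := by
  unfold rl
  have h1 : Continuous (fun s : ℝ => ContinuousLinearMap.mul ℝ ℂ (cs s)) :=
    (ContinuousLinearMap.mul ℝ ℂ).continuous.comp cs_smooth.continuous
  have h2 : Continuous (fun s : ℝ => (ContinuousLinearMap.mul ℝ ℂ (cs s)).prodMap
      (ContinuousLinearMap.id ℝ (R2 n))) := by
    have h3 : (fun s : ℝ => (ContinuousLinearMap.mul ℝ ℂ (cs s)).prodMap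
        (ContinuousLinearMap.id ℝ (R2 n))) = fun s =>
        ((ContinuousLinearMap.inl ℝ ℂ (R2 n)).comp ((ContinuousLinearMap.mul ℝ ℂ (cs s)).comp
          (ContinuousLinearMap.fst ℝ ℂ (R2 n)))) +
        (ContinuousLinearMap.inr ℝ ℂ (R2 n)).comp (ContinuousLinearMap.snd ℝ ℂ (R2 n)) := by
      funext s
      refine ContinuousLinearMap.ext fun x => ?_
      refine Prod.ext ?_ ?_ <;> simp
    rw [h3]
    exact (continuous_const.clm_comp (h1.clm_comp continuous_const)).add continuous_const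
  exact continuous_const.clm_comp (h2.clm_comp continuous_const)

theorem rl_smooth : ContDiff ℝ ∞ (fun q : ℝ × R2 (n + 1) => rl n q.1 q.2) := by
  have h1 : (fun q : ℝ × R2 (n + 1) => rl n q.1 q.2) = fun q =>
      (co n).symm (cs q.1 * (co n q.2).1, (co n q.2).2) := funext fun q => rl_apply _ _
  rw [h1]
  have h2 : ContDiff ℝ ∞ (fun q : ℝ × R2 (n + 1) => co n q.2) := (co n).contDiff.comp contDiff_snd
  exact (co n).symm.contDiff.comp
    (((cs_smooth.comp contDiff_fst).mul (contDiff_fst.comp h2)).prodMk (contDiff_snd.comp h2))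

attribute [irreducible] rl

/-- the average over the arc of length `τ` of the differential -/
noncomputable def arcA (φ : SympCt (n + 1)) (τ : ℝ) (x : R2 (n + 1)) (v : R2 (n + 1)) :
    R2 (n + 1) :=
  ∫ s in (0 : ℝ)..1, rl n (-(τ * s)) (fderiv ℝ φ.toEquiv (rl n (τ * s) x) (rl n (τ * s) v))

/-- the differential of the conjugated map -/
noncomputable def arcD (φ : SympCt (n + 1)) (a : ℝ) (x : R2 (n + 1)) :
    R2 (n + 1) →L[ℝ] R2 (n + 1) :=
  (rl n (-a)).comp ((fderiv ℝ φ.toEquiv (rl n a x)).comp (rl n a))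

/-- the conjugated map -/
noncomputable def arcG (φ : SympCt (n + 1)) (a : ℝ) (x : R2 (n + 1)) : R2 (n + 1) :=
  rl n (-a) (φ.toEquiv (rl n a x))

theorem arcG_smooth (φ : SympCt (n + 1)) :
    ContDiff ℝ ∞ (fun q : ℝ × R2 (n + 1) => arcG φ q.1 q.2) :=
  rl_smooth.comp (contDiff_fst.neg.prodMk (φ.smooth.comp rl_smooth))

/-- the average over the arc of length `τ` of the map -/
noncomputable def arcF (φ : SympCt (n + 1)) (τ : ℝ) (x : R2 (n + 1)) : R2 (n + 1) :=
  ∫ s in (0 : ℝ)..1, arcG φ (τ * s) x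

section

variable {P : Type} [TopologicalSpace P]

theorem arcD_cont {f : P → SympCt (n + 1)} (hf : JS f) :
    Continuous (fun q : P × (ℝ × R2 (n + 1)) => arcD (f q.1) q.2.1 q.2.2) := by
  have h1 : Continuous (fun q : P × R2 (n + 1) => fderiv ℝ (f q.1).toEquiv q.2) :=
    (hf 1).2.2.cont
  have h2 : Continuous (fun q : P × (ℝ × R2 (n + 1)) => rl n q.2.1 q.2.2) :=
    rl_smooth.continuous.comp continuous_snd
  have h3 : Continuous (fun q : P × (ℝ × R2 (n + 1)) =>
      fderiv ℝ (f q.1).toEquiv (rl n q.2.1 q.2.2)) := h1.comp (continuous_fst.prodMk h2)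
  unfold arcD
  exact (rl_cont.comp (continuous_fst.comp continuous_snd).neg).clm_comp
    (h3.clm_comp (rl_cont.comp (continuous_fst.comp continuous_snd)))

theorem JS_unit (φ : SympCt n) : JS (fun _ : Unit => φ) := fun k =>
  JC.ofSmooth φ.smooth k

theorem arcD_cont' (φ : SympCt (n + 1)) :
    Continuous (fun q : ℝ × R2 (n + 1) => arcD φ q.1 q.2) := by
  have h1 := arcD_cont (JS_unit φ)
  have h2 : Continuous (fun q : ℝ × R2 (n + 1) => (((), q) : Unit × (ℝ × R2 (n + 1)))) :=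
    continuous_const.prodMk continuous_id
  exact h1.comp h2

theorem arcD_hasFD (φ : SympCt (n + 1)) (a : ℝ) (x : R2 (n + 1)) :
    HasFDerivAt (arcG φ a) (arcD φ a x) x := by
  have h1 : HasFDerivAt (fun x => φ.toEquiv (rl n a x))
      ((fderiv ℝ φ.toEquiv (rl n a x)).comp (rl n a)) x :=
    (hasFD φ _).comp x (rl n a).hasFDerivAt
  exact (rl n (-a)).hasFDerivAt.comp x h1

attribute [irreducible] arcD

theorem arcF_hasFD (φ : SympCt (n + 1)) (τ : ℝ) (x : R2 (n + 1)) :
    HasFDerivAt (arcF φ τ) (∫ s in (0 : ℝ)..1, arcD φ (τ * s) x) x := by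
  have h0 : Continuous (fun q : ℝ × R2 (n + 1) => ((τ * q.1, q.2) : ℝ × R2 (n + 1))) :=
    (continuous_const.mul continuous_fst).prodMk continuous_snd
  have h1 : Continuous (Function.uncurry fun (s : ℝ) x => arcG φ (τ * s) x) :=
    (arcG_smooth φ).continuous.comp h0
  have h2 : Continuous (Function.uncurry fun (s : ℝ) x => arcD φ (τ * s) x) :=
    (arcD_cont' φ).comp h0
  exact hasFDerivAt_int h1 h2 (fun s x => arcD_hasFD φ _ x) x

theorem arcD_apply (φ : SympCt (n + 1)) (a : ℝ) (x v : R2 (n + 1)) :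
    arcD φ a x v = rl n (-a) (fderiv ℝ φ.toEquiv (rl n a x) (rl n a v)) := by
  unfold arcD
  rfl

theorem arcA_eq (φ : SympCt (n + 1)) (τ : ℝ) (x v : R2 (n + 1)) :
    (∫ s in (0 : ℝ)..1, arcD φ (τ * s) x) v = arcA φ τ x v := by
  unfold arcA
  rw [ContinuousLinearMap.intervalIntegral_apply]
  · exact intervalIntegral.integral_congr fun s _ => arcD_apply _ _ _ _
  · exact ((arcD_cont' φ).comp ((continuous_const.mul continuous_id).prodMk
      continuous_const)).intervalIntegrable _ _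

theorem arcF_zero (φ : SympCt (n + 1)) (x : R2 (n + 1)) : arcF φ 0 x = φ.toEquiv x := by
  unfold arcF arcG
  simp [rl_zero]

theorem arcF_out {φ : SympCt (n + 1)} {m : ℝ} (h : φ ∈ supportedIn (Bx n m)) (τ : ℝ)
    (x : R2 (n + 1)) (hx : x ∉ Bx n m) : arcF φ τ x = x := by
  unfold arcF arcG
  have h1 : ∀ s : ℝ, rl n (-(τ * s)) (φ.toEquiv (rl n (τ * s) x)) = x := by
    intro s
    rw [h _ (fun hc => hx (rl_Bx _ _ hc)), rl_neg]
  simp [h1]

theorem arcF_one (τ : ℝ) (x : R2 (n + 1)) : arcF one τ x = x := by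
  unfold arcF arcG
  have h1 : ∀ s : ℝ, rl n (-(τ * s)) ((one : SympCt (n + 1)).toEquiv (rl n (τ * s) x)) = x := by
    intro s
    change rl n (-(τ * s)) (rl n (τ * s) x) = x
    rw [rl_neg]
  simp [h1]

/-- joint smoothness -/
theorem arcF_JC {f : P → SympCt (n + 1)} (hf : JS f) (k : ℕ) :
    JC k (R2 (n + 1)) (fun (q : P × ℝ) x => arcF (f q.1) q.2 x) := by
  unfold arcF arcG
  refine JC_int01 (f := fun (r : ℝ × (P × ℝ)) x =>
    rl n (-(r.2.2 * r.1)) ((f r.2.1).toEquiv (rl n (r.2.2 * r.1) x))) ?_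
  have hc : Continuous (fun r : ℝ × (P × ℝ) => r.2.2 * r.1) :=
    (continuous_snd.comp continuous_snd).mul continuous_fst
  have h1 : JC k (R2 (n + 1)) (fun (r : ℝ × (P × ℝ)) x => rl n (r.2.2 * r.1) x) :=
    JC.bilin (ContinuousLinearMap.id ℝ (R2 (n + 1) →L[ℝ] R2 (n + 1)))
      (JC.constX (a := fun r : ℝ × (P × ℝ) => rl n (r.2.2 * r.1)) (rl_cont.comp hc) k)
      (JC.ofSmooth (φ := fun x : R2 (n + 1) => x) contDiff_id k)
  have h2 : JC k (R2 (n + 1)) (fun (r : ℝ × (P × ℝ)) x =>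
      (f r.2.1).toEquiv (rl n (r.2.2 * r.1) x)) :=
    JC.comp (f := fun (r : ℝ × (P × ℝ)) x => (f r.2.1).toEquiv x)
      ((hf k).param (a := fun r : ℝ × (P × ℝ) => r.2.1) (continuous_fst.comp continuous_snd)) h1
  exact JC.bilin (ContinuousLinearMap.id ℝ (R2 (n + 1) →L[ℝ] R2 (n + 1)))
    (JC.constX (a := fun r : ℝ × (P × ℝ) => rl n (-(r.2.2 * r.1))) (rl_cont.comp hc.neg) k) h2

theorem arcF_smooth (φ : SympCt (n + 1)) {κ : ℝ → ℝ} (hκ : ContDiff ℝ ∞ κ) :
    ContDiff ℝ ∞ (fun z : ℝ × R2 (n + 1) => arcF φ (κ z.1) z.2) := by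
  have h1 : ContDiff ℝ ∞ (fun w : ℝ × (ℝ × R2 (n + 1)) => κ w.2.1 * w.1) :=
    (hκ.comp (contDiff_fst.comp contDiff_snd)).mul contDiff_fst
  have h2 : ContDiff ℝ ∞ (fun w : ℝ × (ℝ × R2 (n + 1)) => arcG φ (κ w.2.1 * w.1) w.2.2) :=
    (arcG_smooth φ).comp (h1.prodMk (contDiff_snd.comp contDiff_snd))
  have h3 : ∀ k, JC k (R2 (n + 1)) (fun (_ : Unit) (z : ℝ × R2 (n + 1)) =>
      arcF φ (κ z.1) z.2) := by
    intro k
    have h4 : JC k (ℝ × (ℝ × R2 (n + 1))) (fun (r : ℝ × Unit) (z : ℝ × R2 (n + 1)) =>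
        ((r.1, (0 : ℝ × R2 (n + 1))) : ℝ × (ℝ × R2 (n + 1))) +
          ContinuousLinearMap.inr ℝ ℝ (ℝ × R2 (n + 1)) z) :=
      (JC.constX (a := fun r : ℝ × Unit => ((r.1, (0 : ℝ × R2 (n + 1))) : ℝ × (ℝ × R2 (n + 1))))
        (continuous_fst.prodMk continuous_const) k).add
        (JC.ofSmooth (ContinuousLinearMap.inr ℝ ℝ (ℝ × R2 (n + 1))).contDiff k)
    have h5 := JC.postSmooth h2 h4
    have h6 : JC k (R2 (n + 1)) (fun (r : ℝ × Unit) (z : ℝ × R2 (n + 1)) =>
        arcG φ (κ z.1 * r.1) z.2) := by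
      refine Eq.mp ?_ h5
      congr 1
      funext r z
      simp
    exact JC_int01 h6
  exact contDiff_infty.2 fun k => JC.contDiff (h3 k) ()

end

/-- a map which commutes with the rotation by `2π/k` has a rotation invariant average over the arc
of length `2π/k` -/
theorem arcF_rot {φ : SympCt (n + 1)} {k : ℕ} (hk : 1 ≤ k)
    (hφ : ∀ p, φ.toEquiv (rl n (1 / k) p) = rl n (1 / k) (φ.toEquiv p)) (u : ℝ)
    (x : R2 (n + 1)) : arcF φ (1 / k) (rl n u x) = rl n u (arcF φ (1 / k) x) := by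
  have hk0 : (0 : ℝ) < k := by exact_mod_cast hk
  obtain ⟨g, hg⟩ : ∃ g : ℝ → R2 (n + 1), g = fun a => arcG φ a x := ⟨_, rfl⟩
  have hgc : Continuous g := by
    rw [hg]
    exact (arcG_smooth φ).continuous.comp (continuous_id.prodMk continuous_const)
  have hper : Function.Periodic g (1 / k : ℝ) := by
    intro a
    rw [hg]
    simp only
    unfold arcG
    rw [add_comm a, rl_add, hφ, neg_add, add_comm (-(1 / (k : ℝ))) (-a), rl_add, rl_neg]
  have h1 : ∀ b : ℝ, ∫ s in (0 : ℝ)..1, g (1 / k * s + b) =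
      (k : ℝ) • ∫ a in b..(b + 1 / k), g a := by
    intro b
    have h2 := intervalIntegral.integral_comp_mul_add (a := 0) (b := 1) g
      (c := (1 / k : ℝ)) (by positivity) b
    rw [h2]
    simp only [mul_zero, zero_add, mul_one, one_div, inv_inv]
    rw [add_comm b (k : ℝ)⁻¹]
  have e1 : arcF φ (1 / k) x = (k : ℝ) • ∫ a in (0 : ℝ)..(1 / k), g a := by
    have h2 := h1 0
    rw [zero_add] at h2
    rw [← h2]
    unfold arcF
    refine intervalIntegral.integral_congr fun s _ => ?_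
    simp only [hg, add_zero]
  have e2 : arcF φ (1 / k) (rl n u x) = rl n u ((k : ℝ) • ∫ a in u..(u + 1 / k), g a) := by
    rw [← h1 u]
    unfold arcF
    rw [← ContinuousLinearMap.intervalIntegral_comp_comm]
    · refine intervalIntegral.integral_congr fun s _ => ?_
      simp only [hg]
      unfold arcG
      rw [← rl_add, ← rl_add]
      congr 1
      congr 1
      ring
    · exact (hgc.comp ((continuous_const.mul continuous_id).add
        continuous_const)).intervalIntegrable _ _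
  rw [e2, e1, hper.intervalIntegral_add_eq u 0, zero_add]

end Pool.Agent.V5helper82.EQ
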