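import Mathlib
import Pool.Agent.V5helper82.EQ.Arc
import Pool.Agent.W5h49.EC.NDMos

/-!
# Moser's argument for families of maps which end at a non symplectic map
-/

set_option autoImplicit false
set_option linter.unusedSectionVars false

open scoped ContDiff Topology
open Set

namespace Pool.Agent.V5helper82.EQ

open Pool.Agent.W71.EC Pool.Agent.W5h83.HG Pool.Agent.W5h49.EC Pool.Agent.W5h49.EC.ND

variable {n : ℕ}

theorem lin_inj (g : R2 n →L[ℝ] R2 n) (hg : ∀ u v, omega (g u) (g v) = omega u v) (v : R2 n)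
    (h : g v = 0) : v = 0 := by
  by_contra hv
  have h1 := hg v (J v)
  rw [h, omJ] at h1
  have h2 := nsqPos hv
  have h3 : omega (0 : R2 n) (g (J v)) = 0 := by
    unfold omega
    simp
  linarith

theorem lin_surj (g : R2 n →L[ℝ] R2 n) (hg : ∀ u v, omega (g u) (g v) = omega u v) (w : R2 n) :
    ∃ v, g v = w := by
  have hi : Function.Injective (g : R2 n →ₗ[ℝ] R2 n) := by
    rw [← LinearMap.ker_eq_bot, LinearMap.ker_eq_bot']
    exact fun v hv => lin_inj g hg v hv
  obtain ⟨v, hv⟩ := (LinearMap.injective_iff_surjective.1 hi) w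
  exact ⟨v, hv⟩

section

variable {F : ℝ × R2 n → R2 n} (hF : ContDiff ℝ ∞ F)
  (nd : ∀ z (s : ℝ), 0 ≤ s → s ≤ 1 → ∀ v, Om s (DFm F z) v = 0 → v = 0)

include hF nd in
/-- the vector field is equivariant -/
theorem Xf_equi {t : ℝ} (ht : t ∈ Icc (0 : ℝ) 1) (g : R2 n →L[ℝ] R2 n)
    (hg : ∀ u v, omega (g u) (g v) = omega u v)
    (hFg : ∀ x, F (t, g x) = g (F (t, x))) (s : ℝ) (x : R2 n) :
    Xf F (s, (t, g x)) = g (Xf F (s, (t, x))) := by
  have hD : ∀ x v, DFm F (t, g x) (g v) = g (DFm F (t, x) v) := by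
    intro x v
    have h0 : ∀ y, HasFDerivAt (fun y => F (t, y)) (DFm F (t, y)) y := by
      intro y
      rw [← DFm_eq hF]
      have : ContDiff ℝ ∞ (fun y => F (t, y)) := hF.comp (contDiff_const.prodMk contDiff_id)
      exact ((this.differentiable (by simp)) _).hasFDerivAt
    have h1 : HasFDerivAt (fun y => F (t, g y)) ((DFm F (t, g x)).comp g) x :=
      (h0 (g x)).comp x g.hasFDerivAt
    have h2 : HasFDerivAt (fun y => g (F (t, y))) (g.comp (DFm F (t, x))) x :=
      g.hasFDerivAt.comp x (h0 x)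
    have h3 : (fun y => F (t, g y)) = fun y => g (F (t, y)) := funext hFg
    rw [h3] at h1
    exact DFunLike.congr_fun (h1.unique h2) v
  have hal : ∀ w, al F (t, g x) (g w) = al F (t, x) w := by
    intro w
    unfold al
    simp only [ContinuousLinearMap.smul_apply, ContinuousLinearMap.sub_apply,
      ContinuousLinearMap.comp_apply, W_apply]
    rw [hFg, hD, hg, hg]
  have key : Om (Real.smoothTransition s) (DFm F (t, g x))
      (Xf F (s, (t, g x)) - g (Xf F (s, (t, x)))) = 0 := by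
    refine ContinuousLinearMap.ext fun w => ?_
    obtain ⟨w, rfl⟩ := lin_surj g hg w
    rw [map_sub, ContinuousLinearMap.sub_apply, Xf_eq nd ht, hal, Om_apply, W_apply, W_apply,
      hg, hD, hD, hg]
    have h1 := Xf_eq nd ht s x w
    rw [Om_apply, W_apply, W_apply] at h1
    rw [h1]
    simp
  have h2 := Om_inj' nd s (t, g x) _ key
  exact sub_eq_zero.1 h2

include hF nd in
/-- the flow is equivariant -/
theorem flow_equi {K : Set (R2 n)} (hK : IsCompact K) (h0 : ∀ t x, x ∉ K → F (t, x) = x)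
    {Φ : ℝ → ℝ × R2 n → R2 n} (hΦ0 : ∀ t x, Φ t (0, x) = x)
    (hΦd : ∀ t s x, HasDerivAt (fun s => Φ t (s, x)) (Xf F (s, (t, Φ t (s, x)))) s)
    {t : ℝ} (ht : t ∈ Icc (0 : ℝ) 1) (g : R2 n →L[ℝ] R2 n)
    (hg : ∀ u v, omega (g u) (g v) = omega u v)
    (hFg : ∀ x, F (t, g x) = g (F (t, x))) (s : ℝ) (x : R2 n) :
    Φ t (s, g x) = g (Φ t (s, x)) := by
  have hs : ContDiff ℝ ∞ (Xf F) := Xf_smooth hF nd
  have hcs : HasCompactSupport (Xf F) :=
    HasCompactSupport.intro (isCompact_Icc.prod (isCompact_Icc.prod hK))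
      (fun q hq => Xf_out hF hK h0 q hq)
  obtain ⟨L, hL⟩ := hs.lipschitzWith_of_hasCompactSupport hcs (by simp)
  have hL' : ∀ s, LipschitzWith L (fun y => Xf F (s, (t, y))) := by
    intro s
    refine LipschitzWith.of_dist_le_mul fun a b => ?_
    refine (hL.dist_le_mul _ _).trans (le_of_eq ?_)
    simp [Prod.dist_eq]
  have h2 : (fun s => Φ t (s, g x)) = fun s => g (Φ t (s, x)) := by
    refine ODE_solution_unique_univ (v := fun s y => Xf F (s, (t, y)))
      (s := fun _ => univ) (K := L) (t₀ := 0)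
      (fun s => (hL' s).lipschitzOnWith) (fun s => ⟨hΦd t s (g x), trivial⟩)
      (fun s => ⟨?_, trivial⟩) ?_
    · have h3 := g.hasFDerivAt.comp_hasDerivAt s (hΦd t s x)
      rw [Xf_equi hF nd ht g hg hFg]
      exact h3
    · rw [hΦ0, hΦ0]
  exact congrFun h2 s

end

/-- **Moser's argument for families, half of it.** -/
theorem moser_half (hFlow : S_FLOWJC n) (C : Type) [TopologicalSpace C]
    [CompactSpace C] (F : C → ℝ × R2 n → R2 n) (K : Set (R2 n)) (hF : ∀ p, ContDiff ℝ ∞ (F p))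
    (hJ : ∀ k, JC k (R2 n) (fun (q : C × ℝ) (x : R2 n) => F q.1 (q.2, x))) (hK : IsCompact K)
    (h0 : ∀ p t x, x ∉ K → F p (t, x) = x)
    (nd₀ : ∀ p t x (s : ℝ), 0 ≤ s → s ≤ 1 → ∀ v, Om s (DF (F p) t x) v = 0 → v = 0)
    (f : C(C, SympCt n)) (hf : ∀ p x, F p (0, x) = (f p).toEquiv x) :
    ∃ θ : C(C, SympCt n), f.HomotopicRel θ {p | ∀ t x, F p (t, x) = x} ∧
      ∀ c (g : R2 n →L[ℝ] R2 n), (∀ u v, omega (g u) (g v) = omega u v) →
        (∀ x, F c (1, g x) = g (F c (1, x))) →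
        ∀ x, (θ c).toEquiv (g x) = g ((θ c).toEquiv x) := by
  have nd : ∀ p z (s : ℝ), 0 ≤ s → s ≤ 1 → ∀ v, Om s (DFm (F p) z) v = 0 → v = 0 := by
    rintro p ⟨t, x⟩ s hs0 hs1 v hv
    rw [← DFm_eq (hF p)] at hv
    exact nd₀ p t x s hs0 hs1 v hv
  have hex := fun p => exists_flow (hF p) (nd p) hK (h0 p)
  choose Φ hΦ hΦ0 hΦd hΦb hΦc using hex
  have hb0 : ∀ p, Function.Bijective (fun x => F p (0, x)) := by
    intro p
    have : (fun x => F p (0, x)) = (f p).toEquiv := funext (hf p)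
    rw [this]
    exact (f p).toEquiv.bijective
  have hbF : ∀ p, ∀ t ∈ Icc (0 : ℝ) 1, Function.Bijective (fun x => F p (t, x)) := fun p =>
    bij (hF p) hK (h0 p) (fun z v h => ND.A_inj (nd p z) v h) (hb0 p)
  -- joint smoothness of the flows
  have hXJ : ∀ k, JC k (R2 n) (fun (q : C × unitInterval) (z : ℝ × R2 n) =>
      Xf (F q.1) (z.1, ((q.2 : ℝ), z.2))) := fun k =>
    (xjc n C F hF hJ nd k).param (a := fun q : C × unitInterval => (q.1, (q.2 : ℝ)))
      (continuous_fst.prodMk (continuous_subtype_val.comp continuous_snd))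
  have hΦJ : ∀ k, JC k (R2 n) (fun (q : (C × unitInterval) × ℝ) (x : R2 n) =>
      Φ q.1.1 (q.1.2 : ℝ) (q.2, x)) :=
    hFlow (C × unitInterval) _ (Icc (0 : ℝ) 1 ×ˢ K) (isCompact_Icc.prod hK)
      (fun p z hz => Xf_out (hF p.1) hK (h0 p.1) _ fun h => hz ⟨h.1, h.2.2⟩) hXJ
      (fun q => Φ q.1 (q.2 : ℝ)) (fun p x => hΦ0 p.1 _ x) (fun p s x => hΦd p.1 _ s x)
  set fam : (C × unitInterval) × ℝ → R2 n → R2 n :=
    fun q x => F q.1.1 ((q.1.2 : ℝ), Φ q.1.1 (q.1.2 : ℝ) (q.2, x)) with hfam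
  have hfamJ : ∀ k, JC k (R2 n) fam := fun k =>
    JC.comp (f := fun (q : (C × unitInterval) × ℝ) (x : R2 n) => F q.1.1 ((q.1.2 : ℝ), x))
      ((hJ k).param (a := fun q : (C × unitInterval) × ℝ => (q.1.1, (q.1.2 : ℝ)))
        ((continuous_fst.comp continuous_fst).prodMk
          (continuous_subtype_val.comp (continuous_snd.comp continuous_fst)))) (hΦJ k)
  have hfams : ∀ q, ContDiff ℝ ∞ (fam q) := fun q =>
    (hF q.1.1).comp (contDiff_const.prodMk ((hΦ q.1.1).comp
      (contDiff_const.prodMk (contDiff_const.prodMk contDiff_id))))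
  have hfamb : ∀ q, Function.Bijective (fam q) := fun q =>
    (hbF q.1.1 _ q.1.2.2).comp (hΦb q.1.1 _ q.2)
  have hfam0 : ∀ q x, x ∉ K → fam q x = x := by
    intro q x hx
    simp only [hfam]
    rw [hΦc q.1.1 _ x hx, h0 q.1.1 _ x hx]
  have hsym : ∀ q : (C × unitInterval) × ℝ, (Real.smoothTransition q.2 = 1 ∨
      ∀ p a b, omega (DFm (F q.1.1) (((q.1.2 : ℝ)), p) a) (DFm (F q.1.1) (((q.1.2 : ℝ)), p) b)
        = omega a b) → ∀ x u v, omega (fderiv ℝ (fam q) x u) (fderiv ℝ (fam q) x v) =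
        omega u v := fun q hq x u v =>
    moser_sympl (hF q.1.1) (nd q.1.1) (hΦ q.1.1) (hΦ0 q.1.1) (hΦd q.1.1) q.1.2.2 q.2 hq x u v
  have hend : ∀ c p a b, omega (DFm (F c) (0, p) a) (DFm (F c) (0, p) b) = omega a b := by
    intro c p a b
    rw [← DFm_eq (hF c)]
    unfold DF
    have : (fun y => F c (0, y)) = (f c).toEquiv := funext (hf c)
    rw [this]
    exact (f c).symplectic _ a b
  -- where the family is the identity
  have hconst : ∀ c : C, (∀ t x, F c (t, x) = x) → ∀ (t : unitInterval) (s : ℝ)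
      (x : R2 n), fam ((c, t), s) x = x := by
    intro c hc t s x
    simp only [hfam]
    rw [hc]
    have hal : ∀ y, al (F c) ((t : ℝ), y) = 0 := by
      intro y
      have h1 : DFm (F c) ((t : ℝ), y) = ContinuousLinearMap.id ℝ (R2 n) := by
        rw [← DFm_eq (hF c)]
        unfold DF
        have : (fun y => F c ((t : ℝ), y)) = fun y => y := funext fun y => hc _ _
        rw [this]
        exact fderiv_id'
      unfold al
      rw [h1, hc]
      simp
    have hX : ∀ r y, Xf (F c) (r, ((t : ℝ), y)) = 0 := by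
      intro r y
      unfold Xf
      simp only [hal, map_zero, smul_zero, neg_zero]
    have hd : ∀ r, HasDerivAt (fun s => Φ c t (s, x)) 0 r := by
      intro r
      have h1 := hΦd c t r x
      rwa [hX] at h1
    have h2 := is_const_of_deriv_eq_zero (fun r => (hd r).differentiableAt)
      (fun r => (hd r).deriv) s 0
    simp only [hΦ0] at h2
    exact h2
  let H0 : unitInterval × C → SympCt n := fun q =>
    mk (fam ((q.2, 0), (q.1 : ℝ))) (hfamb _) (hfams _)
      (hsym _ (Or.inr (fun p a b => by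
        have := hend q.2 p a b
        simpa using this))) K hK (hfam0 _)
  let Hm : unitInterval × C → SympCt n := fun q =>
    mk (fam ((q.2, q.1), (1 : ℝ))) (hfamb _) (hfams _)
      (hsym _ (Or.inl Real.smoothTransition.one)) K hK (hfam0 _)
  have J0 : JS H0 := fun k => (hfamJ k).param (a := fun q : unitInterval × C =>
    ((q.2, (0 : unitInterval)), (q.1 : ℝ))) (by fun_prop)
  have Jm : JS Hm := fun k => (hfamJ k).param (a := fun q : unitInterval × C =>
    ((q.2, q.1), (1 : ℝ))) (by fun_prop)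
  have s0 : ∀ q, H0 q ∈ supportedIn K := fun q x hx => hfam0 _ x hx
  have sm : ∀ q, Hm q ∈ supportedIn K := fun q x hx => hfam0 _ x hx
  have cm : Continuous Hm := Jm.continuous K hK sm
  have c0 : Continuous H0 := J0.continuous K hK s0
  let θ0 : C(C, SympCt n) := ⟨fun c => Hm (0, c), cm.comp (continuous_const.prodMk continuous_id)⟩
  let θ1 : C(C, SympCt n) := ⟨fun c => Hm (1, c), cm.comp (continuous_const.prodMk continuous_id)⟩
  set A : Set C := {p | ∀ t x, F p (t, x) = x} with hAdef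
  have ef : ∀ c, H0 (0, c) = f c := by
    intro c
    refine SympCt.ext' fun x => ?_
    change fam ((c, 0), ((0 : unitInterval) : ℝ)) x = _
    simp only [hfam, Icc.coe_zero]
    rw [hΦ0]
    exact hf c x
  have eθ0 : ∀ c, H0 (1, c) = θ0 c := by
    intro c
    refine SympCt.ext' fun x => ?_
    change fam ((c, 0), ((1 : unitInterval) : ℝ)) x = fam ((c, 0), (1 : ℝ)) x
    rw [Icc.coe_one]
  have r1 : f.HomotopicRel θ0 A := by
    refine ⟨⟨⟨⟨H0, c0⟩, ef, eθ0⟩, fun t c hc => ?_⟩⟩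
    change H0 (t, c) = f c
    rw [← ef]
    refine SympCt.ext' fun x => ?_
    exact (hconst c hc _ _ x).trans (hconst c hc _ _ x).symm
  have r2 : θ0.HomotopicRel θ1 A := by
    refine ⟨⟨⟨⟨Hm, cm⟩, fun c => rfl, fun c => rfl⟩, fun t c hc => ?_⟩⟩
    change Hm (t, c) = Hm (0, c)
    refine SympCt.ext' fun x => ?_
    exact (hconst c hc _ _ x).trans (hconst c hc _ _ x).symm
  refine ⟨θ1, r1.trans r2, fun c g hg hFg x => ?_⟩
  change F c (((1 : unitInterval) : ℝ), Φ c ((1 : unitInterval) : ℝ) ((1 : ℝ), g x)) =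
    g (F c (((1 : unitInterval) : ℝ), Φ c ((1 : unitInterval) : ℝ) ((1 : ℝ), x)))
  rw [Icc.coe_one, flow_equi (hF c) (nd c) hK (h0 c) (hΦ0 c) (hΦd c) ⟨zero_le_one, le_rfl⟩ g hg hFg,
    hFg]

end Pool.Agent.V5helper82.EQ
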