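import Mathlib
import Pool.Agent.V5helper82.EQ.HalfMos
import Pool.Agent.W5h49.EC.NROpen
import Pool.Agent.W5h49.EC.CubeND

/-!
# Families with no reversal by the averages over arcs of rotations are null homotopic
-/

set_option autoImplicit false
set_option linter.unusedSectionVars false

open scoped ContDiff Topology
open Set

namespace Pool.Agent.V5helper82.EQ

open Pool.Agent.W71.EC Pool.Agent.W5h83.HG Pool.Agent.W5h49.EC

variable {n : ℕ}

theorem Bx_compact (m : ℝ) : IsCompact (Bx n m) := by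
  have h1 : IsClosed (Bx n m) := by
    have e : Bx n m = {p | ‖(co n p).1‖ ≤ m} ∩ {p | ‖(co n p).2‖ ≤ m} := rfl
    rw [e]
    exact (isClosed_le (continuous_norm.comp (continuous_fst.comp (co n).continuous))
      continuous_const).inter (isClosed_le (continuous_norm.comp (continuous_snd.comp
        (co n).continuous)) continuous_const)
  exact (isCompact_closedBall (0 : R2 (n + 1)) m).of_isClosed_subset h1 Bx_ball

/-- a compact rotation invariant family is null homotopic -/
theorem rot_null {C : Type*} [TopologicalSpace C] [CompactSpace C] (θ : C(C, SympCt (n + 1)))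
    (hR : ∀ c, Rot (θ c)) : θ.HomotopicRel (ContinuousMap.const C one) {c | θ c = one} := by
  obtain ⟨m, hm⟩ := supp_unif (isCompact_range θ.continuous)
  have hm0 : (0 : ℝ) ≤ m := m.cast_nonneg
  have hm' : ∀ c, θ c ∈ supportedIn (Metric.closedBall (0 : R2 (n + 1)) m) := fun c =>
    hm _ ⟨c, rfl⟩
  let γ : C × ℝ → SympCt (n + 1) := fun q => sh (θ q.1) (hR q.1) q.2
  have hJ : JS γ := sh_JS (JS.of_continuous θ.continuous) hR
  have hc : Continuous γ := by
    refine hJ.continuous (Metric.closedBall (0 : R2 (n + 1)) (2 * m)) (isCompact_closedBall _ _) ?_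
    intro q
    refine Pool.Agent.W5h83.HG.supp_mono Bx_ball ?_
    refine sh_supp (hR q.1) (supp_Bx hm0 (hm' q.1)) ?_ _
    intro z z' w h hz
    simp only [Bx, Set.mem_ofPred_eq, ContinuousLinearEquiv.apply_symm_apply] at h ⊢
    exact ⟨hz.trans h.1, h.2⟩
  have hc' : Continuous (fun z : unitInterval × C => γ (z.2, (m + 1) * (z.1 : ℝ))) :=
    hc.comp (continuous_snd.prodMk (continuous_const.mul
      (continuous_subtype_val.comp continuous_fst)))
  refine ⟨⟨⟨⟨_, hc'⟩, fun c => ?_, fun c => ?_⟩, fun t c hcA => ?_⟩⟩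
  · change γ (c, (m + 1) * ((0 : unitInterval) : ℝ)) = θ c
    rw [Set.Icc.coe_zero, mul_zero]
    exact sh_zero _
  · change γ (c, (m + 1) * ((1 : unitInterval) : ℝ)) = one
    rw [Set.Icc.coe_one, mul_one]
    exact sh_far (hR c) (hm' c) (by rw [abs_of_nonneg (by linarith)]; linarith)
  · have e1 : θ c = one := hcA
    change sh (θ c) (hR c) ((m + 1) * t) = θ c
    have e2 : ∀ (φ : SympCt (n + 1)) (hφ : Rot φ), φ = one → ∀ σ, sh φ hφ σ = φ := by
      rintro _ hφ rfl σ
      exact sh_one σ hφ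
    exact e2 _ _ e1 _

theorem arcA_zero_NR (φ : SympCt (n + 1)) (x : R2 (n + 1)) : NR (arcA φ 0 x) := by
  refine NR_of_tame fun v hv => ?_
  have e : ∀ w, arcA φ 0 x w = fderiv ℝ φ.toEquiv x w := by
    intro w
    unfold arcA
    simp [rl_zero]
  rw [e, e, φ.symplectic, omJ]
  exact nsqPos hv

/-- **The theorem on arcs.** -/
theorem arc_main (C : Type) [TopologicalSpace C] [CompactSpace C] (f : C(C, SympCt (n + 1)))
    {k : ℕ} (hk : 1 ≤ k)
    (hs : ∀ c p, (f c).toEquiv (rl n (1 / k) p) = rl n (1 / k) ((f c).toEquiv p))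
    (h : ∀ c (τ : ℝ), 0 < τ → τ ≤ 1 / k → ∀ x, NR (arcA (f c) τ x)) :
    f.HomotopicRel (ContinuousMap.const C one) {c | f c = one} := by
  have hk0 : (0 : ℝ) < 1 / k := by
    have : (0 : ℝ) < k := by exact_mod_cast hk
    positivity
  obtain ⟨m, hm⟩ := supp_unif (isCompact_range f.continuous)
  have hm0 : (0 : ℝ) ≤ m := m.cast_nonneg
  have hB : ∀ c, f c ∈ supportedIn (Bx n (2 * m)) := fun c => supp_Bx hm0 (hm _ ⟨c, rfl⟩)
  set κ : ℝ → ℝ := fun t => 1 / k * Real.smoothTransition t with hκdef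
  have hκ : ContDiff ℝ ∞ κ := contDiff_const.mul Real.smoothTransition.contDiff
  have hκ0 : ∀ t, 0 ≤ κ t := fun t => mul_nonneg hk0.le (Real.smoothTransition.nonneg t)
  have hκ1 : ∀ t, κ t ≤ 1 / k := fun t =>
    mul_le_of_le_one_right hk0.le (Real.smoothTransition.le_one t)
  set F : C → ℝ × R2 (n + 1) → R2 (n + 1) := fun c z => arcF (f c) (κ z.1) z.2 with hF
  have hFs : ∀ c, ContDiff ℝ ∞ (F c) := fun c => arcF_smooth (f c) hκ
  have hFJ : ∀ k, JC k (R2 (n + 1)) (fun (q : C × ℝ) (x : R2 (n + 1)) => F q.1 (q.2, x)) := by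
    intro l
    exact (arcF_JC (JS.of_continuous f.continuous) l).param
      (a := fun q : C × ℝ => (q.1, κ q.2)) (continuous_fst.prodMk
        (hκ.continuous.comp continuous_snd))
  have hDF : ∀ c t x v, DF (F c) t x v = arcA (f c) (κ t) x v := by
    intro c t x v
    unfold DF
    have h1 : HasFDerivAt (fun y => F c (t, y)) _ x := arcF_hasFD (f c) (κ t) x
    rw [h1.fderiv, arcA_eq]
  have hnd : ∀ c t x (s : ℝ), 0 ≤ s → s ≤ 1 → ∀ v, Om s (DF (F c) t x) v = 0 → v = 0 := by
    intro c t x s hs0 hs1 v hv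
    refine nd_of_NR (A := DF (F c) t x) ?_ s hs0 hs1 v hv
    have e : (DF (F c) t x : R2 (n + 1) → R2 (n + 1)) = arcA (f c) (κ t) x :=
      funext (hDF c t x)
    rw [e]
    rcases (hκ0 t).eq_or_lt with h5 | h5
    · rw [← h5]
      exact arcA_zero_NR _ _
    · exact h c (κ t) h5 (hκ1 t) x
  obtain ⟨θ, hθ, hequi⟩ := moser_half (flow_jc nem ev (n + 1)) C F (Bx n (2 * m)) hFs hFJ
    (Bx_compact _) (fun c t x hx => arcF_out (hB c) _ x hx) hnd f
    (fun c x => by
      simp only [hF, hκdef, Real.smoothTransition.zero, mul_zero]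
      exact arcF_zero _ _)
  have hR : ∀ c, Rot (θ c) := by
    intro c
    refine rot_of_com fun u hu p => ?_
    obtain ⟨s, rfl⟩ := cs_surj u hu
    rw [← rl_rt, ← rl_rt]
    refine hequi c (rl n s) (rl_omega s) (fun x => ?_) p
    simp only [hF, hκdef, Real.smoothTransition.one, mul_one]
    exact arcF_rot hk (hs c) s x
  have hsub : {c | f c = one} ⊆ {c | ∀ t x, F c (t, x) = x} := by
    intro c hc t x
    have hc' : f c = one := hc
    simp only [hF]
    rw [hc']
    exact arcF_one _ _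
  have h1 := rel_mono hθ hsub
  have h2 := rot_null θ hR
  refine h1.trans (rel_mono h2 ?_)
  obtain ⟨H⟩ := h1
  intro c hc
  have h3 := H.prop 1 c hc
  have h4 : H.toHomotopy (1, c) = θ c := H.toHomotopy.apply_one c
  change θ c = one
  have h5 : f c = one := hc
  exact (h4.symm.trans h3).trans h5

end Pool.Agent.V5helper82.EQ
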