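import Mathlib
import Pool.Agent.V5helper82.EQ.ArcMain

/-!
# Symmetries of high order
-/

set_option autoImplicit false
set_option linter.unusedSectionVars false

open scoped ContDiff Topology
open Set

namespace Pool.Agent.V5helper82.EQ

open Pool.Agent.W71.EC Pool.Agent.W5h83.HG Pool.Agent.W5h49.EC

variable {n : ℕ}

theorem arcB_cont {P : Type} [TopologicalSpace P] {f : P → SympCt (n + 1)} (hf : JS f) :
    Continuous (fun q : ℝ × (P × R2 (n + 1)) =>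
      ∫ s in (0 : ℝ)..1, arcD (f q.2.1) (q.1 * s) q.2.2) := by
  refine intervalIntegral.continuous_parametric_intervalIntegral_of_continuous'
    (f := fun (q : ℝ × (P × R2 (n + 1))) s => arcD (f q.2.1) (q.1 * s) q.2.2) ?_ 0 1
  have h1 : Continuous (fun z : (ℝ × (P × R2 (n + 1))) × ℝ =>
      ((z.1.2.1, (z.1.1 * z.2, z.1.2.2)) : P × (ℝ × R2 (n + 1)))) := by
    fun_prop
  exact (arcD_cont hf).comp h1

theorem arcA_out {φ : SympCt (n + 1)} {m : ℝ} (h : φ ∈ supportedIn (Bx n m)) (τ : ℝ)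
    {x : R2 (n + 1)} (hx : x ∉ Bx n m) (v : R2 (n + 1)) : arcA φ τ x v = v := by
  have h1 : ∀ y : R2 (n + 1), y ∉ Bx n m → fderiv ℝ φ.toEquiv y =
      ContinuousLinearMap.id ℝ (R2 (n + 1)) := by
    intro y hy
    have h2 : (φ.toEquiv : R2 (n + 1) → R2 (n + 1)) =ᶠ[𝓝 y] id := by
      have h3 : (Bx n m)ᶜ ∈ 𝓝 y := (Bx_compact m).isClosed.isOpen_compl.mem_nhds hy
      exact Filter.eventually_of_mem h3 fun z hz => h z hz
    rw [h2.fderiv_eq]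
    exact fderiv_id
  unfold arcA
  have h2 : ∀ s : ℝ, rl n (-(τ * s)) (fderiv ℝ φ.toEquiv (rl n (τ * s) x) (rl n (τ * s) v)) =
      v := by
    intro s
    rw [h1 _ (fun hc => hx (rl_Bx _ _ hc))]
    exact rl_neg _ _
  simp [h2]

/-- short arcs -/
theorem exists_arc (𝓕 : Set (SympCt (n + 1))) (h𝓕 : IsCompact 𝓕) :
    ∃ δ : ℝ, 0 < δ ∧ ∀ φ ∈ 𝓕, ∀ τ : ℝ, 0 < τ → τ ≤ δ → ∀ x, NR (arcA φ τ x) := by
  have : CompactSpace 𝓕 := isCompact_iff_compactSpace.1 h𝓕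
  obtain ⟨m, hm⟩ := supp_unif h𝓕
  have hm0 : (0 : ℝ) ≤ m := m.cast_nonneg
  have hJ : JS (fun φ : 𝓕 => φ.1) := JS.of_continuous continuous_subtype_val
  have hB := arcB_cont hJ
  have hU : IsOpen {q : ℝ × (𝓕 × R2 (n + 1)) |
      NR (∫ s in (0 : ℝ)..1, arcD (q.2.1).1 (q.1 * s) q.2.2 :
        R2 (n + 1) →L[ℝ] R2 (n + 1))} := (nr_open (n + 1)).preimage hB
  have hK : IsCompact ((univ : Set 𝓕) ×ˢ (Bx n (2 * m))) := isCompact_univ.prod (Bx_compact _)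
  have hev := hK.eventually_forall_of_forall_eventually (x₀ := (0 : ℝ))
    (P := fun τ (q : 𝓕 × R2 (n + 1)) => NR (∫ s in (0 : ℝ)..1, arcD (q.1).1 (τ * s) q.2 :
        R2 (n + 1) →L[ℝ] R2 (n + 1))) ?_
  · obtain ⟨ε, hε, hball⟩ := Metric.eventually_nhds_iff.1 hev
    refine ⟨ε / 2, by positivity, fun φ hφ τ hτ0 hτ x => ?_⟩
    by_cases hx : x ∈ Bx n (2 * m)
    · have h1 := hball (y := τ) (by
        rw [Real.dist_eq, sub_zero, abs_of_pos hτ0]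
        linarith) (⟨φ, hφ⟩, x) ⟨trivial, hx⟩
      have h2 : ((∫ s in (0 : ℝ)..1, arcD φ (τ * s) x : R2 (n + 1) →L[ℝ] R2 (n + 1)) :
          R2 (n + 1) → R2 (n + 1)) = arcA φ τ x := funext fun v => arcA_eq φ τ x v
      rw [← h2]
      exact h1
    · have h2 : arcA φ τ x = (ContinuousLinearMap.id ℝ (R2 (n + 1)) : R2 (n + 1) → R2 (n + 1)) :=
        funext fun v => arcA_out (supp_Bx hm0 (hm _ hφ)) τ hx v
      rw [h2]
      exact NR_id
  · rintro ⟨φ, x⟩ -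
    refine hU.mem_nhds ?_
    change NR (∫ s in (0 : ℝ)..1, arcD φ.1 (0 * s) x : R2 (n + 1) →L[ℝ] R2 (n + 1))
    have h2 : ((∫ s in (0 : ℝ)..1, arcD φ.1 (0 * s) x : R2 (n + 1) →L[ℝ] R2 (n + 1)) :
        R2 (n + 1) → R2 (n + 1)) = arcA φ.1 0 x := funext fun v => arcA_eq φ.1 0 x v
    rw [h2]
    exact arcA_zero_NR _ _

/-- **Symmetries of high order.** -/
theorem high_order (𝓕 : Set (SympCt (n + 1))) (h𝓕 : IsCompact 𝓕) :
    ∃ k₀ : ℕ, ∀ k : ℕ, k₀ ≤ k → ∀ (C : Type) [TopologicalSpace C] [CompactSpace C]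
      (f : C(C, SympCt (n + 1))), (∀ c, f c ∈ 𝓕) →
      (∀ c p, (f c).toEquiv (rl n (1 / k) p) = rl n (1 / k) ((f c).toEquiv p)) →
      f.HomotopicRel (ContinuousMap.const C one) {c | f c = one} := by
  obtain ⟨δ, hδ, h⟩ := exists_arc 𝓕 h𝓕
  obtain ⟨k₀, hk₀⟩ := exists_nat_gt (1 / δ)
  have hk₀' : 0 < k₀ := by
    have : (0 : ℝ) < k₀ := lt_trans (by positivity) hk₀
    exact_mod_cast this
  refine ⟨k₀, fun k hk C _ _ f hf hs => ?_⟩
  have h1 : (1 : ℝ) / k ≤ δ := by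
    have h2 : (k₀ : ℝ) ≤ k := by exact_mod_cast hk
    have h3 : (0 : ℝ) < k := lt_of_lt_of_le (by exact_mod_cast hk₀') h2
    rw [div_le_iff₀ h3]
    rw [div_lt_iff₀ hδ] at hk₀
    nlinarith
  exact arc_main C f (hk₀'.trans_le hk) hs
    (fun c τ h0 h2 x => h _ (hf c) τ h0 (h2.trans h1) x)

end Pool.Agent.V5helper82.EQ
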