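import Mathlib
import Pool.Agent.V5helper82.EQ.Group

/-!
# The contraction
-/

set_option autoImplicit false
set_option maxHeartbeats 400000
set_option linter.unusedSectionVars false

open scoped ContDiff Topology

namespace Pool.Agent.V5helper82.EQ

open Pool.Agent.W71.EC Pool.Agent.W5h83.HG

variable {n : ℕ}

/-- the elements supported in `K` which belong to `A`, with the smooth topology -/
def SK (A : Set (SympCt n)) (K : Set (R2 n)) : Type := {s : supportedIn K // s.1 ∈ A}

noncomputable instance (A : Set (SympCt n)) (K : Set (R2 n)) : TopologicalSpace (SK A K) :=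
  (smoothTopology K).induced (fun s => s.1)

theorem SK_cont (A : Set (SympCt n)) (K : Set (R2 n)) (hK : IsCompact K) :
    Continuous (fun s : SK A K => s.1.1) := by
  let _ : TopologicalSpace (supportedIn K) := smoothTopology K
  exact (continuous_val K hK).comp continuous_induced_dom

/-- the map from the disjoint union -/
def qm (A : Set (SympCt n)) (s : Σ K : TopologicalSpace.Compacts (R2 n), SK A (K : Set (R2 n))) :
    A := ⟨s.2.1.1, s.2.2⟩

theorem isClosed_iff (V : Set (SympCt n)) : IsClosed V ↔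
    ∀ K : TopologicalSpace.Compacts (R2 n), @IsClosed _ (smoothTopology (K : Set (R2 n)))
      ((Subtype.val : supportedIn (K : Set (R2 n)) → SympCt n) ⁻¹' V) := by
  rw [isClosed_iSup_iff]
  refine forall_congr' fun K => ?_
  exact @isClosed_coinduced _ _ (smoothTopology (K : Set (R2 n))) _ _

theorem qm_quot (A : Set (SympCt n)) (hA : IsClosed A) : Topology.IsQuotientMap (qm A) := by
  rw [Topology.isQuotientMap_iff_isClosed]
  constructor
  · rintro ⟨φ, hφ⟩
    obtain ⟨K, hK, h⟩ := φ.compact_support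
    exact ⟨⟨⟨K, hK⟩, ⟨⟨φ, h⟩, hφ⟩⟩, rfl⟩
  · intro U
    constructor
    · intro hU
      rw [isClosed_sigma_iff]
      intro K
      have : Continuous (fun s : SK A (K : Set (R2 n)) => qm A ⟨K, s⟩) := by
        refine Continuous.subtype_mk (SK_cont A _ K.isCompact) _
      exact hU.preimage this
    · intro hU
      rw [isClosed_sigma_iff] at hU
      have h1 : IsClosed (Subtype.val '' U : Set (SympCt n)) := by
        rw [isClosed_iff]
        intro K
        let _ : TopologicalSpace (supportedIn (K : Set (R2 n))) :=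
          smoothTopology (K : Set (R2 n))
        have h2 : IsClosed {s : supportedIn (K : Set (R2 n)) | s.1 ∈ A} :=
          hA.preimage (continuous_val _ K.isCompact)
        have h3 := hU K
        obtain ⟨V, hV, hVU⟩ := isClosed_induced_iff.1 h3
        have h4 : (Subtype.val : supportedIn (K : Set (R2 n)) → SympCt n) ⁻¹' (Subtype.val '' U) =
            V ∩ {s : supportedIn (K : Set (R2 n)) | s.1 ∈ A} := by
          ext s
          constructor
          · rintro ⟨a, haU, has⟩
            have hsA : s.1 ∈ A := has ▸ a.2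
            refine ⟨?_, hsA⟩
            have h5 : (⟨s, hsA⟩ : SK A (K : Set (R2 n))) ∈
                (fun s : SK A (K : Set (R2 n)) => s.1) ⁻¹' V := by
              rw [hVU]
              change (⟨s.1, hsA⟩ : A) ∈ U
              have : a = ⟨s.1, hsA⟩ := Subtype.ext has
              rwa [← this]
            exact h5
          · rintro ⟨hs, hsA⟩
            have h5 : (⟨s, hsA⟩ : SK A (K : Set (R2 n))) ∈
                (fun s : SK A (K : Set (R2 n)) => s.1) ⁻¹' V := hs
            rw [hVU] at h5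
            exact ⟨⟨s.1, hsA⟩, h5, rfl⟩
        rw [h4]
        exact hV.inter h2
      have h2 := h1.preimage (continuous_subtype_val (p := fun φ => φ ∈ A))
      rwa [Set.preimage_image_eq _ Subtype.val_injective] at h2

/-- the time of the contraction -/
noncomputable def tm (m : ℝ) (t : ℝ) : ℝ :=
  min t ((m + 1) / (m + 2)) / (1 - min t ((m + 1) / (m + 2)))

theorem tm_cont {m : ℝ} (hm : 0 ≤ m) : Continuous (tm m) := by
  unfold tm
  refine Continuous.div (by fun_prop) (by fun_prop) fun t => ?_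
  have h1 : min t ((m + 1) / (m + 2)) ≤ (m + 1) / (m + 2) := min_le_right _ _
  have h2 : (m + 1) / (m + 2) < 1 := by
    rw [div_lt_one (by linarith)]
    linarith
  linarith

theorem tm_eq {m t : ℝ} (h : t ≤ (m + 1) / (m + 2)) : tm m t = t / (1 - t) := by
  unfold tm
  rw [min_eq_left h]

theorem tm_far {m t : ℝ} (hm : 0 ≤ m) (h : (m + 1) / (m + 2) ≤ t) : tm m t = m + 1 := by
  unfold tm
  rw [min_eq_right h]
  have : m + 2 ≠ 0 := by positivity
  field_simp
  ring

/-- the contraction -/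
noncomputable def con (t : ℝ) (φ : SympCt (n + 1)) (hφ : Rot φ) : SympCt (n + 1) :=
  if t < 1 then sh φ hφ (t / (1 - t)) else one

theorem con_eq {m : ℝ} (hm : 0 ≤ m) {t : ℝ} {φ : SympCt (n + 1)} (hφ : Rot φ)
    (hs : φ ∈ supportedIn (Metric.closedBall (0 : R2 (n + 1)) m)) :
    con t φ hφ = sh φ hφ (tm m t) := by
  unfold con
  rcases le_total t ((m + 1) / (m + 2)) with h | h
  · have h2 : (m + 1) / (m + 2) < 1 := by
      rw [div_lt_one (by linarith)]
      linarith
    rw [if_pos (by linarith), tm_eq h]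
  · rw [tm_far hm h, sh_far hφ hs (σ := m + 1) (by rw [abs_of_nonneg (by linarith)]; linarith)]
    split_ifs with h1
    · refine sh_far hφ hs ?_
      have h3 : m + 1 ≤ t / (1 - t) := by
        rw [div_le_iff₀ (by linarith)] at h
        rw [le_div_iff₀ (by linarith)]
        linarith
      exact lt_of_lt_of_le (by linarith) (h3.trans (le_abs_self _))
    · rfl

/-- the set of the symplectomorphisms with given symmetries -/
def Fx (S : Set (R2 (n + 1) → R2 (n + 1))) : Set (SympCt (n + 1)) := {φ | ∀ h ∈ S, Com φ h}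

theorem cont_eval (p : R2 n) : Continuous (fun φ : SympCt n => φ.toEquiv p) :=
  (JS.of_continuous continuous_id 0).cont.comp (continuous_id.prodMk continuous_const)

theorem Fx_closed {S : Set (R2 (n + 1) → R2 (n + 1))} (hS : ∀ h ∈ S, Continuous h) :
    IsClosed (Fx S) := by
  have : Fx S = ⋂ h ∈ S, ⋂ p, {φ | φ.toEquiv (h p) = h (φ.toEquiv p)} := by
    ext φ
    simp [Fx, Com]
  rw [this]
  refine isClosed_biInter fun h hh => isClosed_iInter fun p => ?_
  exact isClosed_eq (cont_eval _) ((hS h hh).comp (cont_eval _))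

theorem Fx_rot {S : Set (R2 (n + 1) → R2 (n + 1))}
    (hR : ∀ u : ℂ, ‖u‖ = 1 → rt n u ∈ closure S) {φ : SympCt (n + 1)} (hφ : φ ∈ Fx S) : Rot φ :=
  rot_of_com fun u hu => com_closure hφ (hR u hu)

theorem con_com {t : ℝ} {φ : SympCt (n + 1)} (hφ : Rot φ) {h : R2 (n + 1) → R2 (n + 1)}
    (hs : Split h) (hc : Com φ h) : Com (con t φ hφ) h := by
  unfold con
  split_ifs
  · exact sh_com hφ hs hc _
  · intro p
    rfl

theorem con_comp {t : ℝ} {φ ψ : SympCt (n + 1)} (hφ : Rot φ) (hψ : Rot ψ) (h : Rot (comp φ ψ)) :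
    con t (comp φ ψ) h = comp (con t φ hφ) (con t ψ hψ) := by
  unfold con
  split_ifs
  · exact sh_comp hφ hψ h _
  · exact SympCt.ext' fun _ => rfl

theorem con_supp {t : ℝ} {φ : SympCt (n + 1)} (hφ : Rot φ) {U : Set (R2 (n + 1))}
    (hs : φ ∈ supportedIn U) (hU : ∀ (z z' : ℂ) (w : R2 n), (co n).symm (z, w) ∈ U →
      ‖z'‖ ≤ ‖z‖ → (co n).symm (z', w) ∈ U) : con t φ hφ ∈ supportedIn U := by
  unfold con
  split_ifs
  · exact sh_supp hφ hs hU _
  · exact fun _ _ => rfl

/-- **Continuity of the contraction.** -/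
theorem con_cont {S : Set (R2 (n + 1) → R2 (n + 1))} (hS : ∀ h ∈ S, Continuous h)
    (hR : ∀ φ ∈ Fx S, Rot φ) :
    Continuous (fun q : Fx S × unitInterval => con (q.2 : ℝ) q.1.1 (hR _ q.1.2)) := by
  refine (qm_quot (Fx S) (Fx_closed hS)).continuous_lift_prod_left ?_
  rw [← (Homeomorph.sigmaProdDistrib (X := fun K : TopologicalSpace.Compacts (R2 (n + 1)) =>
    SK (Fx S) (K : Set (R2 (n + 1)))) (Y := unitInterval)).symm.comp_continuous_iff']
  rw [continuous_sigma_iff]
  intro K
  change Continuous (fun q : SK (Fx S) (K : Set (R2 (n + 1))) × unitInterval =>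
    con (q.2 : ℝ) q.1.1.1 (hR _ q.1.2))
  obtain ⟨r, hr⟩ := K.isCompact.isBounded.subset_closedBall (0 : R2 (n + 1))
  obtain ⟨m, hm⟩ := exists_nat_ge r
  have hs : ∀ s : SK (Fx S) (K : Set (R2 (n + 1))),
      s.1.1 ∈ supportedIn (Metric.closedBall (0 : R2 (n + 1)) m) := by
    intro s p hp
    exact s.1.2 p fun hpK => hp (Metric.closedBall_subset_closedBall hm (hr hpK))
  have h1 : (fun q : SK (Fx S) (K : Set (R2 (n + 1))) × unitInterval =>
      con (q.2 : ℝ) q.1.1.1 (hR _ q.1.2)) = fun q => sh q.1.1.1 (hR _ q.1.2) (tm m q.2) := by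
    funext q
    exact con_eq m.cast_nonneg _ (hs q.1)
  rw [h1]
  have h2 : JS (fun s : SK (Fx S) (K : Set (R2 (n + 1))) => s.1.1) :=
    JS.of_continuous (SK_cont _ _ K.isCompact)
  have h3 := sh_JS h2 (fun s => hR _ s.2)
  have h4 : JS (fun q : SK (Fx S) (K : Set (R2 (n + 1))) × unitInterval =>
      sh q.1.1.1 (hR _ q.1.2) (tm m q.2)) := by
    intro k
    exact (h3 k).param (a := fun q : SK (Fx S) (K : Set (R2 (n + 1))) × unitInterval =>
      (q.1, tm m q.2)) (continuous_fst.prodMk ((tm_cont m.cast_nonneg).comp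
        (continuous_subtype_val.comp continuous_snd)))
  refine h4.continuous {p : R2 (n + 1) | ‖(co n p).1‖ ≤ 2 * m ∧ ‖(co n p).2‖ ≤ 2 * m} ?_ ?_
  · have h5 : {p : R2 (n + 1) | ‖(co n p).1‖ ≤ 2 * m ∧ ‖(co n p).2‖ ≤ 2 * m} =
        (co n).symm '' (Metric.closedBall (0 : ℂ × R2 n) (2 * m)) := by
      ext p
      constructor
      · intro hp
        refine ⟨co n p, ?_, ContinuousLinearEquiv.symm_apply_apply _ _⟩
        rw [Metric.mem_closedBall, dist_zero_right, Prod.norm_def]
        exact max_le hp.1 hp.2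
      · rintro ⟨x, hx, rfl⟩
        rw [Metric.mem_closedBall, dist_zero_right, Prod.norm_def] at hx
        simp only [Set.mem_ofPred_eq, ContinuousLinearEquiv.apply_symm_apply]
        exact ⟨(le_max_left _ _).trans hx, (le_max_right _ _).trans hx⟩
    rw [h5]
    exact (isCompact_closedBall _ _).image (co n).symm.continuous
  · intro q
    refine sh_supp _ ?_ (fun z z' w => ball_disc (2 * m) z z' w) _
    refine fun p hp => hs q.1 p fun hpm => hp ?_
    rw [Metric.mem_closedBall, dist_zero_right] at hpm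
    have e1 : ‖p.1‖ ≤ m := (le_max_left _ _).trans hpm
    have e2 : ‖p.2‖ ≤ m := (le_max_right _ _).trans hpm
    have e3 : ∀ (v : Fin (n + 1) → ℝ), ‖Fin.tail v‖ ≤ ‖v‖ := fun v =>
      (pi_norm_le_iff_of_nonneg (norm_nonneg _)).2 fun i => norm_le_pi_norm v i.succ
    have hm0 : (0 : ℝ) ≤ m := m.cast_nonneg
    constructor
    · change ‖(⟨p.1 0, p.2 0⟩ : ℂ)‖ ≤ 2 * m
      refine (Complex.norm_le_abs_re_add_abs_im _).trans ?_
      have f1 : |p.1 0| ≤ ‖p.1‖ := norm_le_pi_norm p.1 0
      have f2 : |p.2 0| ≤ ‖p.2‖ := norm_le_pi_norm p.2 0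
      simp only
      linarith
    · change ‖(Fin.tail p.1, Fin.tail p.2)‖ ≤ 2 * m
      rw [Prod.norm_def]
      exact max_le (by linarith [e3 p.1]) (by linarith [e3 p.2])

/-- the contraction of the group of the symplectomorphisms with the symmetries `S` -/
theorem exists_contraction {S : Set (R2 (n + 1) → R2 (n + 1))} (hS : ∀ h ∈ S, Continuous h)
    (hsp : ∀ h ∈ S, Split h) (hR' : ∀ φ ∈ Fx S, Rot φ) :
    ∃ H : unitInterval × Fx S → Fx S, Continuous H ∧ (∀ φ, H (0, φ) = φ) ∧
      (∀ φ, (H (1, φ)).1 = one) ∧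
      (∀ t (φ ψ χ : Fx S), χ.1 = comp φ.1 ψ.1 → (H (t, χ)).1 = comp (H (t, φ)).1 (H (t, ψ)).1) ∧
      (∀ U : Set (R2 (n + 1)), (∀ (z z' : ℂ) (w : R2 n), (co n).symm (z, w) ∈ U →
        ‖z'‖ ≤ ‖z‖ → (co n).symm (z', w) ∈ U) → ∀ (t : unitInterval) (φ : Fx S),
          φ.1 ∈ supportedIn U → (H (t, φ)).1 ∈ supportedIn U) := by
  refine ⟨fun q => ⟨con (q.1 : ℝ) q.2.1 (hR' _ q.2.2), fun h hh =>
    con_com (hR' _ q.2.2) (hsp h hh) (q.2.2 h hh)⟩, ?_, ?_, ?_, ?_, ?_⟩
  · refine Continuous.subtype_mk ?_ _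
    exact (con_cont hS hR').comp (continuous_snd.prodMk continuous_fst)
  · intro φ
    refine Subtype.ext ?_
    change con ((0 : unitInterval) : ℝ) φ.1 _ = φ.1
    unfold con
    rw [if_pos (by simp)]
    have : (((0 : unitInterval) : ℝ) / (1 - ((0 : unitInterval) : ℝ))) = 0 := by simp
    rw [this, sh_zero]
  · intro φ
    change con ((1 : unitInterval) : ℝ) φ.1 _ = one
    unfold con
    rw [if_neg (by simp)]
  · rintro t φ ψ ⟨χ, hχ⟩ h
    simp only at h
    subst h
    exact con_comp (hR' _ φ.2) (hR' _ ψ.2) _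
  · intro U hU t φ hφ
    exact con_supp _ hφ hU

theorem one_mem (S : Set (R2 (n + 1) → R2 (n + 1))) : one ∈ Fx S := fun _ _ _ => rfl

theorem contractible {S : Set (R2 (n + 1) → R2 (n + 1))} (hS : ∀ h ∈ S, Continuous h)
    (hsp : ∀ h ∈ S, Split h) (hR : ∀ φ ∈ Fx S, Rot φ) :
    ContractibleSpace (Fx S) := by
  obtain ⟨H, hH, h0, h1, -⟩ := exists_contraction hS hsp hR
  rw [contractible_iff_id_nullhomotopic]
  exact ⟨⟨one, one_mem S⟩, ⟨⟨⟨H, hH⟩, h0, fun φ => Subtype.ext (h1 φ)⟩⟩⟩

end Pool.Agent.V5helper82.EQ
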